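import Pool.Agent.H42.NDC.Lit
import Pool.Agent.H73.D2.Tvb

/-!
# Codes, jets and heights

`jet_near`: the jets from the codes of the own path and the time. `pc_of_jt`: the codes from the jets.
`pc_cnt`: the number of values of the last digits of the constant. `ti_le`: a function of the line
which is few bits given the time and a function of the line is few bits given the latter.
-/

set_option autoImplicit false

namespace Pool.NDC42

open Finset Real MvPolynomial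
open Pool.Agent.H49.Ent Pool.Agent.H32.Dense Pool.STK Pool.KA Pool.KSAT Pool.K2S Pool.PB Pool.GEN
open Pool.S6C Pool.RCD Pool.LA91 Pool.OWN68 Pool.CHT
open Pool.AVG71 (cod cod_few)
open Pool.AVG5 (jt jt_le jt_sub of_fl)
open Pool.AVG57 (tw_of_T tw_rt)
open Pool.PB.Trl (rt rt_mem t_rt)
open Pool.V0F (cR)
open Pool.GRD (LbP)
open Pool.AJW (CfB)

variable {m J : ℕ}

/-- **The jets from the codes** of the own path and the time, in units of the last digit. -/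
theorem jet_near {F : Fam m J} {w s N : ℝ} (hw0 : 0 ≤ w) (hwJ : ⌊w * J⌋₊ ≤ J) (hN : N ≤ s)
    {κ : Fin m} {V : Type} {zl : LnT F → V} {G : V → MvPolynomial (Option (Fin m)) ℝ} {D : ℕ}
    (hdeg : ∀ v, (G v).totalDegree + 1 ≤ D) {j₀ j : ℕ} (hj : j₀ ≤ j) {ω ω' : F.Ω}
    (hT : F.T ω = F.T ω') (hc : cod F ⌊w * J⌋₊ j₀ D (2 ^ (s * J)) κ zl G ω =
      cod F ⌊w * J⌋₊ j₀ D (2 ^ (s * J)) κ zl G ω') :
    |(2 : ℝ) ^ ((N - (j : ℝ) * w) * J) * ojet F κ j (G (zl (slam F ⌊w * J⌋₊ ω))) ω -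
      (2 : ℝ) ^ ((N - (j : ℝ) * w) * J) * ojet F κ j (G (zl (slam F ⌊w * J⌋₊ ω'))) ω'| ≤
      2 ^ (D + 1) * (j.factorial : ℝ) := by
  obtain ⟨W, hW⟩ : ∃ W, W = ⌊w * J⌋₊ := ⟨_, rfl⟩
  rw [← hW] at hc hwJ ⊢
  obtain ⟨P, hP⟩ : ∃ P, P = fun o => dv W (fun s (_ : Fin m) => G (zl s)) κ (slam F W o) := ⟨_, rfl⟩
  have hPd : ∀ o, (P o).natDegree ≤ D := by
    intro o
    rw [hP]
    refine (natDegree_dv W (K := D - 1) (G := fun s (_ : Fin m) => G (zl s))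
      (fun s _ => by have := hdeg (zl s); omega) _ _).trans ?_
    have := hdeg (zl (slam F W o))
    omega
  have hrt : rt F W ω = rt F W ω' := by
    have h1 := tw_of_T F (W := W) hT
    rwa [tw_rt F hwJ, tw_rt F hwJ] at h1
  have hθ : |rt F W ω| ≤ 1 := by
    have h1 := rt_mem F W ω
    rw [abs_le]
    constructor <;> linarith [h1.1, h1.2]
  have hWw : (W : ℝ) ≤ w * J := by
    rw [hW]
    exact Nat.floor_le (mul_nonneg hw0 (Nat.cast_nonneg J))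
  have hs0 : (0 : ℝ) < 2 ^ (s * J) := Real.rpow_pos_of_pos (by norm_num) _
  have hp0 : (0 : ℝ) < 2 ^ ((N - (j : ℝ) * w) * J) := Real.rpow_pos_of_pos (by norm_num) _
  have hco : ∀ i, j ≤ i → |(P ω - P ω').coeff i| ≤ 1 / 2 ^ (s * J) := by
    intro i hi
    rw [Polynomial.coeff_sub]
    rcases Nat.lt_or_ge D i with h1 | h1
    · rw [Polynomial.coeff_eq_zero_of_natDegree_lt ((hPd ω).trans_lt h1),
        Polynomial.coeff_eq_zero_of_natDegree_lt ((hPd ω').trans_lt h1), sub_zero, abs_zero]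
      positivity
    · have h2 := congrFun hc ⟨i, by omega⟩
      unfold cod at h2
      dsimp only at h2
      rw [if_pos (hj.trans hi), if_pos (hj.trans hi)] at h2
      rw [hP]
      exact of_fl hs0 h2
  have h1 := jt_le ((Polynomial.natDegree_sub_le _ _).trans (max_le (hPd ω) (hPd ω'))) hθ
    (by positivity : (0 : ℝ) ≤ 1 / 2 ^ (s * J)) hco
  rw [jt_sub] at h1
  have e1 : jt (P ω) (rt F W ω) j = ojet F κ j (G (zl (slam F W ω))) ω /
      ((j.factorial : ℝ) * (2 ^ W) ^ j) := by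
    rw [hP]
    exact Pool.AVG57.ojet_tay F hwJ ω κ (fun s (_ : Fin m) => G (zl s)) j
  have e2 : jt (P ω') (rt F W ω) j = ojet F κ j (G (zl (slam F W ω'))) ω' /
      ((j.factorial : ℝ) * (2 ^ W) ^ j) := by
    rw [hP, hrt]
    exact Pool.AVG57.ojet_tay F hwJ ω' κ (fun s (_ : Fin m) => G (zl s)) j
  have hf : (0 : ℝ) < (j.factorial : ℝ) * (2 ^ W) ^ j := by positivity
  rw [e1, e2, ← sub_div, abs_div, abs_of_pos hf, div_le_iff₀ hf] at h1
  rw [← mul_sub, abs_mul, abs_of_pos hp0]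
  have h4 : (2 : ℝ) ^ ((N - (j : ℝ) * w) * J) * (2 ^ W) ^ j ≤ 2 ^ (s * J) := by
    have e3 : (2 : ℝ) ^ ((N - (j : ℝ) * w) * J) * (2 ^ W) ^ j =
        2 ^ ((N - (j : ℝ) * w) * J + W * j) := by
      rw [Real.rpow_add (by norm_num), ← Nat.cast_mul, Real.rpow_natCast, pow_mul]
    rw [e3]
    refine Real.rpow_le_rpow_of_exponent_le (by norm_num) ?_
    have h5 : (W : ℝ) * j ≤ w * J * j := mul_le_mul_of_nonneg_right hWw (Nat.cast_nonneg j)
    have h6 : N * J ≤ s * J := mul_le_mul_of_nonneg_right hN (Nat.cast_nonneg J)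
    have h7 : (N - (j : ℝ) * w) * J = N * J - w * J * j := by ring
    linarith
  calc (2 : ℝ) ^ ((N - (j : ℝ) * w) * J) *
        |ojet F κ j (G (zl (slam F W ω))) ω - ojet F κ j (G (zl (slam F W ω'))) ω'|
      ≤ 2 ^ ((N - (j : ℝ) * w) * J) * (2 ^ (D + 1) * (1 / 2 ^ (s * J)) *
          ((j.factorial : ℝ) * (2 ^ W) ^ j)) := mul_le_mul_of_nonneg_left h1 hp0.le
    _ = 2 ^ (D + 1) * (j.factorial : ℝ) *
          ((2 ^ ((N - (j : ℝ) * w) * J) * (2 ^ W) ^ j) / 2 ^ (s * J)) := by ring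
    _ ≤ 2 ^ (D + 1) * (j.factorial : ℝ) * 1 := by
        refine mul_le_mul_of_nonneg_left ?_ (by positivity)
        rwa [div_le_one hs0]
    _ = 2 ^ (D + 1) * (j.factorial : ℝ) := mul_one _

/-- **The digits of a jet** over the label `H · l` of the window `w`. -/
noncomputable def jtC (F : Fam m J) (c : ℕ → Fin m) (w : ℝ)
    (H : LnT F → ℕ → MvPolynomial (Option (Fin m)) ℝ) (l j : ℕ) (s : ℝ) (ω : F.Ω) : ℤ :=
  ⌊(2 : ℝ) ^ ((s - (j : ℝ) * w) * J) * ojet F (c l) j (H (slam F ⌊w * J⌋₊ ω) l) ω⌋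

theorem jtC_zero (F : Fam m J) (c : ℕ → Fin m) (w : ℝ)
    (H : LnT F → ℕ → MvPolynomial (Option (Fin m)) ℝ) (l : ℕ) (s : ℝ) :
    jtC F c w H l 0 s = hgC F c w H l s := by
  funext ω
  unfold jtC hgC
  rw [Nat.cast_zero, zero_mul, sub_zero]

/-- The constants of the codes. -/
noncomputable def cD (D : ℕ) : ℝ :=
  ((D + 1 + 1 : ℕ) : ℝ) * Real.log (2 * (2 ^ (2 * (D + 1) + 1) + 1) + 1)

noncomputable def cJ (D j : ℕ) : ℝ := Real.log (2 * ((2 ^ (D + 1 + 1) * j.factorial + 1 : ℕ) : ℝ) + 1)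

theorem cD_nonneg (D : ℕ) : 0 ≤ cD D := by
  unfold cD
  refine mul_nonneg (Nat.cast_nonneg _) (Real.log_nonneg ?_)
  have : (0 : ℝ) < 2 ^ (2 * (D + 1) + 1) := by positivity
  linarith

theorem cJ_nonneg (D j : ℕ) : 0 ≤ cJ D j := by
  unfold cJ
  refine Real.log_nonneg ?_
  have : (0 : ℝ) ≤ ((2 ^ (D + 1 + 1) * j.factorial + 1 : ℕ) : ℝ) := Nat.cast_nonneg _
  linarith

/-- **The jets are few bits given the codes and the time.** -/
theorem jt_of_pc {F : Fam m J} {c : ℕ → Fin m} {D : ℕ} {w s N : ℝ} (hw0 : 0 ≤ w) (hw1 : w ≤ 1)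
    (hN : N ≤ s) {H : LnT F → ℕ → MvPolynomial (Option (Fin m)) ℝ} {l j₀ j : ℕ}
    (hdeg : ∀ x, (H x l).totalDegree ≤ D)
    (hj : j₀ ≤ j) {q : F.Ω → ℝ} (hq : IsLaw q) {Γ : Type} (Y : F.Ω → Γ)
    (hY : ∀ ω ω', 0 < q ω → 0 < q ω' → Y ω = Y ω' → F.T ω = F.T ω' ∧
      pcC F c D w H l j₀ s ω = pcC F c D w H l j₀ s ω') :
    CH q (jtC F c w H l j N) Y ≤ cJ D j := by
  unfold cJ
  refine CH_pair hq _ _ fun ω ω' hω hω' e => ?_
  obtain ⟨hT, hc⟩ := hY ω ω' hω hω' e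
  have h1 := jet_near (F := F) (D := D + 1) (κ := c l) (zl := fun x => x) (G := fun x => H x l)
    hw0 (floor_le hw1 J) hN (fun x => Nat.succ_le_succ (hdeg x)) hj hT hc
  refine floor_sub_le ?_
  push_cast
  exact h1

/-- **The codes are few bits given the jets.** -/
theorem pc_of_jt {F : Fam m J} {c : ℕ → Fin m} {D : ℕ} {w s : ℝ} (hw0 : 0 ≤ w) (hw1 : w ≤ 1)
    {H : LnT F → ℕ → MvPolynomial (Option (Fin m)) ℝ} {l j₀ : ℕ}
    (hdeg : ∀ x, (H x l).totalDegree ≤ D) {q : F.Ω → ℝ} (hq : IsLaw q) {Γ : Type}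
    (Y : F.Ω → Γ) (hY : ∀ ω ω', 0 < q ω → 0 < q ω' → Y ω = Y ω' → F.T ω = F.T ω')
    {g : ℕ → ℝ} (hg : ∀ j, j₀ ≤ j → j ≤ D + 1 → CH q (jtC F c w H l j s) Y ≤ g j)
    (hg0 : ∀ j, 0 ≤ g j) :
    CH q (pcC F c D w H l j₀ s) Y ≤ (∑ j ∈ range (D + 2), g j) + cD D := by
  have h0 := hq.nonneg
  obtain ⟨Ju, hJu⟩ : ∃ Ju : F.Ω → Fin (D + 2) → ℤ, Ju = fun ω (j : Fin (D + 2)) => if j₀ ≤ (j : ℕ) then
    jtC F c w H l j s ω else 0 := ⟨_, rfl⟩
  have s1 := CH_le_add h0 (pcC F c D w H l j₀ s) Ju Y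
  have s2 : CH q Ju Y ≤ ∑ j ∈ range (D + 2), g j := by
    refine (CH_pis h0 Ju Y).trans ?_
    rw [← Fin.sum_univ_eq_sum_range]
    refine Finset.sum_le_sum fun j _ => ?_
    by_cases hj : j₀ ≤ (j : ℕ)
    · have e1 : (fun ω => Ju ω j) = jtC F c w H l j s := by
        funext ω
        rw [hJu]
        exact if_pos hj
      rw [e1]
      exact hg j hj (by omega)
    · have e1 : ∀ ω, Ju ω j = 0 := fun ω => by
        rw [hJu]
        exact if_neg hj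
      rw [CH_eq_zero h0 fun ω ω' _ _ _ => by rw [e1, e1]]
      exact hg0 j
  have s3 : CH q (pcC F c D w H l j₀ s) (fun ω => (Ju ω, Y ω)) ≤ cD D := by
    refine le_trans (cod_few (F := F) (w := w) (N := s) (D := D + 1) (κ := c l)
      (zl := fun x => x) (G := fun x => H x l) hw0 (floor_le hw1 J)
      (Real.rpow_pos_of_pos (by norm_num) _) le_rfl (fun x => Nat.succ_le_succ (hdeg x)) hq
      (fun ω => (Ju ω, Y ω)) j₀ (s := fun j => s - (j : ℝ) * w) (fun j _ _ => le_rfl)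
      fun ω ω' hω hω' e => ?_) le_rfl
    obtain ⟨e1, e2⟩ := Prod.ext_iff.mp e
    refine ⟨hY ω ω' hω hω' e2, fun j h1 h2 => ?_⟩
    have e3 := congrFun e1 ⟨j, by omega⟩
    rw [hJu] at e3
    simp only [if_pos h1] at e3
    exact e3
  linarith

/-- **The last digits of the constant** of an own path. -/
theorem pc_cnt {F : Fam m J} {c : ℕ → Fin m} {D : ℕ} {w s s' : ℝ} (hs : s' ≤ s)
    {H : LnT F → ℕ → MvPolynomial (Option (Fin m)) ℝ} {l : ℕ} {q : F.Ω → ℝ} (hq : IsLaw q)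
    {Γ : Type} (Y : F.Ω → Γ) (hY : ∀ ω ω', 0 < q ω → 0 < q ω' → Y ω = Y ω' →
      pcC F c D w H l 1 s ω = pcC F c D w H l 1 s ω' ∧
      pcC F c D w H l 0 s' ω = pcC F c D w H l 0 s' ω') :
    CH q (pcC F c D w H l 0 s) Y ≤ (s - s') * J * Real.log 2 + Real.log 7 := by
  have h0 := hq.nonneg
  have hJ0 : (0 : ℝ) ≤ J := Nat.cast_nonneg J
  obtain ⟨P0, hP0⟩ : ∃ P0 : F.Ω → ℝ, P0 = fun ω => (dv ⌊w * J⌋₊ (fun x (_ : Fin m) => H x l) (c l)
    (slam F ⌊w * J⌋₊ ω)).coeff 0 := ⟨_, rfl⟩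
  have s1 : CH q (pcC F c D w H l 0 s) Y ≤ CH q (fun ω => ⌊(2 : ℝ) ^ (s * J) * P0 ω⌋) Y := by
    refine CH_mono_left h0 fun ω ω' hω hω' e => ?_
    obtain ⟨e1, e2⟩ := Prod.ext_iff.mp e
    obtain ⟨h1, -⟩ := hY ω ω' hω hω' e2
    funext a
    rcases Nat.eq_zero_or_pos (a : ℕ) with ha | ha
    · have ha' : a = ⟨0, by omega⟩ := Fin.ext ha
      rw [ha']
      dsimp only at e1
      rw [hP0] at e1
      unfold pcC cod
      rw [if_pos (Nat.zero_le _), if_pos (Nat.zero_le _)]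
      exact e1
    · have h2 := congrFun h1 a
      unfold pcC cod at h2 ⊢
      rw [if_pos (show 1 ≤ (a : ℕ) from ha), if_pos (show 1 ≤ (a : ℕ) from ha)] at h2
      rw [if_pos (Nat.zero_le _), if_pos (Nat.zero_le _)]
      exact h2
  have hE : (1 : ℝ) ≤ 2 ^ ((s - s') * J) :=
    Real.one_le_rpow (by norm_num) (mul_nonneg (by linarith) hJ0)
  have s2 := Pool.AJX.ch_fine hq (fun ω => (2 : ℝ) ^ (s * J) * P0 ω) Y hE
  have e1 : ∀ ω, (2 : ℝ) ^ (s * J) * P0 ω / 2 ^ ((s - s') * J) = 2 ^ (s' * J) * P0 ω := by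
    intro ω
    rw [div_eq_iff (by positivity), mul_right_comm, ← Real.rpow_add (by norm_num)]
    congr 2
    ring
  have s3 : CH q (fun ω => ⌊(2 : ℝ) ^ (s * J) * P0 ω / 2 ^ ((s - s') * J)⌋) Y ≤ 0 := by
    refine le_of_eq (CH_eq_zero h0 fun ω ω' hω hω' e => ?_)
    obtain ⟨-, h2⟩ := hY ω ω' hω hω' e
    have h3 := congrFun h2 ⟨0, by omega⟩
    unfold pcC cod at h3
    rw [if_pos (Nat.zero_le _), if_pos (Nat.zero_le _)] at h3
    rw [e1, e1, hP0]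
    exact h3
  rw [Real.log_rpow (by norm_num)] at s2
  linarith

/-- The record determines the closed functions. -/
theorem rec_det {J : ℕ} {F : Fam m J} {A : F.Ω → Prop} {w : ℝ} {V : Type} {z : F.Ω → V}
    (hz : Cl2 (ptr F J) (vg w J F) A z) {ω ω' : F.Ω} (e : cR F A w ω = cR F A w ω') :
    z ω = z ω' := by
  have h2 := congrFun e ⟨fun ν => z ν = z ω', hz.comp fun v => v = z ω'⟩
  have h3 : (z ω = z ω') = (z ω' = z ω') := h2
  exact h3.mpr rfl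

/-- The record of an earlier window. -/
theorem rec_mono {J : ℕ} {F : Fam m J} {A : F.Ω → Prop} {w w' : ℝ} (h : w ≤ w') (h' : w' ≤ 1)
    {ω ω' : F.Ω} (e : cR F A w' ω = cR F A w' ω') : cR F A w ω = cR F A w ω' := by
  obtain ⟨χ, hχ⟩ := Pool.RCD.vg_mono h h' J F
  funext D
  exact congrFun e ⟨D.1, D.2.mono ⟨fun x => x, fun _ _ => rfl⟩ ⟨χ, fun ν _ => hχ ν⟩⟩

/-- Fewer digits of a coordinate. -/
theorem x_coarse {F : Fam m J} {n : ℕ} (h : n ≤ J) {k : Fin m} {ω ω' : F.Ω}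
    (e : F.X J ω k = F.X J ω' k) : F.X n ω k = F.X n ω' k := by
  have e1 : ∀ x : ℝ, ⌊(2 : ℝ) ^ n * x⌋ = ⌊(2 : ℝ) ^ J * x⌋ / 2 ^ (J - n) := by
    intro x
    have e2 : (2 : ℝ) ^ n * x = (2 ^ J * x) / ((2 ^ (J - n) : ℕ) : ℝ) := by
      have e3 : (2 : ℝ) ^ J = 2 ^ n * 2 ^ (J - n) := by
        rw [← pow_add]
        congr 1
        omega
      rw [e3]
      push_cast
      field_simp
    rw [e2, Int.floor_div_natCast]
    push_cast
    rfl
  show ⌊(2 : ℝ) ^ n * F.x ω k⌋ = ⌊(2 : ℝ) ^ n * F.x ω' k⌋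
  rw [e1, e1]
  have h1 : ⌊(2 : ℝ) ^ J * F.x ω k⌋ = ⌊(2 : ℝ) ^ J * F.x ω' k⌋ := e
  rw [h1]

/-- **Independence of the time**: `X` and `Y` are functions of the line `L`; the time is full given
the line. -/
theorem ti_le {Ω α β γ δ : Type} [Fintype Ω] {q : Ω → ℝ} (h0 : ∀ ω, 0 ≤ q ω) {X : Ω → α} {Y : Ω → β}
    {L : Ω → γ} {T : Ω → δ} (hL : Det q L (fun ω => (X ω, Y ω))) {a b g : ℝ}
    (hT : CH q T Y ≤ a) (hf : b ≤ CH q T L) (hX : CH q X (fun ω => (T ω, Y ω)) ≤ g) :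
    CH q X Y ≤ g + (a - b) := by
  have h1 := CH_bayes h0 X T Y
  have h2 : CH q T L ≤ CH q T (fun ω => (X ω, Y ω)) :=
    CH_mono_cond h0 fun ω ω' hω hω' e => hL ω ω' hω hω' e
  linarith

end Pool.NDC42
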