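import Pool.Agent.H42.NDC.Vla

/-!
# Moving the labels of a chain

`mov_jets`: the jets of a nested chain over labels of an earlier window, from those over labels of the
window. `mov_tgt`: the same for the target, to the later window.
-/

set_option autoImplicit false

namespace Pool.NDC42

open Finset Real MvPolynomial
open Pool.Agent.H49.Ent Pool.Agent.H32.Dense Pool.STK Pool.KA Pool.KSAT Pool.K2S Pool.PB Pool.GEN
open Pool.S6C Pool.RCD Pool.LA91 Pool.AVG96
open Pool.OWN68 (F1 F0 few0_room few0_iff few_iff F1.mono)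
open Pool.V0F

variable {m : ℕ} {S : PCl m} {c : ℕ → Fin m} {r : ℕ} {s rd : ℕ → ℝ} {w u₁ C₀ : ℝ}
  {α γ : ∀ J : ℕ, Fam m J → Type}
  {f : ∀ (J : ℕ) (F : Fam m J), F.Ω → α J F} {y : ∀ (J : ℕ) (F : Fam m J), F.Ω → γ J F}

/-- **The jets over labels of an earlier window**: digits `n` behind the natural ones at `w`. -/
theorem mov_jet (htm : TmC S C₀)
    (hpos : ∀ (τ : ℝ) (J : ℕ) (F : Fam m J) (A : F.Ω → Prop), S.St τ J F A → 0 < Pe F.p A)
    (hch : Chn S c 0 r w w u₁ s rd)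
    (hf : ∀ (J : ℕ) (F : Fam m J), ∃ χ : α J F → PtT F, ∀ ω, ptr F J ω = χ (f J F ω))
    (hy : Kn ((range 0).image c) 1 1 y) {v σ : ℝ} {p p' n n' : ℕ → ℝ} {Jm : ℕ} (hσ : 0 < σ)
    (hvw : v ≤ w) (hp : ∀ i < r, s i - σ ≤ p i) (hlo : ∀ i < r, s i + 2 * σ ≤ n i)
    (hhi : ∀ i < r, n i + 2 * σ ≤ s i + (1 - w))
    (hne : ∀ i < r, ∀ l < i, n i - s i + 3 * σ ≤ n l - s l)
    (hN : ∀ i < r, n' i + Jm * (w - v) ≤ n i)
    (h3 : ∀ i < r, n' i + Jm * (w - v) + σ ≤ min (p i) (p' i) + (1 - w))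
    (h3' : ∀ i < r, ∀ l < i, n' i + Jm * (w - v) + 2 * σ ≤ min (p i) (p' i) + (n l - s l)) :
    ∀ i < r, ∀ j ≤ Jm, Few S f (vg w) y
      (qJets m c 0 r Jm (fun _ _ => w) (fun l _ => p l) (fun l j => n l - (j : ℝ) * w))
      (qJet m ((range i).image c) (c i) j v (p' i) (n' i - (j : ℝ) * v)) := by
  have hw0 := hch.w0
  have hw1 := hch.u0
  have hmin : min (1 : ℝ) (1 - w) = 1 - w := min_eq_right (by linarith)
  intro i hi j hj
  obtain ⟨lv, hlv⟩ : ∃ lv : ℕ → ℝ, lv = fun l => n l - s l - σ := ⟨_, rfl⟩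
  have hjm : (j : ℝ) * (w - v) ≤ Jm * (w - v) :=
    mul_le_mul_of_nonneg_right (by exact_mod_cast hj) (by linarith)
  have hjw : (j : ℝ) * (w - v) = j * w - j * v := by ring
  have key := few_jetN (f := f) (y := y) htm (hch.take (Nat.zero_le i) hi.le) (k := c i)
    (j := j) (wv := fun _ _ => w) (pv := fun l _ => p l)
    (Nv := fun l j => n l - (j : ℝ) * w)
    (lv := lv) (w₁ := w) (w₂ := v) (p₁ := p i) (p₂ := p' i)
    (N₁ := n i - (j : ℝ) * w) (N₂ := n' i - (j : ℝ) * v) (p₀ := 1) (lam := 1) (σ₀ := σ)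
    (fun _ _ _ _ _ => le_rfl) le_rfl hvw hw1 le_rfl one_pos hσ (by
      intro l _ hl
      have k1 := hlo l (by omega)
      rw [hlv]
      show 0 < n l - s l - σ
      linarith) (by
      intro l _ hl j'' hj''
      rw [hlv]
      show s l + (n l - s l - σ) + σ ≤ n l - (j'' : ℝ) * w + j'' * w
      linarith) (by
      intro l _ hl j'' hj''
      have k1 := hhi l (by omega)
      have k2 := hp l (by omega)
      have k3 : s l - σ ≤ min (p l) (s l) := le_min k2 (by linarith)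
      rw [hlv, hmin]
      show s l + (n l - s l - σ) + σ ≤ min (p l) (s l) + (1 - w)
      linarith) (by
      intro l _ hl j'' hj'' l' _ hl'
      have k1 := hne l (by omega) l' hl'
      have k2 := hp l (by omega)
      have k3 : s l - σ ≤ min (p l) (s l) := le_min k2 (by linarith)
      rw [hlv]
      show s l + (n l - s l - σ) + σ ≤ min (p l) (s l) + (n l' - s l' - σ)
      linarith) (by
      have k1 := hN i hi
      linarith) (by
      rw [hmin]
      have k1 := h3 i hi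
      linarith) (by
      intro l _ hl
      have k1 := h3' i hi l hl
      rw [hlv]
      show n' i - (j : ℝ) * v + j * w + σ ≤ min (p i) (p' i) + (n l - s l - σ)
      linarith) hf hy
  refine Few.pre hpos (fun u : ℕ → ℕ → ℤ => ((fun l j'' => if 0 ≤ l ∧ l < i ∧ j'' ≤ j then
    u l j'' else 0), u i j)) ?_ key
  intro K e J F A u hu
  exact ⟨qJets_take hi.le hj hu, hu.1 i (Nat.zero_le _) hi j hj⟩

/-- The same, all jets together. -/
theorem mov_jets (htm : TmC S C₀)
    (hpos : ∀ (τ : ℝ) (J : ℕ) (F : Fam m J) (A : F.Ω → Prop), S.St τ J F A → 0 < Pe F.p A)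
    (hch : Chn S c 0 r w w u₁ s rd)
    (hf : ∀ (J : ℕ) (F : Fam m J), ∃ χ : α J F → PtT F, ∀ ω, ptr F J ω = χ (f J F ω))
    (hy : Kn ((range 0).image c) 1 1 y) {v σ : ℝ} {p p' n n' : ℕ → ℝ} {Jm : ℕ} (hσ : 0 < σ)
    (hvw : v ≤ w) (hp : ∀ i < r, s i - σ ≤ p i) (hlo : ∀ i < r, s i + 2 * σ ≤ n i)
    (hhi : ∀ i < r, n i + 2 * σ ≤ s i + (1 - w))
    (hne : ∀ i < r, ∀ l < i, n i - s i + 3 * σ ≤ n l - s l)
    (hN : ∀ i < r, n' i + Jm * (w - v) ≤ n i)
    (h3 : ∀ i < r, n' i + Jm * (w - v) + σ ≤ min (p i) (p' i) + (1 - w))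
    (h3' : ∀ i < r, ∀ l < i, n' i + Jm * (w - v) + 2 * σ ≤ min (p i) (p' i) + (n l - s l)) :
    Few S f (vg w) y (qJets m c 0 r Jm (fun _ _ => w) (fun l _ => p l) (fun l j => n l - (j : ℝ) * w))
      (qJets m c 0 r Jm (fun _ _ => v) (fun l _ => p' l) (fun l j => n' l - (j : ℝ) * v)) :=
  few_qjets hpos fun i _ hi j hj => mov_jet htm hpos hch hf hy hσ hvw hp hlo hhi hne hN h3 h3' i hi
    j hj

/-- **The jets of the target over labels of the window**, from those over labels of an earlier one. -/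
theorem mov_tgt (htm : TmC S C₀) (hch : Chn S c 0 r w w u₁ s rd)
    (hf : ∀ (J : ℕ) (F : Fam m J), ∃ χ : α J F → PtT F, ∀ ω, ptr F J ω = χ (f J F ω))
    (hy : Kn ((range 0).image c) 1 1 y) {v σ pv pw N N' : ℝ} {p n : ℕ → ℝ} {k : Fin m} {j : ℕ}
    (hσ : 0 < σ) (hvw : v ≤ w) (hp : ∀ i < r, s i - σ ≤ p i) (hlo : ∀ i < r, s i + 2 * σ ≤ n i)
    (hhi : ∀ i < r, n i + 2 * σ ≤ s i + (1 - w))
    (hne : ∀ i < r, ∀ l < i, n i - s i + 3 * σ ≤ n l - s l)
    (hN : N ≤ N' + j * (w - v)) (h3 : N + σ ≤ min pv pw + (1 - w))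
    (h3' : ∀ l < r, N + 2 * σ ≤ min pv pw + (n l - s l)) :
    Few S f (vg w) y ((qJets m c 0 r j (fun _ _ => w) (fun l _ => p l)
      (fun l j => n l - (j : ℝ) * w)).prod (qJet m ((range r).image c) k j v pv (N' - (j : ℝ) * v)))
      (qJet m ((range r).image c) k j w pw (N - (j : ℝ) * w)) := by
  have hw0 := hch.w0
  have hw1 := hch.u0
  have hmin : min (1 : ℝ) (1 - w) = 1 - w := min_eq_right (by linarith)
  obtain ⟨lv, hlv⟩ : ∃ lv : ℕ → ℝ, lv = fun l => n l - s l - σ := ⟨_, rfl⟩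
  have hjw : (j : ℝ) * (w - v) = j * w - j * v := by ring
  exact few_jetN (f := f) (y := y) htm hch (k := k)
    (j := j) (wv := fun _ _ => w) (pv := fun l _ => p l)
    (Nv := fun l j => n l - (j : ℝ) * w)
    (lv := lv) (w₁ := v) (w₂ := w) (p₁ := pv) (p₂ := pw)
    (N₁ := N' - (j : ℝ) * v) (N₂ := N - (j : ℝ) * w) (p₀ := 1) (lam := 1) (σ₀ := σ)
    (fun _ _ _ _ _ => le_rfl) hvw le_rfl hw1 le_rfl one_pos hσ (by
      intro l _ hl
      have k1 := hlo l (by omega)
      rw [hlv]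
      show 0 < n l - s l - σ
      linarith) (by
      intro l _ hl j'' hj''
      rw [hlv]
      show s l + (n l - s l - σ) + σ ≤ n l - (j'' : ℝ) * w + j'' * w
      linarith) (by
      intro l _ hl j'' hj''
      have k1 := hhi l (by omega)
      have k2 := hp l (by omega)
      have k3 : s l - σ ≤ min (p l) (s l) := le_min k2 (by linarith)
      rw [hlv, hmin]
      show s l + (n l - s l - σ) + σ ≤ min (p l) (s l) + (1 - w)
      linarith) (by
      intro l _ hl j'' hj'' l' _ hl'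
      have k1 := hne l (by omega) l' hl'
      have k2 := hp l (by omega)
      have k3 : s l - σ ≤ min (p l) (s l) := le_min k2 (by linarith)
      rw [hlv]
      show s l + (n l - s l - σ) + σ ≤ min (p l) (s l) + (n l' - s l' - σ)
      linarith) (by linarith) (by
      rw [hmin]
      linarith) (by
      intro l _ hl
      have k1 := h3' l hl
      rw [hlv]
      show N - (j : ℝ) * w + j * w + σ ≤ min pv pw + (n l - s l - σ)
      linarith) hf hy

end Pool.NDC42
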