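import Pool.Agent.H42.NDC.Ule
import Pool.Agent.H42.NDC.Mov
import Pool.Agent.H71.AJX.Pfx
import Pool.Agent.H71.V0F.Dj

/-!
# The near path of the target without its constant

`uw_few`, `uw_P`: the jets of a chain as a quantity, from the codes. `g_cls`: the codes of order `≥ 1`
of the own path of the target over labels of the window `w`, given the codes of the chain and the time:
the path theorem at an earlier window `v`.
-/

set_option autoImplicit false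

namespace Pool.NDC42

open Finset Real MvPolynomial
open Pool.Agent.H49.Ent Pool.Agent.H32.Dense Pool.STK Pool.KA Pool.KSAT Pool.K2S Pool.PB Pool.GEN
open Pool.S6C Pool.RCD Pool.LA91 Pool.OWN68 Pool.CHT Pool.AJW
open Pool.V0F (cR mx_cR qj_win kn_zero)
open Pool.GRD (LbP)
open Pool.AVG71 (cod)
open Pool.AJX (LbX FwX JetX ctxK_few)

variable {m : ℕ}

/-- The jets of order at most `Jm` of the places below `r`, from the codes. -/
theorem uw_few (D r Jm : ℕ) : ∃ C : ℝ, 0 ≤ C ∧ ∀ {m J : ℕ} {F : Fam m J} {c : ℕ → Fin m}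
    {w : ℝ} (_ : 0 ≤ w) (_ : w ≤ 1) {H : LnT F → ℕ → MvPolynomial (Option (Fin m)) ℝ}
    {n nf : ℕ → ℝ} (_ : ∀ l < r, nf l ≤ n l) (_ : ∀ l < r, ∀ x, (H x l).totalDegree ≤ D)
    {q : F.Ω → ℝ} (_ : IsLaw q) {Γ : Type} (Y : F.Ω → Γ)
    (_ : ∀ ω ω', 0 < q ω → 0 < q ω' → Y ω = Y ω' → F.T ω = F.T ω' ∧ ∀ l < r,
      pcC F c D w H l 0 (n l) ω = pcC F c D w H l 0 (n l) ω'),
    CH q (fun ω (i j : ℕ) => if i < r ∧ j ≤ Jm then jtC F c w H i j (nf i) ω else 0) Y ≤ C := by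
  refine ⟨∑ x : Fin r × Fin (Jm + 1), cJ D x.2, Finset.sum_nonneg fun x _ => cJ_nonneg D _, ?_⟩
  intro m J F c w hw0 hw1 H n nf hnf hdeg q hq Γ Y hY
  have h0 := hq.nonneg
  refine le_trans (CH_mono_left h0 (X' := fun ω (x : Fin r × Fin (Jm + 1)) =>
    jtC F c w H x.1 x.2 (nf x.1) ω) fun ω ω' _ _ e => funext fun i => funext fun j => ?_) ?_
  · by_cases h : i < r ∧ j ≤ Jm
    · have h1 := congrFun (Prod.ext_iff.mp e).1 (⟨i, h.1⟩, ⟨j, by omega⟩)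
      rw [if_pos h, if_pos h]
      exact h1
    · rw [if_neg h, if_neg h]
  refine (CH_pis h0 _ _).trans (Finset.sum_le_sum fun x _ => ?_)
  exact jt_of_pc hw0 hw1 (hnf x.1 x.1.2) (hdeg x.1 x.1.2) (Nat.zero_le _) hq Y
    fun ω ω' hω hω' e => ⟨(hY ω ω' hω hω' e).1, (hY ω ω' hω hω' e).2 x.1 x.1.2⟩

theorem uw_P (c : ℕ → Fin m) (r D Jm : ℕ) {w : ℝ} (hw0 : 0 ≤ w) (hw1 : w ≤ 1)
    (nf : ℕ → ℝ) : ∃ M J₁ : ℕ, ∀ K ≥ M, ∀ J ≥ J₁, ∀ (F : Fam m J) (A : F.Ω → Prop) (R : ℕ) (e : ℝ)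
      (p : ℕ → ℝ) (H : LnT F → ℕ → MvPolynomial (Option (Fin m)) ℝ), r ≤ R + 1 →
      LbV F A c R D w e p H → (qJets m c 0 r Jm (fun _ _ => w) (fun l _ => p l)
        (fun l j => nf l - (j : ℝ) * w)).P K e J F A
        (fun ω (i j : ℕ) => if i < r ∧ j ≤ Jm then jtC F c w H i j (nf i) ω else 0) := by
  choose M J₁ hM using fun x : ℕ × ℕ => lbv_P m D x.2 (N := nf x.1 - (x.2 : ℝ) * w) hw0 hw1
  refine ⟨∑ x ∈ range r ×ˢ range (Jm + 1), M x, ∑ x ∈ range r ×ˢ range (Jm + 1), J₁ x,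
    fun K hK J hJ F A R e p H hR hH => ⟨fun i _ hi j hj => ?_, fun ω _ i j h => ?_⟩⟩
  · have hx : (i, j) ∈ range r ×ˢ range (Jm + 1) :=
      Finset.mem_product.2 ⟨mem_range.2 hi, mem_range.2 (by omega)⟩
    have h1 : M (i, j) ≤ ∑ x ∈ range r ×ˢ range (Jm + 1), M x :=
      Finset.single_le_sum (f := M) (fun _ _ => Nat.zero_le _) hx
    have h2 : J₁ (i, j) ≤ ∑ x ∈ range r ×ˢ range (Jm + 1), J₁ x :=
      Finset.single_le_sum (f := J₁) (fun _ _ => Nat.zero_le _) hx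
    have h3 := hM (i, j) K (h1.trans hK) J (h2.trans hJ) F A c R e p H hH i (by omega)
    have e1 : (fun ω => (fun ω (i j : ℕ) => if i < r ∧ j ≤ Jm then jtC F c w H i j (nf i) ω else 0) ω
        i j) = fun ω => ⌊(2 : ℝ) ^ ((nf i - (j : ℝ) * w) * J) *
          ojet F (c i) j (H (slam F ⌊w * J⌋₊ ω) i) ω⌋ := by
      funext ω
      exact if_pos ⟨hi, hj⟩
    rw [e1]
    exact h3
  · exact if_neg fun h' => h ⟨Nat.zero_le _, h'.1, h'.2⟩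

/-- The minimum of finitely many positive numbers. -/
theorem fin_min (R M : ℕ) {V : ℕ → ℕ → ℝ} (hV : ∀ l < R, ∀ j < M, 0 < V l j) :
    ∃ e₁ : ℝ, 0 < e₁ ∧ ∀ l < R, ∀ j < M, e₁ ≤ V l j := by
  have h0 : ∀ x ∈ range R ×ˢ range M, 0 ≤ (V x.1 x.2)⁻¹ := fun x hx => by
    have h1 := Finset.mem_product.1 hx
    exact (inv_pos.2 (hV _ (mem_range.1 h1.1) _ (mem_range.1 h1.2))).le
  have h2 := Finset.sum_nonneg h0
  refine ⟨(1 + ∑ x ∈ range R ×ˢ range M, (V x.1 x.2)⁻¹)⁻¹, by positivity, fun l hl j hj => ?_⟩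
  have h1 := Finset.single_le_sum h0 (Finset.mem_product.2 ⟨mem_range.2 hl, mem_range.2 hj⟩ :
    (l, j) ∈ range R ×ˢ range M)
  dsimp only at h1
  exact inv_le_of_inv_le₀ (hV l hl j hj) (by linarith)

/-- **The codes of order at least one of the target**, level-free. -/
theorem g_cls (K r : ℕ) {h : ℝ} (hh : 0 < h) (hh1 : h ≤ 1) {ε : ℝ} (hε : 0 < ε) :
    ∃ δ : ℝ, 0 < δ ∧ ∀ {m : ℕ} {S : PCl m} {C₀ : ℝ} (_ : TmC S C₀)
    (_ : ∀ (τ : ℝ) (J : ℕ) (F : Fam m J) (A : F.Ω → Prop), S.St τ J F A → 0 < Pe F.p A)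
    {c : ℕ → Fin m} {v w lam q ρ g₀ : ℝ} {E p s nv lv rd : ℕ → ℝ}
    (_ : JetX S c 0 r v w lam q ρ g₀ E p s nv lv rd K) (_ : (r + 1) * ρ ≤ δ * q) (_ : 0 ≤ lam)
    {σ : ℝ} {pw n : ℕ → ℝ} (_ : 0 < σ) (_ : ∀ i < r, s i - σ ≤ pw i) (_ : p r ≤ pw r)
    (_ : ∀ i < r, s i + 2 * σ ≤ n i) (_ : ∀ i < r, n i + 2 * σ ≤ s i + (1 - w))
    (_ : ∀ i < r, ∀ l < i, n i - s i + 3 * σ ≤ n l - s l)
    (_ : ∀ i < r, nv i + ((K + 2 : ℕ) : ℝ) * (w - v) ≤ n i)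
    (_ : ∀ i < r, nv i + ((K + 2 : ℕ) : ℝ) * (w - v) + σ ≤ min (pw i) (p i) + (1 - w))
    (_ : ∀ i < r, ∀ l < i, nv i + ((K + 2 : ℕ) : ℝ) * (w - v) + 2 * σ ≤
      min (pw i) (p i) + (n l - s l))
    (_ : ∀ q' : ℝ, 0 ≤ q' → q' ≤ q → RawN S ((range r).image c) (c r) (p r) q' h (δ * q))
    (_ : ∀ e : ℝ, 0 < e → Bas S (fun J F A => ∃ (V : Type) (z : PtT F → V) (z' : LnT F → V)
      (g : V → ℕ → MvPolynomial (Option (Fin m)) ℝ), LbX F c 0 (r + 1) K e E v rd p A z z' g))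
    {N : ℝ} (_ : N ≤ p r + q + (w - v)),
    ∃ e₀ : ℝ, 0 < e₀ ∧ ∀ e : ℝ, 0 < e → e ≤ e₀ → ∀ D ≤ K,
      Bas S (fun J F A => ∀ H : LnT F → ℕ → MvPolynomial (Option (Fin m)) ℝ,
        LbV F A c r D w e pw H →
        CH (Pool.Agent.H49.Ent.cond F.p A True) (pcC F c D w H r 1 N)
          (fun ω => (F.T ω, (cR F A w ω, fun l : Fin r => pcC F c D w H l 0 (n l) ω))) ≤
            ε * q * J) := by
  obtain ⟨δ, hδ, Hd⟩ := Pool.AJX.d_cls_p K hh hh1 (half_pos hε)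
  refine ⟨δ, hδ, ?_⟩
  intro m S C₀ htm hpos c v w lam q ρ g₀ E p s nv lv rd HJ hρ hlam σ pw n hσ hpw hpr hlo hhi hne hN
    h3 h3' hraw hlab N hNN
  have hw0 := HJ.w0
  have hw1 := HJ.w1
  have hvw := HJ.vw
  have hq := HJ.q0
  obtain ⟨u₁, rw', hch⟩ := HJ.chn
  have hyT : ∀ (J : ℕ) (F : Fam m J), ∃ φ : ℕ → ℕ, ∀ ω, F.T ω = φ (F.T ω) :=
    fun J F => ⟨fun x => x, fun _ => rfl⟩
  have hf : ∀ (J : ℕ) (F : Fam m J), ∃ χ : PtT F → PtT F, ∀ ω, ptr F J ω = χ (ptr F J ω) :=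
    fun J F => ⟨fun x => x, fun _ => rfl⟩
  have hy : Kn ((range 0).image c) 1 1 (fun (J : ℕ) (F : Fam m J) => F.T) := by
    intro J F
    refine ⟨fun t => (t, (fun _ => 0), (fun _ => 0)), fun ω => ?_⟩
    have h1 : ∀ i : Fin m, i ∉ (range 0).image c := fun i => by simp
    simp only [if_neg (h1 _)]
  have hmov := mov_jet (f := fun (J : ℕ) (F : Fam m J) => ptr F J)
    (y := fun (J : ℕ) (F : Fam m J) => F.T) htm hpos hch hf hy (Jm := K + 2) (p' := p) hσ hvw hpw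
    hlo hhi hne hN h3 h3'
  choose! V hV0 hV using fun (l : ℕ) (hl : l < r) (j : ℕ) (hj : j ≤ K + 2) =>
    few_iff.1 (hmov l hl j hj) (δ * q / 2 / ((r + 1) * (K + 3))) (by positivity)
  obtain ⟨e₁, he₁, hle⟩ := fin_min r (K + 3) (V := V) fun l hl j hj => hV0 l hl j (by omega)
  have hyl : Kn ((range 0).image c) (v + lam) lam (fun (J : ℕ) (F : Fam m J) => F.T) := kn_zero hy
  have hctx : ∀ e : ℝ, 0 < e → e ≤ e₁ → FwX S (fun (J : ℕ) (F : Fam m J) => ptr F J) (vg w)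
      (fun (J : ℕ) (F : Fam m J) => F.T) (qJets m c 0 r (K + 2) (fun _ _ => w) (fun l _ => pw l)
        (fun l j => n l - (j : ℝ) * w)) c 0 (r + 1) K E v rd p (ctx c 0 r K v lam nv) e
        (δ * q) := by
    intro e he he1 K₀
    refine Bas.mono 0 (ctxK_few (E := E) (p := p) (f := fun (J : ℕ) (F : Fam m J) => ptr F J) htm (fun i h0 hi => (HJ.E0 i h0 hi.le).2) HJ.v0 hvw hw1.le hlam he
      (fun i h0 hi => (HJ.rd0 i h0 hi.le).1)
      (Q := qJets m c 0 r (K + 2) (fun _ _ => w) (fun l _ => pw l) (fun l j => n l - (j : ℝ) * w))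
      hyl K (η := fun _ _ => δ * q / 2 / ((r + 1) * (K + 3))) (δ₁ := δ * q / 2) (δ₂ := δ * q) (n := nv)
      ?_ (fun l _ hl j hj => ?_) (by linarith [mul_pos hδ hq]) K₀ (r + 1) (Nat.le_succ r)) ?_
    · rw [Finset.sum_const, Finset.sum_const, Nat.card_Ico, card_range, smul_smul, nsmul_eq_mul]
      push_cast
      rw [Nat.sub_zero, mul_div_assoc', div_le_iff₀ (by positivity)]
      have h1 : (0 : ℝ) ≤ r := Nat.cast_nonneg r
      have h2 : (0 : ℝ) ≤ K := Nat.cast_nonneg K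
      have h4 : (r : ℝ) * (K + 3) ≤ (r + 1) * (K + 3) := by nlinarith
      have h5 := mul_le_mul_of_nonneg_right h4 (half_pos (mul_pos hδ hq)).le
      linarith
    · exact (hV l hl j (by omega)).mono (he1.trans (hle l hl j hj)) le_rfl
    · intro J _ F A h V z z' gg hl u₀ hu₀
      exact h V z z' gg hl u₀ hu₀
  obtain ⟨e₀, he₀, he01, HP⟩ := Hd htm HJ hρ (f := fun (J : ℕ) (F : Fam m J) => ptr F J)
    (y := fun (J : ℕ) (F : Fam m J) => F.T) hf hyl (a := w) le_rfl hw1.le he₁ hctx hraw hlab hNN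
  refine ⟨e₀, he₀, fun e he hle0 D hD => ?_⟩
  obtain ⟨M, J₁, hP⟩ := uw_P c r D (K + 2) hw0 hw1.le n
  obtain ⟨C, hC, hfew⟩ := uw_few D r (K + 2)
  obtain ⟨J₂, hJ₂⟩ := exists_nat_ge (C / (ε / 2 * q))
  refine Bas.mono (max J₁ J₂) ((HP e he hle0 M D (pw r) 1 hD hpr).and
    (Pool.GRW.tmc_bas htm one_pos)) ?_
  rintro J hJ F A ⟨h1, hA, -⟩ H hH
  have hJ1 : J₁ ≤ J := (le_max_left _ _).trans hJ
  have hJ2 : (J₂ : ℝ) ≤ J := by exact_mod_cast (le_max_right _ _).trans hJ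
  have hJ0 : (0 : ℝ) ≤ J := Nat.cast_nonneg J
  have f1 : C ≤ ε / 2 * q * J := by
    have := hJ₂.trans hJ2
    rw [div_le_iff₀ (by positivity)] at this
    linarith
  obtain ⟨Q, hQ⟩ : ∃ Q : F.Ω → ℝ, Q = Pool.Agent.H49.Ent.cond F.p A True := ⟨_, rfl⟩
  have hQl : IsLaw Q := by
    rw [hQ]
    exact isLaw_cond F.isLaw hA
  have h0 := hQl.nonneg
  obtain ⟨⟨V, z, z', G, hl, hG⟩, hcf⟩ := hH r le_rfl
  obtain ⟨V₁, z₁, hz₁, h2⟩ := h1 _ (hP M le_rfl J hJ1 F A r e pw H (Nat.le_succ r) hH) V z z' G hl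
    (fun ω hω a => by
      have := hcf ω hω a
      simpa only [hG] using this)
  have h4 := h2 (2 ^ (N * J)) (Real.rpow_pos_of_pos (by norm_num) _) le_rfl
  have e1 : pcC F c D w H r 1 N = cod F ⌊w * J⌋₊ 1 (D + 1) (2 ^ (N * J)) (c r) z' G := by
    funext ω a
    simp only [pcC, cod, hG]
  rw [← e1] at h4
  rw [← hQ] at h4 ⊢
  have h5 := hfew (n := n) (nf := n) hw0 hw1.le (fun _ _ => le_rfl) (H := H) (c := c)
    (fun l hl x => hH.deg hl.le x) hQl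
    (fun ω => (F.T ω, (cR F A w ω, fun l : Fin r => pcC F c D w H l 0 (n l) ω)))
    (fun ω ω' _ _ e => by
      simp only [Prod.mk.injEq] at e
      exact ⟨e.1, fun l hl => congrFun e.2.2 ⟨l, hl⟩⟩)
  obtain ⟨U, hU⟩ : ∃ U : F.Ω → ℕ → ℕ → ℤ, U = fun ω i j =>
    if i < r ∧ j ≤ K + 2 then jtC F c w H i j (n i) ω else 0 := ⟨_, rfl⟩
  have e2 : ∀ ω, U ω = fun i j => if i < r ∧ j ≤ K + 2 then jtC F c w H i j (n i) ω else 0 :=
    fun ω => by rw [hU]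
  simp only [← e2] at h4
  rw [← hU] at h5
  have h6 := CH_le_add h0 (pcC F c D w H r 1 N) U
    (fun ω => (F.T ω, (cR F A w ω, fun l : Fin r => pcC F c D w H l 0 (n l) ω)))
  have h7 : CH Q (pcC F c D w H r 1 N) (fun ω => (U ω, (F.T ω, (cR F A w ω,
      fun l : Fin r => pcC F c D w H l 0 (n l) ω)))) ≤
      CH Q (pcC F c D w H r 1 N) (fun ω => (U ω, (z₁ ω, F.T ω))) := by
    refine CH_mono_cond h0 fun ω ω' _ _ e => ?_
    simp only [Prod.mk.injEq] at e ⊢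
    exact ⟨e.1, rec_det hz₁ e.2.2.1, e.2.1⟩
  linarith

end Pool.NDC42
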