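import Pool.Agent.H42.NDC.Ful
import Pool.Agent.H42.NDC.Gle
import Pool.Agent.H36.NA.Ded

/-!
# The letters of the near-dead step, assembled

`nde_of`: all letters `NdE` on an event, from the free velocities, the near path, the orders `≥ 1` of
`c 2`, the orders `≥ 1` of the target given the time, the far digits and the time.
-/

set_option autoImplicit false

namespace Pool.NDC42

open Finset Real MvPolynomial
open Pool.Agent.H49.Ent Pool.Agent.H32.Dense Pool.STK Pool.KA Pool.KSAT Pool.K2S Pool.PB Pool.GEN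
open Pool.S6C Pool.RCD Pool.LA91 Pool.OWN68 Pool.CHT
open Pool.V0F (cR mx_cR)
open Pool.AVG71 (cod)
open Pool.NA36 (vpC f1C dcR cl2_Z na_hv na_hn na_pu na_xu na_xx)

variable {m J : ℕ}

/-- **The time given the record** of the window. -/
theorem tm_cnt {F : Fam m J} {A : F.Ω → Prop} {w : ℝ} (hw : w ≤ 1) (hA : 0 < Pe F.p A) :
    CH (Pool.Agent.H49.Ent.cond F.p A True) F.T (cR F A w) ≤
      ((1 - w) * J + 1) * Real.log 2 + Real.log 3 := by
  have hcl := isLaw_cond F.isLaw hA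
  have hJ0 : (0 : ℝ) ≤ J := Nat.cast_nonneg J
  have hl2 : 0 < Real.log 2 := Real.log_pos one_lt_two
  have hWJ : ⌊w * J⌋₊ ≤ J := floor_le hw J
  obtain ⟨X, hX⟩ : ∃ X : F.Ω → ℤ, X = fun ω => (F.T ω : ℤ) := ⟨_, rfl⟩
  have h1 := CH_pair (D := 2 ^ (J - ⌊w * J⌋₊)) hcl X (cR F A w) fun ω ω' hω hω' e => by
    have hc : Cl2 (ptr F J) (vg w J F) A (F.T1 ⌊w * J⌋₊) := by
      refine ⟨⟨fun x => x.2.1 / 2 ^ (J - ⌊w * J⌋₊), fun ω _ => rfl⟩, ⟨fun x => x.2.2, fun ω _ => rfl⟩⟩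
    have h2 : F.T1 ⌊w * J⌋₊ ω = F.T1 ⌊w * J⌋₊ ω' := dcR hc _ ω ω' hω hω' e
    have h3 : F.T ω / 2 ^ (J - ⌊w * J⌋₊) = F.T ω' / 2 ^ (J - ⌊w * J⌋₊) := h2
    obtain ⟨E, hE⟩ : ∃ E, E = 2 ^ (J - ⌊w * J⌋₊) := ⟨_, rfl⟩
    rw [← hE] at h3 ⊢
    have hE0 : 0 < E := by rw [hE]; positivity
    have a1 := Nat.div_add_mod (F.T ω) E
    have a2 := Nat.div_add_mod (F.T ω') E
    have a3 := Nat.mod_lt (F.T ω) hE0
    have a4 := Nat.mod_lt (F.T ω') hE0
    rw [h3] at a1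
    have a5 : (F.T ω : ℤ) - F.T ω' = (F.T ω % E : ℕ) - (F.T ω' % E : ℕ) := by
      have b1 : (F.T ω : ℤ) = (E * (F.T ω' / E) : ℕ) + (F.T ω % E : ℕ) := by exact_mod_cast a1.symm
      have b2 : (F.T ω' : ℤ) = (E * (F.T ω' / E) : ℕ) + (F.T ω' % E : ℕ) := by exact_mod_cast a2.symm
      linarith
    have b3 : ((F.T ω % E : ℕ) : ℤ) < E := by exact_mod_cast a3
    have b4 : ((F.T ω' % E : ℕ) : ℤ) < E := by exact_mod_cast a4
    have b5 : (0 : ℤ) ≤ ((F.T ω % E : ℕ) : ℤ) := Int.natCast_nonneg _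
    have b6 : (0 : ℤ) ≤ ((F.T ω' % E : ℕ) : ℤ) := Int.natCast_nonneg _
    rw [hX]
    show |(F.T ω : ℤ) - F.T ω'| ≤ (E : ℤ)
    rw [a5, abs_le]
    constructor <;> linarith
  have h2 : CH (Pool.Agent.H49.Ent.cond F.p A True) F.T (cR F A w) ≤
      CH (Pool.Agent.H49.Ent.cond F.p A True) X (cR F A w) := by
    refine CH_mono_left hcl.nonneg fun ω ω' _ _ e => ?_
    have h3 := (Prod.ext_iff.mp e).1
    rw [hX] at h3
    exact Int.ofNat.inj h3
  refine h2.trans (h1.trans ?_)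
  have h4 : (2 : ℝ) * ((2 ^ (J - ⌊w * J⌋₊) : ℕ) : ℝ) + 1 ≤ 2 ^ (J - ⌊w * J⌋₊) * 3 := by
    push_cast
    have : (1 : ℝ) ≤ 2 ^ (J - ⌊w * J⌋₊) := one_le_pow₀ one_le_two
    linarith
  refine (Real.log_le_log (by positivity) h4).trans ?_
  rw [Real.log_mul (by positivity) (by norm_num), Real.log_pow]
  have h5 : ((J - ⌊w * J⌋₊ : ℕ) : ℝ) ≤ (1 - w) * J + 1 := by
    rw [Nat.cast_sub hWJ]
    have := Nat.lt_floor_add_one (w * J)
    linarith
  have h6 := mul_le_mul_of_nonneg_right h5 hl2.le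
  linarith

/-- The bounded losses. -/
noncomputable def cA (D : ℕ) : ℝ := 2 * ((∑ j ∈ range (D + 2), cJ D j) + cD D) + 4 * cJ D 0 +
  (Real.log 2 + Real.log 3 + Real.log 5 + Real.log 7)

theorem cA_le (D : ℕ) : 0 ≤ (∑ j ∈ range (D + 2), cJ D j) + cD D ∧ 0 ≤ cJ D 0 ∧
    0 ≤ Real.log 2 ∧ 0 ≤ Real.log 3 ∧ 0 ≤ Real.log 5 ∧ 0 ≤ Real.log 7 :=
  ⟨add_nonneg (Finset.sum_nonneg fun j _ => cJ_nonneg D j) (cD_nonneg D), cJ_nonneg D 0,
    Real.log_nonneg (by norm_num), Real.log_nonneg (by norm_num), Real.log_nonneg (by norm_num),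
    Real.log_nonneg (by norm_num)⟩

/-- **The letters of the near-dead step.** -/
theorem nde_of {F : Fam m J} {A : F.Ω → Prop} {c : ℕ → Fin m} {D : ℕ} {w t x' nt e : ℝ}
    {n : ℕ → ℝ} {H : LnT F → ℕ → MvPolynomial (Option (Fin m)) ℝ} (hA : 0 < Pe F.p A) (hw0 : 0 ≤ w)
    (hwt : w ≤ t) (htx : t ≤ x') (hx1 : x' ≤ 1) (hnt : nt ≤ n 2)
    (hdeg : ∀ l ≤ 3, ∀ x, (H x l).totalDegree ≤ D)
    (hfr : ∃ (Y : Type) (ud : F.Ω → Y),
      CH (Pool.Agent.H49.Ent.cond F.p A True) ud (fun ω => (cR F A w ω, F.W ω)) ≤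
        CH (Pool.Agent.H49.Ent.cond F.p A True) ud (rP F A c w x' n H) + e * J ∧
      CH (Pool.Agent.H49.Ent.cond F.p A True) (fun ω (l : Fin 2) => pcC F c D w H l 0 (n l) ω)
        (fun ω => ((cR F A w ω, F.W ω), ((fun l : Fin 2 => hgC F c w H l (n l) ω), ud ω))) ≤ e * J)
    (hx : CH (Pool.Agent.H49.Ent.cond F.p A True)
      (fun ω => ((fun l : Fin 2 => hgC F c w H l (n l) ω), hgC F c w H 2 (n 2) ω))
      (fun ω => (cR F A x' ω, F.W ω)) ≤ e * J)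
    (hu : CH (Pool.Agent.H49.Ent.cond F.p A True) (pcC F c D w H 2 1 (n 2))
      (fun ω => ((cR F A w ω, F.W ω), fun l : Fin 2 => pcC F c D w H l 0 (n l) ω)) ≤ e * J)
    (hg : CH (Pool.Agent.H49.Ent.cond F.p A True) (pcC F c D w H 3 1 (n 3))
      (fun ω => (F.T ω, (cR F A w ω, fun l : Fin 3 => pcC F c D w H l 0 (n l) ω))) ≤ e * J)
    (hfu : ((n 2 - nt) * Real.log 2 - e) * J ≤
      CH (Pool.Agent.H49.Ent.cond F.p A True) (hgC F c w H 2 (n 2))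
        (fun ω => ((cR F A t ω, F.W ω), ((fun l : Fin 2 => hgC F c w H l (n l) ω),
          hgC F c w H 2 nt ω))))
    (htm : ((1 - w) * Real.log 2 - e) * J ≤
      CH (Pool.Agent.H49.Ent.cond F.p A True) F.T (slam F ⌊w * J⌋₊))
    (he : 0 ≤ e) (hJ : cA D ≤ e * J) : NdE F A c D w t x' n nt (12 * e) H := by
  have hw1 : w ≤ 1 := hwt.trans (htx.trans hx1)
  obtain ⟨g1, g2, g3, g4, g5, g6⟩ := cA_le D
  unfold cA at hJ
  have hJ0 : (0 : ℝ) ≤ J := Nat.cast_nonneg J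
  have heJ : 0 ≤ e * J := mul_nonneg he hJ0
  obtain ⟨q, hq⟩ : ∃ q : F.Ω → ℝ, q = Pool.Agent.H49.Ent.cond F.p A True := ⟨_, rfl⟩
  have hql : IsLaw q := by
    rw [hq]
    exact isLaw_cond F.isLaw hA
  have h0 := hql.nonneg
  obtain ⟨Y, ud, hf1, hf2⟩ := hfr
  -- (ht), (hn)
  have ht : CH q (fun ω => ((fun l : Fin 2 => hgC F c w H l (n l) ω), hgC F c w H 2 nt ω))
      (fun ω => (F.T ω, x0 F A c D w n nt H ω)) ≤ e * J := by
    have k1 := na_hv hw0 hw1 hdeg hA (n := n) (fun ω => (F.T ω, x0 F A c D w n nt H ω))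
      fun ω ω' _ _ e => by
        unfold x0 at e
        simp only [Prod.mk.injEq] at e
        exact ⟨e.1, e.2.2.1⟩
    have k2 := na_hn hw0 hw1 hdeg hA (s := nt) (s' := nt) le_rfl
      (fun ω => (F.T ω, x0 F A c D w n nt H ω)) fun ω ω' _ _ e => by
        unfold x0 at e
        simp only [Prod.mk.injEq] at e
        exact ⟨e.1, e.2.2.2.2⟩
    rw [← hq] at k1 k2
    have k3 := CH_subadd h0 (fun ω => fun l : Fin 2 => hgC F c w H l (n l) ω) (hgC F c w H 2 nt)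
      (fun ω => (F.T ω, x0 F A c D w n nt H ω))
    linarith
  have hn : CH q (hgC F c w H 2 (n 2)) (fun ω => (F.T ω, xn F A c D w n nt H ω)) ≤ e * J := by
    have k2 := na_hn hw0 hw1 hdeg hA (s := n 2) (s' := n 2) le_rfl
      (fun ω => (F.T ω, xn F A c D w n nt H ω)) fun ω ω' _ _ e => by
        unfold xn at e
        simp only [Prod.mk.injEq] at e
        exact ⟨e.1, e.2.2⟩
    rw [← hq] at k2
    linarith
  -- (gg)
  have hgg1 : CH q (pcC F c D w H 3 1 (n 3)) (xn F A c D w n nt H) ≤ 3 * (e * J) := by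
    have hdet : Det q (slam F ⌊w * J⌋₊) (fun ω => (pcC F c D w H 3 1 (n 3) ω,
        xn F A c D w n nt H ω)) := by
      intro ω ω' hω hω' e
      obtain ⟨⟨φ', hφ'⟩, ψ, hψ⟩ := (mx_cR (F := F) (A := A) hA w (le_refl (0 : ℝ))).1
      rw [hq] at hω hω'
      have e1 : cR F A w ω = cR F A w ω' := by
        rw [hψ ω (of_cond_pos hω), hψ ω' (of_cond_pos hω')]
        exact congrArg ψ e
      have e2 : F.Z ω = F.Z ω' := congrArg (fun x => x.2.1) e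
      have e3 : ∀ l j s, pcC F c D w H l j s ω = pcC F c D w H l j s ω' := by
        intro l j s
        unfold pcC cod
        rw [e]
      show (pcC F c D w H 3 1 (n 3) ω, xn F A c D w n nt H ω) =
        (pcC F c D w H 3 1 (n 3) ω', xn F A c D w n nt H ω')
      unfold xn x0
      simp only [e3, e1, e2]
    have hT1 := tm_cnt (F := F) (A := A) hw1 hA
    rw [← hq] at hT1
    have hT2 : CH q F.T (xn F A c D w n nt H) ≤ CH q F.T (cR F A w) :=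
      CH_mono_cond h0 fun ω ω' _ _ e => by
        unfold xn x0 at e
        simp only [Prod.mk.injEq] at e
        exact e.1.1.1
    have hX : CH q (pcC F c D w H 3 1 (n 3)) (fun ω => (F.T ω, xn F A c D w n nt H ω)) ≤ e * J := by
      rw [← hq] at hg
      refine (CH_mono_cond h0 fun ω ω' _ _ e => ?_).trans hg
      unfold xn x0 at e
      simp only [Prod.mk.injEq] at e ⊢
      refine ⟨e.1, e.2.1.1.1, funext fun l => ?_⟩
      fin_cases l
      · exact congrFun e.2.1.2.1 0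
      · exact congrFun e.2.1.2.1 1
      · exact e.2.2
    rw [← hq] at htm
    have := ti_le h0 hdet (hT2.trans hT1) htm hX
    have e5 : ((1 - w) * (J : ℝ) + 1) * Real.log 2 = (1 - w) * Real.log 2 * J + Real.log 2 := by ring
    have e6 : ((1 - w) * Real.log 2 - e) * (J : ℝ) = (1 - w) * Real.log 2 * J - e * J := by ring
    linarith
  have hgg : CH q (xg F A c D w n nt H) (xn F A c D w n nt H) ≤ 3 * (e * J) := by
    refine le_trans (CH_mono_left h0 fun ω ω' _ _ e => ?_) hgg1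
    obtain ⟨e1, e2⟩ := Prod.ext_iff.mp e
    exact Prod.ext e2 e1
  -- (xx)
  have hxx := na_xx (F := F) (A := A) (c := c) (D := D) (w := w) (n := n) (H := H) hA (s := nt)
    (e := 3 * (e * J)) hnt (by rw [← hq]; exact hgg)
  rw [← hq] at hxx
  -- (fr)
  have hfr2 : CH q (x0 F A c D w n nt H) (fun ω => ((cR F A w ω, F.W ω),
      ((fun l : Fin 2 => hgC F c w H l (n l) ω), (hgC F c w H 2 nt ω, ud ω)))) ≤ 3 * (e * J) := by
    obtain ⟨Y2, hY2⟩ : ∃ Y2 : F.Ω → (_ × (ℕ × F.ζ)) × ((Fin 2 → ℤ) × (ℤ × Y)), Y2 = fun ω =>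
      ((cR F A w ω, F.W ω), ((fun l : Fin 2 => hgC F c w H l (n l) ω), (hgC F c w H 2 nt ω, ud ω))) :=
      ⟨_, rfl⟩
    rw [← hY2]
    have k1 : CH q (vpC F c D w n H) Y2 ≤ e * J := by
      rw [← hq] at hf2
      refine (CH_mono_cond h0 fun ω ω' _ _ e => ?_).trans hf2
      rw [hY2] at e
      simp only [Prod.mk.injEq] at e ⊢
      exact ⟨e.1, e.2.1, e.2.2.2⟩
    have k2 : CH q (f1C F c D w n H) (fun ω => (vpC F c D w n H ω, Y2 ω)) ≤ e * J := by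
      rw [← hq] at hu
      refine (CH_mono_cond h0 fun ω ω' _ _ e => ?_).trans hu
      rw [hY2] at e
      simp only [Prod.mk.injEq] at e ⊢
      exact ⟨e.2.1, e.1⟩
    have k3 := na_xu hw0 hw1 hdeg hA (n := n) (c := c) (s := nt) hnt
    rw [← hq] at k3
    have k4 : CH q (x0 F A c D w n nt H) (fun ω => (f1C F c D w n H ω, (vpC F c D w n H ω, Y2 ω))) ≤
        (∑ j ∈ range (D + 2), cJ D j) + cD D := by
      refine (CH_mono_cond h0 fun ω ω' _ _ e => ?_).trans k3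
      rw [hY2] at e
      simp only [Prod.mk.injEq] at e ⊢
      exact ⟨e.2.2.2.2.1, e.1, congrArg Prod.fst e.2.2.1.2, e.2.2.1.1, e.2.1⟩
    have k5 := CH_le_add h0 (x0 F A c D w n nt H) (vpC F c D w n H) Y2
    have k6 := CH_le_add h0 (x0 F A c D w n nt H) (f1C F c D w n H)
      (fun ω => (vpC F c D w n H ω, Y2 ω))
    linarith
  have hfr3 : CH q (xg F A c D w n nt H) (fun ω => ((cR F A w ω, F.W ω),
      ((fun l : Fin 2 => hgC F c w H l (n l) ω), (hgC F c w H 2 (n 2) ω, ud ω)))) ≤ 5 * (e * J) := by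
    obtain ⟨Y3, hY3⟩ : ∃ Y3 : F.Ω → (_ × (ℕ × F.ζ)) × ((Fin 2 → ℤ) × (ℤ × Y)), Y3 = fun ω =>
      ((cR F A w ω, F.W ω), ((fun l : Fin 2 => hgC F c w H l (n l) ω),
        (hgC F c w H 2 (n 2) ω, ud ω))) := ⟨_, rfl⟩
    rw [← hY3]
    have k1 : CH q (vpC F c D w n H) Y3 ≤ e * J := by
      rw [← hq] at hf2
      refine (CH_mono_cond h0 fun ω ω' _ _ e => ?_).trans hf2
      rw [hY3] at e
      simp only [Prod.mk.injEq] at e ⊢
      exact ⟨e.1, e.2.1, e.2.2.2⟩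
    obtain ⟨Y4, hY4⟩ : ∃ Y4 : F.Ω → _, Y4 = fun ω => (vpC F c D w n H ω, Y3 ω) := ⟨_, rfl⟩
    have k2 : CH q (f1C F c D w n H) Y4 ≤ e * J := by
      rw [← hq] at hu
      refine (CH_mono_cond h0 fun ω ω' _ _ e => ?_).trans hu
      rw [hY4, hY3] at e
      simp only [Prod.mk.injEq] at e ⊢
      exact ⟨e.2.1, e.1⟩
    obtain ⟨Y5, hY5⟩ : ∃ Y5 : F.Ω → _, Y5 = fun ω => (f1C F c D w n H ω, Y4 ω) := ⟨_, rfl⟩
    have hY5e : ∀ ω ω', Y5 ω = Y5 ω' → f1C F c D w n H ω = f1C F c D w n H ω' ∧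
        vpC F c D w n H ω = vpC F c D w n H ω' ∧ cR F A w ω = cR F A w ω' ∧ F.W ω = F.W ω' ∧
        hgC F c w H 2 (n 2) ω = hgC F c w H 2 (n 2) ω' := by
      intro ω ω' e
      rw [hY5, hY4, hY3] at e
      simp only [Prod.mk.injEq] at e
      exact ⟨e.1, e.2.1, e.2.2.1.1, e.2.2.1.2, e.2.2.2.2.1⟩
    have k3 : CH q (hgC F c w H 2 nt) Y5 ≤ Real.log 5 :=
      hg_coarse hql hnt _ fun ω ω' _ _ e => (hY5e ω ω' e).2.2.2.2
    obtain ⟨Y6, hY6⟩ : ∃ Y6 : F.Ω → _, Y6 = fun ω => (hgC F c w H 2 nt ω, Y5 ω) := ⟨_, rfl⟩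
    have k4 : CH q (x0 F A c D w n nt H) Y6 ≤ (∑ j ∈ range (D + 2), cJ D j) + cD D := by
      have k3 := na_xu hw0 hw1 hdeg hA (n := n) (c := c) (s := nt) hnt
      rw [← hq] at k3
      refine (CH_mono_cond h0 fun ω ω' _ _ e => ?_).trans k3
      rw [hY6] at e
      obtain ⟨e0, e'⟩ := Prod.ext_iff.mp e
      obtain ⟨e1, e2, e3, e4, e5⟩ := hY5e ω ω' e'
      have e6 : F.T ω = F.T ω' := congrArg Prod.fst e4
      exact Prod.ext e0 (Prod.ext e1 (Prod.ext e6 (Prod.ext e3 e2)))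
    obtain ⟨Y7, hY7⟩ : ∃ Y7 : F.Ω → _, Y7 = fun ω => (x0 F A c D w n nt H ω, Y6 ω) := ⟨_, rfl⟩
    have hY7e : ∀ ω ω', Y7 ω = Y7 ω' → x0 F A c D w n nt H ω = x0 F A c D w n nt H ω' ∧
        Y5 ω = Y5 ω' := by
      intro ω ω' e
      rw [hY7, hY6] at e
      simp only [Prod.mk.injEq] at e
      exact ⟨e.1, e.2.2⟩
    have k5 : CH q (pcC F c D w H 2 0 (n 2)) Y7 ≤ (∑ j ∈ range (D + 2), cJ D j) + cD D := by
      have k3 := na_pu hw0 hw1 hdeg hA (n := n) (c := c) (s := n 2) le_rfl Y7 fun ω ω' _ _ e => by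
        obtain ⟨e1, e2, e3, e4, e5⟩ := hY5e ω ω' (hY7e ω ω' e).2
        exact ⟨congrArg Prod.fst e4, e5, e1⟩
      rw [← hq] at k3
      exact k3
    obtain ⟨Y8, hY8⟩ : ∃ Y8 : F.Ω → _, Y8 = fun ω => (pcC F c D w H 2 0 (n 2) ω, Y7 ω) := ⟨_, rfl⟩
    have k6 : CH q (pcC F c D w H 3 1 (n 3)) Y8 ≤ e * J := by
      rw [← hq] at hg
      refine (CH_mono_cond h0 fun ω ω' _ _ e => ?_).trans hg
      rw [hY8] at e
      obtain ⟨e0, e'⟩ := Prod.ext_iff.mp e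
      obtain ⟨e1, e2, e3, e4, e5⟩ := hY5e ω ω' (hY7e ω ω' e').2
      have e6 : F.T ω = F.T ω' := congrArg Prod.fst e4
      refine Prod.ext e6 (Prod.ext e3 (funext fun l => ?_))
      fin_cases l
      · exact congrFun e2 0
      · exact congrFun e2 1
      · exact e0
    have k7 : CH q (xg F A c D w n nt H) (fun ω => (pcC F c D w H 3 1 (n 3) ω, Y8 ω)) ≤ 0 := by
      refine le_of_eq (CH_eq_zero h0 fun ω ω' _ _ e => ?_)
      rw [hY8] at e
      simp only [Prod.mk.injEq] at e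
      have e2 := (hY7e ω ω' e.2.2).1
      unfold xg xn
      rw [e2, e.1, e.2.1]
    have l1 := CH_le_add h0 (xg F A c D w n nt H) (vpC F c D w n H) Y3
    rw [← hY4] at l1
    have l2 := CH_le_add h0 (xg F A c D w n nt H) (f1C F c D w n H) Y4
    rw [← hY5] at l2
    have l3 := CH_le_add h0 (xg F A c D w n nt H) (hgC F c w H 2 nt) Y5
    rw [← hY6] at l3
    have l4 := CH_le_add h0 (xg F A c D w n nt H) (x0 F A c D w n nt H) Y6
    rw [← hY7] at l4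
    have l5 := CH_le_add h0 (xg F A c D w n nt H) (pcC F c D w H 2 0 (n 2)) Y7
    rw [← hY8] at l5
    have l6 := CH_le_add h0 (xg F A c D w n nt H) (pcC F c D w H 3 1 (n 3)) Y8
    linarith
  have hfu4 := fu_of (F := F) (A := A) (c := c) (D := D) (w := w) (t := t) (x' := x') (nt := nt)
    (e := 3 * e) (n := n) (H := H) hA hwt htx hx1 hnt (ud := ud)
    (by linarith [hf1]) (by rw [← hq]; linarith [hfr2]) (by
      refine le_trans (mul_le_mul_of_nonneg_right ?_ hJ0) hfu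
      linarith) (by linarith)
  rw [← hq] at hf1 hf2 hx hfu htm hfu4
  have f1 : ∀ x : ℝ, x * Real.log 2 * J + 4 * (e * J) ≤ (x * Real.log 2 + 12 * e) * J := fun x => by
    have : (x * Real.log 2 + 12 * e) * J = x * Real.log 2 * J + 12 * (e * J) := by ring
    rw [this]
    linarith
  have f2 : 12 * e * (J : ℝ) = 12 * (e * J) := by ring
  have f3 : 4 * (3 * e) = 12 * e := by ring
  rw [f3] at hfu4
  refine ⟨⟨Y, ud, ?_, ?_, ?_⟩, ?_, ?_, ?_, ?_, ?_, ?_, ?_⟩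
  · rw [← hq, f2]
    linarith
  · rw [← hq, f2]
    linarith
  · rw [← hq, f2]
    linarith
  · rw [← hq, f2]
    linarith
  · rw [← hq, f2]
    linarith
  · rw [← hq, f2]
    linarith
  · rw [← hq]
    refine le_trans ?_ (f1 (n 2 - nt))
    refine hxx.trans ?_
    have : (n 2 - nt) * (J : ℝ) * Real.log 2 = (n 2 - nt) * Real.log 2 * J := by ring
    rw [this]
    linarith
  · rw [← hq, f2]
    linarith
  · rw [← hq]
    exact hfu4
  · rw [← hq]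
    refine le_trans (mul_le_mul_of_nonneg_right ?_ hJ0) htm
    linarith

/-- A property of all labels of the window of small accuracy. -/
def BLb {m : ℕ} (S : PCl m) (c : ℕ → Fin m) (r D : ℕ) (w : ℝ) (s : ℕ → ℝ)
    (Φ : ∀ (J : ℕ) (F : Fam m J), (F.Ω → Prop) → (LnT F → ℕ → MvPolynomial (Option (Fin m)) ℝ) →
      Prop) : Prop :=
  ∃ e₁ : ℝ, 0 < e₁ ∧ Bas S (fun J F A => ∀ H : LnT F → ℕ → MvPolynomial (Option (Fin m)) ℝ,
    LbV F A c r D w e₁ s H → Φ J F A H)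

theorem BLb.and {S : PCl m} {c : ℕ → Fin m} {r D : ℕ} {w : ℝ} {s : ℕ → ℝ}
    {Φ Ψ : ∀ (J : ℕ) (F : Fam m J), (F.Ω → Prop) →
      (LnT F → ℕ → MvPolynomial (Option (Fin m)) ℝ) → Prop} (h : BLb S c r D w s Φ)
    (h' : BLb S c r D w s Ψ) : BLb S c r D w s (fun J F A H => Φ J F A H ∧ Ψ J F A H) := by
  obtain ⟨e₁, he₁, h1⟩ := h
  obtain ⟨e₂, he₂, h2⟩ := h'
  refine ⟨min e₁ e₂, lt_min he₁ he₂, Bas.mono 0 (h1.and h2) ?_⟩
  rintro J - F A ⟨h1, h2⟩ H hH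
  exact ⟨h1 H (hH.mono le_rfl le_rfl (min_le_left _ _)), h2 H (hH.mono le_rfl le_rfl
    (min_le_right _ _))⟩

theorem BLb.up {S : PCl m} {c : ℕ → Fin m} {r r' D : ℕ} {w : ℝ} {s : ℕ → ℝ}
    {Φ : ∀ (J : ℕ) (F : Fam m J), (F.Ω → Prop) →
      (LnT F → ℕ → MvPolynomial (Option (Fin m)) ℝ) → Prop} (hr : r ≤ r') (h : BLb S c r D w s Φ) :
    BLb S c r' D w s Φ := by
  obtain ⟨e₁, he₁, h1⟩ := h
  exact ⟨e₁, he₁, Bas.mono 0 h1 fun J _ F A h H hH => h H (hH.mono hr le_rfl le_rfl)⟩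

theorem BLb.of {S : PCl m} {c : ℕ → Fin m} {r D : ℕ} {w : ℝ} {s : ℕ → ℝ}
    {Φ : Stat m} (h : Bas S Φ) : BLb S c r D w s (fun J F A _ => Φ J F A) :=
  ⟨1, one_pos, Bas.mono 0 h fun _ _ _ _ h _ _ => h⟩

/-- **The class statement from the pieces.** -/
theorem ndcls_of {S : PCl m} {C₀ : ℝ} (htm : TmC S C₀) {c : ℕ → Fin m} {D : ℕ}
    {w t x' nt e : ℝ} {n s : ℕ → ℝ} (hw0 : 0 ≤ w) (hwt : w ≤ t) (htx : t ≤ x') (hx1 : x' ≤ 1)
    (hnt : nt ≤ n 2) (he : 0 < e)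
    (hfr : BLb S c 2 D w s (fun J F A H => ∃ (Y : Type) (ud : F.Ω → Y),
      CH (Pool.Agent.H49.Ent.cond F.p A True) ud (fun ω => (cR F A w ω, F.W ω)) ≤
        CH (Pool.Agent.H49.Ent.cond F.p A True) ud (rP F A c w x' n H) + e * J ∧
      CH (Pool.Agent.H49.Ent.cond F.p A True) (fun ω (l : Fin 2) => pcC F c D w H l 0 (n l) ω)
        (fun ω => ((cR F A w ω, F.W ω), ((fun l : Fin 2 => hgC F c w H l (n l) ω), ud ω))) ≤ e * J))
    (hx : BLb S c 2 D w s (fun J F A H => CH (Pool.Agent.H49.Ent.cond F.p A True)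
      (fun ω => ((fun l : Fin 2 => hgC F c w H l (n l) ω), hgC F c w H 2 (n 2) ω))
      (fun ω => (cR F A x' ω, F.W ω)) ≤ e * J))
    (hu : BLb S c 2 D w s (fun J F A H => CH (Pool.Agent.H49.Ent.cond F.p A True)
      (pcC F c D w H 2 1 (n 2))
      (fun ω => ((cR F A w ω, F.W ω), fun l : Fin 2 => pcC F c D w H l 0 (n l) ω)) ≤ e * J))
    (hg : BLb S c 3 D w s (fun J F A H => CH (Pool.Agent.H49.Ent.cond F.p A True)
      (pcC F c D w H 3 1 (n 3))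
      (fun ω => (F.T ω, (cR F A w ω, fun l : Fin 3 => pcC F c D w H l 0 (n l) ω))) ≤ e * J))
    (hfu : BLb S c 2 D w s (fun J F A H => ((n 2 - nt) * Real.log 2 - e) * J ≤
      CH (Pool.Agent.H49.Ent.cond F.p A True) (hgC F c w H 2 (n 2))
        (fun ω => ((cR F A t ω, F.W ω), ((fun l : Fin 2 => hgC F c w H l (n l) ω),
          hgC F c w H 2 nt ω))))) : NdCls S c D s w t x' n nt (12 * e) := by
  have hw1 : w ≤ 1 := hwt.trans (htx.trans hx1)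
  obtain ⟨e₁, he₁, h1⟩ := (((hfr.and hx).and (hu.and hfu)).up (r' := 3) (by norm_num)).and
    (hg.and (BLb.of (Pool.NA36.na_tm htm hw0 hw1 he)))
  obtain ⟨J₁, hJ₁⟩ := exists_nat_ge (cA D / e)
  refine ⟨e₁, he₁, Bas.mono J₁ h1 ?_⟩
  rintro J hJ F A h2 H hH
  obtain ⟨⟨⟨b1, b2⟩, b3, b4⟩, b5, hA, b6⟩ := h2 H hH.lv
  have hJ1 : (J₁ : ℝ) ≤ J := by exact_mod_cast hJ
  refine nde_of hA hw0 hwt htx hx1 hnt (fun l hl x => hH.lv.deg hl x) b1 b2 b3 b5 b4 b6 he.le ?_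
  have := hJ₁.trans hJ1
  rw [div_le_iff₀ he] at this
  linarith

end Pool.NDC42
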