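import Pool.Agent.H42.NDC.Det
import Pool.Agent.H44.V0F.Win

/-!
# The velocity of the moved place is dead: all codes of order at least one

`LbV`: labels of the places `≤ r`. `u_le`: if the first jet of the place `r` is few bits given the jets
of order `≤ 1` of the places below it, then the codes of order `≥ 1` are few bits given the codes of
the places below it and the record.
-/

set_option autoImplicit false

namespace Pool.NDC42

open Finset Real MvPolynomial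
open Pool.Agent.H49.Ent Pool.Agent.H32.Dense Pool.STK Pool.KA Pool.KSAT Pool.K2S Pool.PB Pool.GEN
open Pool.S6C Pool.RCD Pool.LA91 Pool.OWN68 Pool.CHT Pool.AJW Pool.AJ18
open Pool.V0F (cR mx_cR qj_win)
open Pool.GRD (LbP)

variable {m : ℕ}

/-- Labels of the places `≤ r` of the window `w`. -/
def LbV {J : ℕ} (F : Fam m J) (A : F.Ω → Prop) (c : ℕ → Fin m) (r D : ℕ) (w e : ℝ) (p : ℕ → ℝ)
    (H : LnT F → ℕ → MvPolynomial (Option (Fin m)) ℝ) : Prop :=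
  ∀ l ≤ r, (∃ (V : Type) (z : PtT F → V) (z' : LnT F → V) (G : V → MvPolynomial (Option (Fin m)) ℝ),
    LbP F ((range l).image c) (c l) D J ⌊w * J⌋₊ ⌊(p l - e) * J⌋₊ A z z' G ∧
      ∀ x, G (z' x) = H x l) ∧
    CfB F ⌊w * J⌋₊ 1 (c l) A (fun x => x) (fun x => H x l)

theorem LbV.mono {J : ℕ} {F : Fam m J} {A : F.Ω → Prop} {c : ℕ → Fin m} {r r' D D' : ℕ}
    {w e e' : ℝ} {p : ℕ → ℝ} {H : LnT F → ℕ → MvPolynomial (Option (Fin m)) ℝ}
    (h : LbV F A c r D w e p H) (hr : r' ≤ r) (hD : D ≤ D') (he : e ≤ e') :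
    LbV F A c r' D' w e' p H := by
  intro l hl
  obtain ⟨⟨V, z, z', G, h1, h2⟩, h3⟩ := h l (hl.trans hr)
  exact ⟨⟨V, z, z', G, h1.mono (Finset.Subset.refl _) hD (Nat.floor_le_floor
    (mul_le_mul_of_nonneg_right (by linarith) (Nat.cast_nonneg J))), h2⟩, h3⟩

theorem LbW.lv {J : ℕ} {F : Fam m J} {A : F.Ω → Prop} {c : ℕ → Fin m} {D : ℕ} {w e : ℝ}
    {p : ℕ → ℝ} {H : LnT F → ℕ → MvPolynomial (Option (Fin m)) ℝ}
    (h : LbW F A c D w e p H) : LbV F A c 3 D w e p H := h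

theorem LbV.deg {J : ℕ} {F : Fam m J} {A : F.Ω → Prop} {c : ℕ → Fin m} {r D : ℕ}
    {w e : ℝ} {p : ℕ → ℝ} {H : LnT F → ℕ → MvPolynomial (Option (Fin m)) ℝ}
    (h : LbV F A c r D w e p H) {l : ℕ} (hl : l ≤ r) (x : LnT F) : (H x l).totalDegree ≤ D := by
  obtain ⟨⟨V, z, z', G, h1, h2⟩, -⟩ := h l hl
  rw [← h2 x]
  exact h1.deg _

/-- **The jets over such labels are quantities.** -/
theorem lbv_P (m D j : ℕ) {N w : ℝ} (hw0 : 0 ≤ w) (hw1 : w ≤ 1) : ∃ M J₁ : ℕ, ∀ K ≥ M, ∀ J ≥ J₁,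
    ∀ (F : Fam m J) (A : F.Ω → Prop) (c : ℕ → Fin m) (r : ℕ) (e : ℝ) (p : ℕ → ℝ)
      (H : LnT F → ℕ → MvPolynomial (Option (Fin m)) ℝ), LbV F A c r D w e p H → ∀ l ≤ r,
      (qJet m ((range l).image c) (c l) j w (p l) N).P K e J F A
        (fun ω => ⌊(2 : ℝ) ^ (N * J) * ojet F (c l) j (H (slam F ⌊w * J⌋₊ ω) l) ω⌋) := by
  obtain ⟨M, J₁, hM⟩ := qj_win m D j (N := N) (E := 1) hw0 hw1
  refine ⟨M, J₁, fun K hK J hJ F A c r e p H hH l hl => ?_⟩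
  obtain ⟨⟨V, z, z', G, h1, h2⟩, h3⟩ := hH l hl
  have h4 : CfB F ⌊w * J⌋₊ 1 (c l) A z' G := by
    intro ω hω a
    have e1 : (fun s (_ : Fin m) => G (z' s)) = fun s (_ : Fin m) => H s l := by
      funext s _
      exact h2 s
    rw [e1]
    exact h3 ω hω a
  have h5 := hM K hK J hJ F _ (c l) A V z z' G _ (p l) e h1 h4 le_rfl
  simp only [h2] at h5
  exact h5

/-- The constant of the jets of order at most one of the places below `r`. -/
theorem uv_few (D r : ℕ) : ∃ C : ℝ, 0 ≤ C ∧ ∀ {m J : ℕ} {F : Fam m J} {c : ℕ → Fin m}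
    {w : ℝ} (_ : 0 ≤ w) (_ : w ≤ 1) {H : LnT F → ℕ → MvPolynomial (Option (Fin m)) ℝ}
    {n nf : ℕ → ℝ} (_ : ∀ l < r, nf l ≤ n l) (_ : ∀ l < r, ∀ x, (H x l).totalDegree ≤ D)
    {q : F.Ω → ℝ} (_ : IsLaw q) {Γ : Type} (Y : F.Ω → Γ)
    (_ : ∀ ω ω', 0 < q ω → 0 < q ω' → Y ω = Y ω' → F.T ω = F.T ω' ∧ ∀ l < r,
      pcC F c D w H l 0 (n l) ω = pcC F c D w H l 0 (n l) ω'),
    CH q (fun ω (i j : ℕ) => if i < r ∧ j ≤ 1 then jtC F c w H i j (nf i) ω else 0) Y ≤ C := by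
  refine ⟨∑ x : Fin r × Fin 2, cJ D x.2, Finset.sum_nonneg fun x _ => cJ_nonneg D _, ?_⟩
  intro m J F c w hw0 hw1 H n nf hnf hdeg q hq Γ Y hY
  have h0 := hq.nonneg
  refine le_trans (CH_mono_left h0 (X' := fun ω (x : Fin r × Fin 2) =>
    jtC F c w H x.1 x.2 (nf x.1) ω) fun ω ω' _ _ e => funext fun i => funext fun j => ?_) ?_
  · by_cases h : i < r ∧ j ≤ 1
    · have h1 := congrFun (Prod.ext_iff.mp e).1 (⟨i, h.1⟩, ⟨j, by omega⟩)
      rw [if_pos h, if_pos h]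
      exact h1
    · rw [if_neg h, if_neg h]
  refine (CH_pis h0 _ _).trans (Finset.sum_le_sum fun x _ => ?_)
  exact jt_of_pc hw0 hw1 (hnf x.1 x.1.2) (hdeg x.1 x.1.2) (Nat.zero_le _) hq Y
    fun ω ω' hω hω' e => ⟨(hY ω ω' hω hω' e).1, (hY ω ω' hω hω' e).2 x.1 x.1.2⟩

theorem uv_P (c : ℕ → Fin m) (r D : ℕ) {w : ℝ} (hw0 : 0 ≤ w) (hw1 : w ≤ 1)
    (nf : ℕ → ℝ) : ∃ M J₁ : ℕ, ∀ K ≥ M, ∀ J ≥ J₁, ∀ (F : Fam m J) (A : F.Ω → Prop) (R : ℕ) (e : ℝ)
      (p : ℕ → ℝ) (H : LnT F → ℕ → MvPolynomial (Option (Fin m)) ℝ), r ≤ R →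
      LbV F A c R D w e p H → (qJets m c 0 r 1 (fun _ _ => w) (fun l _ => p l)
        (fun l j => nf l - (j : ℝ) * w)).P K e J F A
        (fun ω (i j : ℕ) => if i < r ∧ j ≤ 1 then jtC F c w H i j (nf i) ω else 0) := by
  choose M J₁ hM using fun x : ℕ × ℕ => lbv_P m D x.2 (N := nf x.1 - (x.2 : ℝ) * w) hw0 hw1
  refine ⟨∑ x ∈ range r ×ˢ range 2, M x, ∑ x ∈ range r ×ˢ range 2, J₁ x,
    fun K hK J hJ F A R e p H hR hH => ⟨fun i _ hi j hj => ?_, fun ω _ i j h => ?_⟩⟩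
  · have hx : (i, j) ∈ range r ×ˢ range 2 :=
      Finset.mem_product.2 ⟨mem_range.2 hi, mem_range.2 (by omega)⟩
    have h1 : M (i, j) ≤ ∑ x ∈ range r ×ˢ range 2, M x :=
      Finset.single_le_sum (f := M) (fun _ _ => Nat.zero_le _) hx
    have h2 : J₁ (i, j) ≤ ∑ x ∈ range r ×ˢ range 2, J₁ x :=
      Finset.single_le_sum (f := J₁) (fun _ _ => Nat.zero_le _) hx
    have h3 := hM (i, j) K (h1.trans hK) J (h2.trans hJ) F A c R e p H hH i (by omega)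
    have e1 : (fun ω => (fun ω (i j : ℕ) => if i < r ∧ j ≤ 1 then jtC F c w H i j (nf i) ω else 0) ω
        i j) = fun ω => ⌊(2 : ℝ) ^ ((nf i - (j : ℝ) * w) * J) *
          ojet F (c i) j (H (slam F ⌊w * J⌋₊ ω) i) ω⌋ := by
      funext ω
      exact if_pos ⟨hi, hj⟩
    rw [e1]
    exact h3
  · exact if_neg fun h' => h ⟨Nat.zero_le _, h'.1, h'.2⟩

set_option maxHeartbeats 1000000 in
/-- **All codes of order at least one** of a place of which the first jet is few bits. -/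
theorem u_le (D r : ℕ) {ε : ℝ} (hε : 0 < ε) : ∃ δ : ℝ, 0 < δ ∧ ∀ {m : ℕ} {S : PCl m} {C₀ : ℝ}
    (_ : TmC S C₀) {c : ℕ → Fin m} {w μ σ₀ e : ℝ} {p n nf : ℕ → ℝ} (_ : 0 ≤ w)
    (_ : 0 < μ) (_ : w + μ ≤ 1) (_ : 0 < σ₀) (_ : 0 < e) (_ : e ≤ σ₀ / 4)
    (_ : n r + σ₀ ≤ p r + μ) (_ : ∀ l < r, nf l ≤ n l),
    F1 S (fun J F => ptr F J) (vg w) (fun _ F => F.T)
      (qJets m c 0 r 1 (fun _ _ => w) (fun l _ => p l) (fun l j => nf l - (j : ℝ) * w))
      (qJet m ((range r).image c) (c r) 1 w (p r) (n r - ((1 : ℕ) : ℝ) * w)) e (δ * μ) →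
    Bas S (fun J F A => ∀ H : LnT F → ℕ → MvPolynomial (Option (Fin m)) ℝ,
      LbV F A c r D w e p H →
      CH (Pool.Agent.H49.Ent.cond F.p A True) (pcC F c D w H r 1 (n r))
        (fun ω => ((cR F A w ω, F.W ω), fun l : Fin r => pcC F c D w H l 0 (n l) ω)) ≤
          ε * μ * J) := by
  classical
  have hD0 : (0 : ℝ) ≤ D := Nat.cast_nonneg D
  obtain ⟨ε₁, hε₁⟩ : ∃ ε₁ : ℝ, ε₁ = ε / (8 * (D + 4)) := ⟨_, rfl⟩
  have hε10 : 0 < ε₁ := by
    rw [hε₁]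
    positivity
  have hεe : 2 * (D + 2) * ε₁ ≤ ε / 4 := by
    rw [hε₁]
    have h1 : 2 * ((D : ℝ) + 2) * (ε / (8 * (D + 4))) = ε / 4 * ((D + 2) / (D + 4)) := by
      field_simp
      ring
    have h2 : ((D : ℝ) + 2) / (D + 4) ≤ 1 := by
      rw [div_le_one (by positivity)]
      linarith
    rw [h1]
    exact mul_le_of_le_one_right (by positivity) h2
  obtain ⟨δ₁, hδ₁, c₀, hc₀, N₀, hN₀, Haj⟩ := Pool.AJ18.all_jets (D + 1) (by omega) (h := 1 / 2)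
    (by norm_num) (by norm_num) hε10
  obtain ⟨δ, hδ⟩ : ∃ δ : ℝ, δ = min (δ₁ / 4) (c₀ * δ₁ / 4) := ⟨_, rfl⟩
  have hδ0 : 0 < δ := by rw [hδ]; positivity
  have hδ1 : δ ≤ δ₁ / 4 := by rw [hδ]; exact min_le_left _ _
  have hδc : δ ≤ c₀ * δ₁ / 4 := by rw [hδ]; exact min_le_right _ _
  obtain ⟨C₁, hC₁, Huv⟩ := uv_few D r
  refine ⟨δ, hδ0, ?_⟩
  intro m S C₀ htm c w μ σ₀ e p n nf hw0 hμ hwμ hσ₀ he heσ hnp hnf h1
  have hw1 : w < 1 := by linarith
  obtain ⟨J₃, Haj⟩ := Haj hw0 hμ hwμ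
  have l7 : 0 ≤ Real.log 7 := Real.log_nonneg (by norm_num)
  obtain ⟨M₁, J₁, hP1⟩ := uv_P c r D hw0 hw1.le nf
  obtain ⟨M₂, J₂, hP2⟩ := lbv_P m D 1 (N := n r - ((1 : ℕ) : ℝ) * w) hw0 hw1.le
  choose Mj Jj hPj using fun j : ℕ => lbv_P m D j (N := n r - μ - (j : ℝ) * w) hw0 hw1.le
  obtain ⟨K', hK'⟩ : ∃ K' : ℕ, K' = M₁ + M₂ + ∑ j ∈ range (D + 2), Mj j := ⟨_, rfl⟩
  obtain ⟨J₄, hJ₄⟩ := exists_nat_ge ((2 * C₁ + 2 * Real.log 7) / (δ₁ / 4 * μ) +
    (C₁ + Real.log 7) / (c₀ * δ₁ / 4 * μ) + ((D + 2) * (Real.log 7 + Real.log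
      (2 * ((2 ^ (D + 1) + 1 : ℕ) : ℝ) + 1)) + cD D) / (ε / 8 * μ))
  obtain ⟨Jm, hJm⟩ : ∃ Jm : ℕ, Jm = J₁ + J₂ + J₃ + J₄ + ∑ j ∈ range (D + 2), Jj j := ⟨_, rfl⟩
  -- the natural jets
  have hFa : Bas S (fun J F A => ∀ j < D + 2, ∀ u' : F.Ω → ℤ,
      (qJet m ((range r).image c) (c r) j w (p r) (n r - μ - (j : ℝ) * w)).P K' e J F A u' →
      ∃ (V : Type) (z : F.Ω → V), Cl2 (ptr F J) (vg w J F) A z ∧
        CH (Pool.Agent.H49.Ent.cond F.p A True) u' (fun ω => (z ω, F.T ω)) ≤ δ * μ * J) := by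
    refine Bas.all (D + 2) fun j hj => ?_
    refine Bas.mono 0 (((few0_room htm (I := (range r).image c) (k := c r) (j := j) (p := p r)
      (N := n r - μ - (j : ℝ) * w) hw0 hw1 hσ₀ (by linarith) (fun J F => ptr F J) (vg w)
      (fun _ F => F.T) (show 0 < δ * μ by positivity)).mono heσ le_rfl) K') ?_
    intro J _ F A h
    exact h
  refine Bas.mono Jm (((h1 K').and hFa).and
    (Pool.GRW.tmc_bas htm (ψ := δ₁ * μ) (by positivity))) ?_
  rintro J hJ F A ⟨⟨H1, HN⟩, hA, hT⟩ H hlb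
  have hJ1 : J₁ ≤ J := by omega
  have hJ2 : J₂ ≤ J := by omega
  have hJ3 : J₃ ≤ J := by omega
  have hJ4 : (J₄ : ℝ) ≤ J := by exact_mod_cast (by omega : J₄ ≤ J)
  have hJ0 : (0 : ℝ) ≤ J := Nat.cast_nonneg J
  have hcD := cD_nonneg D
  obtain ⟨cF, hcF⟩ : ∃ cF : ℝ, cF = Real.log (2 * ((2 ^ (D + 1) + 1 : ℕ) : ℝ) + 1) := ⟨_, rfl⟩
  have hcF0 : 0 ≤ cF := by
    rw [hcF]
    refine Real.log_nonneg ?_
    have : (0 : ℝ) ≤ ((2 ^ (D + 1) + 1 : ℕ) : ℝ) := Nat.cast_nonneg _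
    linarith
  rw [← hcF] at hJ₄
  have t1 : 0 ≤ (2 * C₁ + 2 * Real.log 7) / (δ₁ / 4 * μ) := by positivity
  have t2 : 0 ≤ (C₁ + Real.log 7) / (c₀ * δ₁ / 4 * μ) := by positivity
  have t3 : 0 ≤ ((D + 2) * (Real.log 7 + cF) + cD D) / (ε / 8 * μ) := by positivity
  have f1 : 2 * C₁ + 2 * Real.log 7 ≤ δ₁ / 4 * μ * J := by
    have h2 : (2 * C₁ + 2 * Real.log 7) / (δ₁ / 4 * μ) ≤ J := by linarith
    rw [div_le_iff₀ (by positivity)] at h2
    linarith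
  have f2 : C₁ + Real.log 7 ≤ c₀ * δ₁ / 4 * μ * J := by
    have h2 : (C₁ + Real.log 7) / (c₀ * δ₁ / 4 * μ) ≤ J := by linarith
    rw [div_le_iff₀ (by positivity)] at h2
    linarith
  have f3 : (D + 2) * (Real.log 7 + cF) + cD D ≤ ε / 8 * μ * J := by
    have h2 : ((D + 2) * (Real.log 7 + cF) + cD D) / (ε / 8 * μ) ≤ J := by linarith
    rw [div_le_iff₀ (by positivity)] at h2
    linarith
  clear hJ₄ t1 t2 t3
  have hμJ : 0 ≤ μ * J := by positivity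
  have d1 : δ * μ * J ≤ δ₁ / 4 * μ * J := by
    have := mul_le_mul_of_nonneg_right hδ1 hμJ
    linarith
  have d2 : δ * μ * J ≤ c₀ * δ₁ / 4 * μ * J := by
    have := mul_le_mul_of_nonneg_right hδc hμJ
    linarith
  have l57 : Real.log 5 ≤ Real.log 7 := Real.log_le_log (by norm_num) (by norm_num)
  have hWJ : ⌊w * J⌋₊ ≤ J := floor_le hw1.le J
  obtain ⟨W, hW⟩ : ∃ W : ℕ, W = ⌊w * J⌋₊ := ⟨_, rfl⟩
  obtain ⟨σ, hσ⟩ : ∃ σ : ℝ, σ = 2 ^ (n r * J) := ⟨_, rfl⟩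
  have hσ0 : 0 < σ := by
    rw [hσ]
    exact Real.rpow_pos_of_pos (by norm_num) _
  have hmx := mx_cR hA w (le_refl (0 : ℝ))
  obtain ⟨q', hq'⟩ : ∃ q' : F.Ω → ℝ, q' = Pool.Agent.H49.Ent.cond F.p A True := ⟨_, rfl⟩
  have hq'l : IsLaw q' := by
    rw [hq']
    exact isLaw_cond F.isLaw hA
  have h0 := hq'l.nonneg
  have hq'A : ∀ ω, 0 < q' ω → A ω := fun ω hω => by
    rw [hq'] at hω
    exact of_cond_pos hω
  have hdeg : ∀ l ≤ r, ∀ x, (H x l).totalDegree ≤ D := fun l hl x => hlb.deg hl x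
  -- the first jet
  obtain ⟨Uv, hUv⟩ : ∃ Uv : F.Ω → ℕ → ℕ → ℤ, Uv = fun ω (i j : ℕ) => if i < r ∧ j ≤ 1 then
    jtC F c w H i j (nf i) ω else 0 := ⟨_, rfl⟩
  have hUvP := hP1 K' (by omega) J hJ1 F A r e p H le_rfl hlb
  rw [← hUv] at hUvP
  obtain ⟨u1, hu1⟩ : ∃ u1 : F.Ω → ℤ, u1 = fun ω => ⌊(2 : ℝ) ^ ((n r - ((1 : ℕ) : ℝ) * w) * J) *
    ojet F (c r) 1 (H (slam F ⌊w * J⌋₊ ω) r) ω⌋ := ⟨_, rfl⟩
  have hu1P := hP2 K' (by omega) J hJ2 F A c r e p H hlb r le_rfl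
  rw [← hu1] at hu1P
  obtain ⟨VA, zA, hzA, h1A⟩ := H1 Uv u1 hUvP hu1P
  -- the natural jets
  obtain ⟨Uj, hUj⟩ : ∃ Uj : ℕ → F.Ω → ℤ, Uj = fun (j : ℕ) ω =>
    ⌊(2 : ℝ) ^ ((n r - μ - (j : ℝ) * w) * J) *
      ojet F (c r) j (H (slam F ⌊w * J⌋₊ ω) r) ω⌋ := ⟨_, rfl⟩
  -- the record
  obtain ⟨Y, hY⟩ : ∃ Y : F.Ω → (({D : F.Ω → Prop // Cl2 (ptr F J) (vg w J F) A D} → Prop) ×
      (ℕ × F.ζ)) × (Fin r → Fin (D + 1 + 1) → ℤ), Y = fun ω => ((cR F A w ω, F.W ω),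
        fun l : Fin r => pcC F c D w H l 0 (n l) ω) := ⟨_, rfl⟩
  have hrec : ∀ {V : Type} {z : F.Ω → V}, Cl2 (ptr F J) (vg w J F) A z →
      ∀ ω ω', 0 < q' ω → 0 < q' ω' → cR F A w ω = cR F A w ω' → z ω = z ω' := by
    intro V z hz ω ω' hω hω' e1
    have h2 := congrFun e1 ⟨fun ν => z ν = z ω', hz.comp fun v => v = z ω'⟩
    have h3 : (z ω = z ω') = (z ω' = z ω') := h2
    exact h3.mpr rfl
  have hYT : ∀ ω ω', 0 < q' ω → 0 < q' ω' → Y ω = Y ω' → F.T ω = F.T ω' := by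
    intro ω ω' _ _ e
    rw [hY] at e
    simp only [Prod.mk.injEq] at e
    exact (Prod.ext_iff.mp e.1.2).1
  have hYj : ∀ j < D + 2, CH q' (Uj j) Y ≤ δ * μ * J := by
    intro j hj
    have hPj' := hPj j K' (by
      have h2 : Mj j ≤ ∑ j ∈ range (D + 2), Mj j :=
        Finset.single_le_sum (f := Mj) (fun _ _ => Nat.zero_le _) (mem_range.2 hj)
      omega) J (by
      have h2 : Jj j ≤ ∑ j ∈ range (D + 2), Jj j :=
        Finset.single_le_sum (f := Jj) (fun _ _ => Nat.zero_le _) (mem_range.2 hj)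
      omega) F A c r e p H hlb r le_rfl
    obtain ⟨V₂, z₂, hz₂, h2⟩ := HN j hj _ hPj'
    have e1 : (fun ω => ⌊(2 : ℝ) ^ ((n r - μ - (j : ℝ) * w) * J) *
      ojet F (c r) j (H (slam F ⌊w * J⌋₊ ω) r) ω⌋) = Uj j := by rw [hUj]
    rw [e1, ← hq'] at h2
    refine le_trans (CH_mono_cond h0 fun ω ω' hω hω' e => ?_) h2
    have e3 := hYT ω ω' hω hω' e
    rw [hY] at e
    simp only [Prod.mk.injEq] at e
    exact Prod.ext (hrec hz₂ ω ω' hω hω' e.1.1) e3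
  have hUvY : CH q' Uv Y ≤ C₁ := by
    rw [hUv]
    refine Huv hw0 hw1.le hnf (fun l hl x => hdeg l hl.le x) hq'l Y fun ω ω' hω hω' e => ?_
    refine ⟨hYT ω ω' hω hω' e, fun l hl => ?_⟩
    rw [hY] at e
    simp only [Prod.mk.injEq] at e
    exact congrFun e.2 ⟨l, hl⟩
  have hY1 : CH q' u1 Y ≤ δ * μ * J + C₁ := by
    have s1 := CH_le_add h0 u1 Uv Y
    have s4 : CH q' u1 (fun ω => (Uv ω, Y ω)) ≤ δ * μ * J := by
      rw [← hq'] at h1A
      refine le_trans (CH_mono_cond h0 fun ω ω' hω hω' e => ?_) h1A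
      obtain ⟨e1, e2⟩ := Prod.ext_iff.mp e
      have e3 := hYT ω ω' hω hω' e2
      rw [hY] at e2
      simp only [Prod.mk.injEq] at e2
      exact Prod.ext e1 (Prod.ext (hrec hzA ω ω' hω hω' e2.1.1) e3)
    linarith
  rw [← hq'] at hT
  rw [← hW] at hu1 hUj
  -- the paths
  obtain ⟨R, hR⟩ : ∃ R : LnT F → Polynomial ℝ, R = fun x => Polynomial.derivative
    (jR F W σ (c r) (fun x => x) (fun x => H x r) x) := ⟨_, rfl⟩
  have hd : ∀ x : LnT F, (X (some (c r)) - H x r).totalDegree ≤ D + 1 := fun x => by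
    refine (MvPolynomial.totalDegree_sub _ _).trans (max_le ?_ ?_)
    · exact (totalDegree_X _).le.trans (by omega)
    · exact (hdeg r le_rfl x).trans (by omega)
  have hpj : ∀ (j : ℕ) (ω : F.Ω), pj F R W j ω =
      σ * (1 / 2 ^ (W + 1)) ^ (j + 1) * ojet F (c r) (j + 1) (H (slam F W ω) r) ω := by
    intro j ω
    rw [hR]
    unfold pj
    rw [← Function.iterate_succ_apply]
    exact jR_jet (by rw [hW]; exact hWJ) ω (j + 1)
  have hn1 : ∀ ω ω', u1 ω = u1 ω' → |pj F R W 0 ω - pj F R W 0 ω'| ≤ 1 := by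
    intro ω ω' e
    rw [hu1] at e
    rw [hpj, hpj]
    refine fl_scale (t := 2 ^ ((n r - ((1 : ℕ) : ℝ) * w) * J)) (by positivity) ?_
      (Real.rpow_pos_of_pos (by norm_num) _) e
    rw [one_mul, hσ, hW]
    exact (scale_le (s := n r) hw0 J 1).1
  have hnj : ∀ j, ∀ ω ω', Uj (j + 1) ω = Uj (j + 1) ω' →
      |pj F R W j ω - pj F R W j ω'| ≤ 2 ^ (μ * J) := by
    intro j ω ω' e
    rw [hUj] at e
    rw [hpj, hpj]
    refine fl_scale (by positivity) ?_ (Real.rpow_pos_of_pos (by norm_num) _) e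
    have h2 := (scale_le (s := n r) hw0 J (j + 1)).1
    rw [← hσ, ← hW] at h2
    refine h2.trans (le_of_eq ?_)
    rw [← Real.rpow_add (by norm_num)]
    congr 1
    ring
  -- the key of the line
  obtain ⟨φR, hφR⟩ := hmx.1.2
  obtain ⟨cc, hcc⟩ : ∃ cc : LnT F → ({D : F.Ω → Prop // Cl2 (ptr F J) (vg w J F) A D} → Prop) ×
      (Fin r → Fin (D + 1 + 1) → ℤ), cc = fun x => (φR x, fun (l : Fin r) (a : Fin (D + 1 + 1)) =>
        if 0 ≤ (a : ℕ) then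
        ⌊(2 : ℝ) ^ (n l * J) * (dv ⌊w * J⌋₊ (fun s (_ : Fin m) => H s l) (c l) x).coeff a⌋ else 0) :=
    ⟨_, rfl⟩
  have hccY : ∀ ω, 0 < q' ω → cc (slam F W ω) = ((Y ω).1.1, (Y ω).2) := by
    intro ω hω
    rw [hcc, hY]
    refine Prod.ext ?_ ?_
    · show φR (slam F W ω) = cR F A w ω
      rw [hφR ω (hq'A ω hω), hW]
      rfl
    · rw [hW]
      rfl
  have hfin := Haj J hJ3 F A hA R cc Y
  rw [← hq', ← hW] at hfin
  have hfin := hfin ⟨?_, ?_, ?_, ?_, ?_, ?_⟩ ?_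
  · -- the end
    obtain ⟨E₁, hE₁⟩ : ∃ E₁ : ℝ, E₁ = 2 ^ (ε₁ * μ * J) := ⟨_, rfl⟩
    have hE1 : 1 ≤ E₁ := by
      rw [hE₁]
      exact Real.one_le_rpow (by norm_num) (by positivity)
    have hlE : Real.log E₁ ≤ ε₁ * μ * J := by
      rw [hE₁, Real.log_rpow (by norm_num)]
      have h7 : Real.log 2 ≤ 1 := by
        have := Real.log_two_lt_d9
        linarith
      have h8 : 0 ≤ ε₁ * μ * J := by positivity
      nlinarith
    rw [← hE₁] at hfin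
    have g1 : ∀ j, 1 ≤ j → j ≤ D + 1 → CH q' (jtC F c w H r j (n r)) Y ≤
        2 * (ε₁ * μ * J) + Real.log 7 + cF := by
      intro j hj hj'
      have h3 := Pool.AJX.ch_fine hq'l (fun ω => pj F R W (j - 1) ω) Y hE1
      have h4 : CH q' (fun ω => ⌊pj F R W (j - 1) ω / E₁⌋) Y ≤ ε₁ * μ * J :=
        le_trans (CH_mono_left h0 fun ω ω' _ _ e => by
          exact congrFun (Prod.ext_iff.mp (Prod.ext_iff.mp e).1).1
            (⟨j - 1, by omega⟩ : Fin (D + 1 + 1))) hfin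
      have h5 := CH_le_add h0 (jtC F c w H r j (n r)) (fun ω => ⌊pj F R W (j - 1) ω⌋) Y
      have h6 : CH q' (jtC F c w H r j (n r)) (fun ω => (⌊pj F R W (j - 1) ω⌋, Y ω)) ≤ cF := by
        rw [hcF]
        refine CH_pair hq'l _ _ fun ω ω' _ _ e => ?_
        have e1 := (Prod.ext_iff.mp e).1
        have e3 := (Int.abs_sub_lt_one_of_floor_eq_floor e1).le
        refine floor_sub_le ?_
        rw [hpj, hpj, show j - 1 + 1 = j by omega, ← mul_sub, abs_mul] at e3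
        have hp0 : (0 : ℝ) < 2 ^ ((n r - (j : ℝ) * w) * J) := Real.rpow_pos_of_pos (by norm_num) _
        rw [← mul_sub, abs_mul, abs_of_pos hp0]
        have hp1 : (0 : ℝ) < σ * (1 / 2 ^ (W + 1)) ^ j := by positivity
        rw [abs_of_pos hp1] at e3
        have e4 := (scale_le (s := n r) hw0 J j).2
        rw [← hσ, ← hW] at e4
        rw [← hW]
        calc (2 : ℝ) ^ ((n r - (j : ℝ) * w) * J) *
              |ojet F (c r) j (H (slam F W ω) r) ω - ojet F (c r) j (H (slam F W ω') r) ω'|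
            ≤ 2 ^ j * (σ * (1 / 2 ^ (W + 1)) ^ j) *
              |ojet F (c r) j (H (slam F W ω) r) ω - ojet F (c r) j (H (slam F W ω') r) ω'| :=
              mul_le_mul_of_nonneg_right e4 (abs_nonneg _)
          _ = 2 ^ j * (σ * (1 / 2 ^ (W + 1)) ^ j *
              |ojet F (c r) j (H (slam F W ω) r) ω - ojet F (c r) j (H (slam F W ω') r) ω'|) := by
              ring
          _ ≤ 2 ^ j * 1 := mul_le_mul_of_nonneg_left e3 (by positivity)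
          _ ≤ ((2 ^ (D + 1) : ℕ) : ℝ) := by
              rw [mul_one]
              push_cast
              exact pow_le_pow_right₀ (by norm_num) hj'
      linarith
    have g2 := pc_of_jt (F := F) (c := c) (D := D) (s := n r) (l := r) (j₀ := 1) hw0 hw1.le
      (hdeg r le_rfl) hq'l Y hYT (g := fun _ => 2 * (ε₁ * μ * J) + Real.log 7 + cF)
      (fun j h1 h2 => g1 j h1 h2) (fun j => by positivity)
    rw [Finset.sum_const, card_range, nsmul_eq_mul] at g2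
    push_cast at g2
    have g5 : (D + 2) * (2 * (ε₁ * μ * J)) ≤ ε / 4 * (μ * J) := by
      have := mul_le_mul_of_nonneg_right hεe hμJ
      linarith
    have g6 : 0 ≤ ε * (μ * J) := by positivity
    have g7 : CH q' (pcC F c D w H r 1 (n r)) Y ≤ ε * μ * J := by linarith
    rw [hY, hq'] at g7
    exact g7
  · -- the degree
    intro x
    rw [hR]
    refine (Polynomial.natDegree_derivative_le _).trans ?_
    have h2 := natDegree_jR (F := F) (w := W) (σ := σ) (κ := c r) (zl := fun x => x)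
      (G := fun x => H x r) hd x
    omega
  · -- the time
    rw [← hq']
    exact hT
  · -- the key
    intro ω ω' _ _ e
    rw [hY] at e
    simp only [Prod.mk.injEq] at e
    exact ⟨(Prod.ext_iff.mp e.1.2).1, (Prod.ext_iff.mp e.1.2).2⟩
  · -- the context
    rw [← hq']
    rw [CH_eq_zero h0 fun ω ω' hω hω' e => by rw [hccY ω hω, hccY ω' hω', e]]
    positivity
  · -- the value
    rw [← hq']
    have s1 := CH_le_add h0 (fun ω => ⌊pj F R W 0 ω⌋) u1 Y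
    have s2 := CH_pair (D := 1 + 1) hq'l (fun ω => ⌊pj F R W 0 ω⌋) (fun ω => (u1 ω, Y ω))
      (fun ω ω' _ _ e => by
        have h3 := hn1 ω ω' (Prod.ext_iff.mp e).1
        exact floor_sub_le (by push_cast; exact h3))
    have s4 : Real.log (2 * ((1 + 1 : ℕ) : ℝ) + 1) = Real.log 5 := by norm_num
    rw [s4] at s2
    have : 0 ≤ δ₁ / 4 * μ * J := by positivity
    linarith
  · -- the natural jets
    intro j hjD hj0
    rw [← hq']
    by_cases hj : j + 1 < D + 2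
    · have hqJp : (0 : ℝ) < 2 ^ (μ * J) := Real.rpow_pos_of_pos (by norm_num) _
      have s1 := CH_le_add h0 (fun ω => ⌊pj F R W j ω / 2 ^ (μ * J)⌋) (Uj (j + 1)) Y
      have s2 := CH_pair (D := 1 + 1) hq'l (fun ω => ⌊pj F R W j ω / 2 ^ (μ * J)⌋)
        (fun ω => (Uj (j + 1) ω, Y ω)) (fun ω ω' _ _ e => by
          have h3 := hnj j ω ω' (Prod.ext_iff.mp e).1
          refine floor_sub_le ?_
          rw [← sub_div, abs_div, abs_of_pos hqJp, div_le_iff₀ hqJp]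
          push_cast
          linarith)
      have s3 := hYj (j + 1) hj
      have s4 : Real.log (2 * ((1 + 1 : ℕ) : ℝ) + 1) = Real.log 5 := by norm_num
      rw [s4] at s2
      have : 0 ≤ δ₁ / 4 * μ * J := by positivity
      linarith
    · have e1 : ∀ ω, pj F R W j ω = 0 := by
        intro ω
        have h2 := natDegree_jR (F := F) (w := W) (σ := σ) (κ := c r) (zl := fun x => x)
          (G := fun x => H x r) hd (slam F W ω)
        have h3 := Polynomial.natDegree_derivative_le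
          (jR F W σ (c r) (fun x => x) (fun x => H x r) (slam F W ω))
        rw [hR]
        show (Polynomial.derivative^[j] (Polynomial.derivative
          (jR F W σ (c r) (fun x => x) (fun x => H x r) (slam F W ω)))).eval (uw F W ω) = 0
        rw [Polynomial.iterate_derivative_eq_zero (by omega), Polynomial.eval_zero]
      rw [CH_eq_zero h0 fun ω ω' _ _ _ => by rw [e1, e1]]
      positivity
  · -- the rows
    intro B hBA hPB i j hij hj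
    have hPB0 : 0 < Pe F.p B := lt_of_lt_of_le (by positivity) hPB
    have hBl : IsLaw (Pool.Agent.H49.Ent.cond F.p B True) := isLaw_cond F.isLaw hPB0
    have hij' : (i : ℝ) ≤ j := by exact_mod_cast hij
    have hN0 : (0 : ℝ) < N₀ := by exact_mod_cast hN₀
    have hge : 0 ≤ (1 - 1 / 2) * (μ * j / N₀ - μ * i / N₀) * Real.log 2 := by
      have h2 : μ * i / N₀ ≤ μ * j / N₀ := by gcongr
      have h3 : 0 ≤ Real.log 2 := Real.log_nonneg (by norm_num)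
      have h4 : 0 ≤ μ * j / N₀ - μ * i / N₀ := by linarith
      positivity
    have hx0 : 0 ≤ (μ * i / N₀) * J := by positivity
    have hx1 : (1 : ℝ) ≤ 2 ^ ((μ * i / N₀) * J) := Real.one_le_rpow (by norm_num) hx0
    obtain ⟨Xi, hXi⟩ : ∃ Xi : F.Ω → ℤ, Xi = fun ω => ⌊pj F R W 0 ω / 2 ^ ((μ * i / N₀) * J)⌋ :=
      ⟨_, rfl⟩
    obtain ⟨Zc, hZc⟩ : ∃ Zc : F.Ω → (({D : F.Ω → Prop // Cl2 (ptr F J) (vg w J F) A D} → Prop) ×
        (Fin r → Fin (D + 1 + 1) → ℤ)) × (ℕ × F.ζ), Zc = fun ω => (cc (slam F W ω), F.W ω) :=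
      ⟨_, rfl⟩
    have hZY : ∀ ω ω', 0 < q' ω → 0 < q' ω' → Zc ω = Zc ω' → Y ω = Y ω' := by
      intro ω ω' hω hω' e
      rw [hZc] at e
      simp only [Prod.mk.injEq] at e
      obtain ⟨e1, e2⟩ := e
      rw [hccY ω hω, hccY ω' hω'] at e1
      simp only [Prod.mk.injEq] at e1
      have e3 : (Y ω).1.2 = (Y ω').1.2 := by
        rw [hY]
        exact e2
      exact Prod.ext (Prod.ext e1.1 e3) e1.2
    have hZA : CH q' Xi Zc ≤ c₀ * (δ₁ * μ * J) := by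
      have s0 : CH q' Xi Zc ≤ CH q' Xi Y := CH_mono_cond h0 hZY
      have s1 := CH_le_add h0 Xi u1 Y
      have s2 : CH q' Xi (fun ω => (u1 ω, Y ω)) ≤ Real.log 5 := by
        have s4 : Real.log (2 * ((1 + 1 : ℕ) : ℝ) + 1) = Real.log 5 := by norm_num
        rw [← s4, hXi]
        refine CH_pair hq'l _ _ fun ω ω' _ _ e => ?_
        have h3 := hn1 ω ω' (Prod.ext_iff.mp e).1
        refine floor_sub_le ?_
        have hxp : (0 : ℝ) < 2 ^ ((μ * i / N₀) * J) := zero_lt_one.trans_le hx1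
        rw [← sub_div, abs_div, abs_of_pos hxp, div_le_iff₀ hxp]
        push_cast
        linarith
      have : 0 ≤ c₀ * δ₁ / 4 * μ * J := by positivity
      linarith
    rw [hq'] at hZA
    have h2 := Pool.OWN83.ch_part F.isLaw hBA hA hc₀ hPB Xi Zc hZA
    have h3 : CH (Pool.Agent.H49.Ent.cond F.p B True) (fun ω => ⌊pj F R W 0 ω /
        2 ^ ((μ * i / N₀) * J)⌋) (fun ω => (⌊pj F R W 0 ω / 2 ^ ((μ * j / N₀) * J)⌋,
          (cc (slam F W ω), F.W ω))) ≤ CH (Pool.Agent.H49.Ent.cond F.p B True) Xi Zc := by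
      rw [hXi, hZc]
      exact CH_mono_cond hBl.nonneg fun ω ω' _ _ e => (Prod.ext_iff.mp e).2
    have h4 : ((1 - 1 / 2) * (μ * j / N₀ - μ * i / N₀) * Real.log 2 + δ₁ * μ) * J =
      (1 - 1 / 2) * (μ * j / N₀ - μ * i / N₀) * Real.log 2 * J + δ₁ * μ * J := by ring
    rw [h4]
    have h5 : 0 ≤ (1 - 1 / 2) * (μ * j / N₀ - μ * i / N₀) * Real.log 2 * J :=
      mul_nonneg hge hJ0
    linarith

end Pool.NDC42
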