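import Pool.Agent.H71.AVG.Cof
import Pool.Agent.H71.AVG.Pf2
import Pool.Agent.H44.V0F.Vcl

/-!
# The letters of the near-dead step

The functions of one sample which the near-dead step uses, at a window `w`, over labels `H` of that
window (chain `c 0, c 1, c 2`, target `c 3`): `hgC` own heights at the own time, `xV` codes of the own
paths of `c 0, c 1`, `x0`, `xn`, `xg` the three records of near data. `NdE`: the entropy inequalities
between them, on an event `A`.
-/

set_option autoImplicit false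

namespace Pool.NDC42

open Finset Real MvPolynomial
open Pool.Agent.H49.Ent Pool.Agent.H32.Dense Pool.STK Pool.KA Pool.KSAT Pool.K2S Pool.PB Pool.GEN
open Pool.S6C Pool.RCD Pool.LA91 Pool.OWN68 Pool.CHT
open Pool.AVG71 (cod)
open Pool.V0F (cR)
open Pool.GRD (LbP)
open Pool.AJW (CfB)

variable {m J : ℕ}

/-- **The own height** of `c l` at the own time over the label `H · l` of the window `w`, `s J` digits. -/
noncomputable def hgC (F : Fam m J) (c : ℕ → Fin m) (w : ℝ)
    (H : LnT F → ℕ → MvPolynomial (Option (Fin m)) ℝ) (l : ℕ) (s : ℝ) (ω : F.Ω) : ℤ :=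
  ⌊(2 : ℝ) ^ (s * J) * ojet F (c l) 0 (H (slam F ⌊w * J⌋₊ ω) l) ω⌋

/-- **The code of the own path** of `c l` over the label `H · l` of the window `w`, orders `≥ j₀`,
`s J` digits of every coefficient (relative time). -/
noncomputable def pcC (F : Fam m J) (c : ℕ → Fin m) (D : ℕ) (w : ℝ)
    (H : LnT F → ℕ → MvPolynomial (Option (Fin m)) ℝ) (l j₀ : ℕ) (s : ℝ) (ω : F.Ω)
    (a : Fin (D + 1 + 1)) : ℤ :=
  cod F ⌊w * J⌋₊ j₀ (D + 1) (2 ^ (s * J)) (c l) (fun x => x) (fun x => H x l) ω a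

/-- **The near data** of the path of `c 0, c 1` and of `c 2` without the digits of its height behind
`nt`: a function of the line at the window `w`. -/
noncomputable def x0 (F : Fam m J) (A : F.Ω → Prop) (c : ℕ → Fin m) (D : ℕ) (w : ℝ) (n : ℕ → ℝ)
    (nt : ℝ) (H : LnT F → ℕ → MvPolynomial (Option (Fin m)) ℝ) (ω : F.Ω) :=
  ((cR F A w ω, F.Z ω), ((fun l : Fin 2 => pcC F c D w H l 0 (n l) ω),
    (pcC F c D w H 2 1 (n 2) ω, pcC F c D w H 2 0 nt ω)))

/-- The near data of the path of `c 0, c 1, c 2`. -/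
noncomputable def xn (F : Fam m J) (A : F.Ω → Prop) (c : ℕ → Fin m) (D : ℕ) (w : ℝ) (n : ℕ → ℝ)
    (nt : ℝ) (H : LnT F → ℕ → MvPolynomial (Option (Fin m)) ℝ) (ω : F.Ω) :=
  (x0 F A c D w n nt H ω, pcC F c D w H 2 0 (n 2) ω)

/-- The near data of the path of `c 0, c 1, c 2` and the own path of `c 3` without its constant. -/
noncomputable def xg (F : Fam m J) (A : F.Ω → Prop) (c : ℕ → Fin m) (D : ℕ) (w : ℝ) (n : ℕ → ℝ)
    (nt : ℝ) (H : LnT F → ℕ → MvPolynomial (Option (Fin m)) ℝ) (ω : F.Ω) :=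
  (xn F A c D w n nt H ω, pcC F c D w H 3 1 (n 3) ω)

/-- **The record of the point**: the record of a later window `x'`, the exact time, the near position. -/
noncomputable def rP (F : Fam m J) (A : F.Ω → Prop) (c : ℕ → Fin m) (w x' : ℝ) (n : ℕ → ℝ)
    (H : LnT F → ℕ → MvPolynomial (Option (Fin m)) ℝ) (ω : F.Ω) :=
  ((cR F A x' ω, F.W ω), ((fun l : Fin 2 => hgC F c w H l (n l) ω), hgC F c w H 2 (n 2) ω))

/-- **The letters of the near-dead step**, on an event `A`, for labels `H` of the window `w`: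
`n l` digits of the places `l ≤ 3`, `nt` = the digits of `c 2` up to the level of the window `t`. -/
structure NdE (F : Fam m J) (A : F.Ω → Prop) (c : ℕ → Fin m) (D : ℕ) (w t x' : ℝ) (n : ℕ → ℝ)
    (nt e : ℝ) (H : LnT F → ℕ → MvPolynomial (Option (Fin m)) ℝ) : Prop where
  /-- (A1), (D): the near velocity is free given the near point, and it determines the near data. -/
  fr : ∃ (Y : Type) (ud : F.Ω → Y),
    CH (Pool.Agent.H49.Ent.cond F.p A True) ud (fun ω => (cR F A w ω, F.W ω)) ≤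
      CH (Pool.Agent.H49.Ent.cond F.p A True) ud (rP F A c w x' n H) + e * J ∧
    CH (Pool.Agent.H49.Ent.cond F.p A True) (x0 F A c D w n nt H) (fun ω => ((cR F A w ω, F.W ω),
      ((fun l : Fin 2 => hgC F c w H l (n l) ω), (hgC F c w H 2 nt ω, ud ω)))) ≤ e * J ∧
    CH (Pool.Agent.H49.Ent.cond F.p A True) (xg F A c D w n nt H) (fun ω => ((cR F A w ω, F.W ω),
      ((fun l : Fin 2 => hgC F c w H l (n l) ω), (hgC F c w H 2 (n 2) ω, ud ω)))) ≤ e * J
  /-- the near position is few given the later record. -/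
  hx : CH (Pool.Agent.H49.Ent.cond F.p A True)
    (fun ω => ((fun l : Fin 2 => hgC F c w H l (n l) ω), hgC F c w H 2 (n 2) ω))
    (fun ω => (cR F A x' ω, F.W ω)) ≤ e * J
  /-- (A2): the near position from the near data and the time. -/
  ht : CH (Pool.Agent.H49.Ent.cond F.p A True)
    (fun ω => ((fun l : Fin 2 => hgC F c w H l (n l) ω), hgC F c w H 2 nt ω))
    (fun ω => (F.T ω, x0 F A c D w n nt H ω)) ≤ e * J
  hn : CH (Pool.Agent.H49.Ent.cond F.p A True) (hgC F c w H 2 (n 2))
    (fun ω => (F.T ω, xn F A c D w n nt H ω)) ≤ e * J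
  /-- (B): all near data from those without the far digits of `c 2`, and the converse count. -/
  xx : CH (Pool.Agent.H49.Ent.cond F.p A True) (xg F A c D w n nt H) (x0 F A c D w n nt H) ≤
    ((n 2 - nt) * Real.log 2 + e) * J
  gg : CH (Pool.Agent.H49.Ent.cond F.p A True) (xg F A c D w n nt H) (xn F A c D w n nt H) ≤ e * J
  /-- (C): the far digits of `c 2` are full given the record of `t` and the near data. -/
  fu : ((n 2 - nt) * Real.log 2 - e) * J ≤ CH (Pool.Agent.H49.Ent.cond F.p A True)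
    (hgC F c w H 2 (n 2)) (fun ω => ((cR F A t ω, F.W ω), x0 F A c D w n nt H ω))
  /-- (F): the time is full given the line. -/
  tm : ((1 - w) * Real.log 2 - e) * J ≤
    CH (Pool.Agent.H49.Ent.cond F.p A True) F.T (slam F ⌊w * J⌋₊)

/-- Labels of the window `w` in use: closed labels of degree `D`, of accuracy `e`, own paths with
coefficients of size at most `2 ^ J`. -/
def LbW (F : Fam m J) (A : F.Ω → Prop) (c : ℕ → Fin m) (D : ℕ) (w e : ℝ) (s : ℕ → ℝ)
    (H : LnT F → ℕ → MvPolynomial (Option (Fin m)) ℝ) : Prop :=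
  ∀ l ≤ 3, (∃ (V : Type) (z : PtT F → V) (z' : LnT F → V) (G : V → MvPolynomial (Option (Fin m)) ℝ),
    LbP F ((range l).image c) (c l) D J ⌊w * J⌋₊ ⌊(s l - e) * J⌋₊ A z z' G ∧
      ∀ x, G (z' x) = H x l) ∧
    CfB F ⌊w * J⌋₊ 1 (c l) A (fun x => x) (fun x => H x l)

/-- **The class statement**: for all labels of the window `w` of small accuracy, `NdE`. -/
def NdCls {m : ℕ} (S : PCl m) (c : ℕ → Fin m) (D : ℕ) (s : ℕ → ℝ) (w t x' : ℝ) (n : ℕ → ℝ)
    (nt e : ℝ) : Prop :=
  ∃ e₁ : ℝ, 0 < e₁ ∧ Bas S (fun _ F A =>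
    ∀ H : LnT F → ℕ → MvPolynomial (Option (Fin m)) ℝ, LbW F A c D w e₁ s H →
      NdE F A c D w t x' n nt e H)

end Pool.NDC42
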