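import Pool.Agent.H42.NDC.Ule
import Pool.Agent.H91.V0F.Exj

/-!
# The far digits of the last coordinate of the chain are full

`ful_core`: the height of `c 2` over labels of the window `w`, behind the digits up to the level of the
window `t ≥ w`, is full given the record of `t` and the heights of the places `0, 1`.
`fu_of`: the same given the near data `x0`, from the letters (fr).
-/

set_option autoImplicit false

namespace Pool.NDC42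

open Finset Real MvPolynomial
open Pool.Agent.H49.Ent Pool.Agent.H32.Dense Pool.STK Pool.KA Pool.KSAT Pool.K2S Pool.PB Pool.GEN
open Pool.S6C Pool.RCD Pool.LA91 Pool.OWN68 Pool.CHT
open Pool.V0F (cR mx_cR)
open Pool.GRD (LbP)
open Pool.AJW (CfB)

variable {m : ℕ}

/-- The exact positions of the places below `i` and the time. -/
noncomputable def yX (c : ℕ → Fin m) (i : ℕ) (J : ℕ) (F : Fam m J) (ω : F.Ω) :
    (Fin i → ℤ) × (ℕ × F.ζ) := ((fun l : Fin i => F.X J ω (c l)), F.W ω)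

theorem knx_yX (c : ℕ → Fin m) (i : ℕ) : KnX c i (yX c i) :=
  ⟨fun _ _ => ⟨fun x => x.2.1, fun _ => rfl⟩, fun _ _ => ⟨fun x l => if h : l < i then x.1 ⟨l, h⟩
    else 0, fun _ l hl => by
      show _ = if h : l < i then _ else _
      rw [dif_pos hl]
      rfl⟩⟩

theorem kn_yX (c : ℕ → Fin m) (i : ℕ) : Kn ((range 0).image c) 1 1 (yX c i) := by
  intro J F
  refine ⟨fun x => (x.2.1, (fun _ => 0), (fun _ => 0)), fun ω => ?_⟩
  have h1 : ∀ i : Fin m, i ∉ (range 0).image c := fun i => by simp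
  simp only [if_neg (h1 _)]
  rfl

/-- The last digits of a coordinate. -/
theorem x_fine {J : ℕ} {F : Fam m J} {q : F.Ω → ℝ} (hq : IsLaw q) {n : ℝ} (hn : n ≤ 1) (k : Fin m)
    {Γ : Type} (Y : F.Ω → Γ) : CH q (fun ω => F.X J ω k) Y ≤
      CH q (fun ω => F.X ⌊n * J⌋₊ ω k) Y + ((1 - n) * J + 1) * Real.log 2 + Real.log 7 := by
  have hJ0 : (0 : ℝ) ≤ J := Nat.cast_nonneg J
  have hl2 : 0 < Real.log 2 := Real.log_pos one_lt_two
  have hnJ : ⌊n * J⌋₊ ≤ J := floor_le hn J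
  have h1 := Pool.AJX.ch_fine hq (fun ω => (2 : ℝ) ^ J * F.x ω k) Y
    (E := 2 ^ (J - ⌊n * J⌋₊)) (one_le_pow₀ one_le_two)
  have e1 : ∀ ω, (2 : ℝ) ^ J * F.x ω k / 2 ^ (J - ⌊n * J⌋₊) = 2 ^ ⌊n * J⌋₊ * F.x ω k := by
    intro ω
    have e2 : (2 : ℝ) ^ J = 2 ^ ⌊n * J⌋₊ * 2 ^ (J - ⌊n * J⌋₊) := by
      rw [← pow_add]
      congr 1
      omega
    rw [e2]
    field_simp
  simp only [e1] at h1
  rw [Real.log_pow] at h1
  have h2 : ((J - ⌊n * J⌋₊ : ℕ) : ℝ) ≤ (1 - n) * J + 1 := by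
    rw [Nat.cast_sub hnJ]
    have := Nat.lt_floor_add_one (n * J)
    linarith
  have h3 := mul_le_mul_of_nonneg_right h2 hl2.le
  have h4 : CH q (fun ω => F.X J ω k) Y = CH q (fun ω => ⌊(2 : ℝ) ^ J * F.x ω k⌋) Y := rfl
  have h5 : CH q (fun ω => F.X ⌊n * J⌋₊ ω k) Y =
    CH q (fun ω => ⌊(2 : ℝ) ^ ⌊n * J⌋₊ * F.x ω k⌋) Y := rfl
  rw [h4, h5]
  linarith

section core

variable {S : PCl m} {C₀ : ℝ} {c : ℕ → Fin m} {w t u₁ u₂ φ : ℝ} {s s' rd rd' p n : ℕ → ℝ}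

/-- The digits of the position up to the level of the window are few bits. -/
theorem nat_few (htm : TmC S C₀)
    (hpos : ∀ (τ : ℝ) (J : ℕ) (F : Fam m J) (A : F.Ω → Prop), S.St τ J F A → 0 < Pe F.p A)
    (hct : Chn S c 0 3 t t u₂ s' rd') (hrd : 0 ≤ rd' 2) :
    Few S (fun (J : ℕ) (F : Fam m J) => ptr F J) (vg t) (yX c 2) (tQt m) (qXd m (c 2) (s' 2)) := by
  have hf : ∀ (J : ℕ) (F : Fam m J), ∃ χ : PtT F → PtT F, ∀ ω, ptr F J ω = χ (ptr F J ω) :=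
    fun J F => ⟨fun x => x, fun _ => rfl⟩
  have ht1 := hct.u0
  have k0 := (hct.s0 0 (Nat.zero_le _) (by norm_num)).2
  have k1 := (hct.s0 1 (Nat.zero_le _) (by norm_num)).2
  have k2 := hct.s0 2 (Nat.zero_le _) (by norm_num)
  obtain ⟨φ, hφ⟩ : ∃ φ : ℝ, φ = min (1 - t) (min (1 - s' 0) (1 - s' 1)) / 80 := ⟨_, rfl⟩
  have hφ0 : 0 < φ := by
    rw [hφ]
    have : 0 < min (1 - t) (min (1 - s' 0) (1 - s' 1)) :=
      lt_min (by linarith) (lt_min (by linarith) (by linarith))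
    linarith
  have m0 : min (1 - t) (min (1 - s' 0) (1 - s' 1)) ≤ 1 - t := min_le_left _ _
  have m1 : min (1 - t) (min (1 - s' 0) (1 - s' 1)) ≤ 1 - s' 0 :=
    (min_le_right _ _).trans (min_le_left _ _)
  have m2 : min (1 - t) (min (1 - s' 0) (1 - s' 1)) ≤ 1 - s' 1 :=
    (min_le_right _ _).trans (min_le_right _ _)
  have hjx := few_jx (f := fun (J : ℕ) (F : Fam m J) => ptr F J) (y := yX c 2) (i := 2)
    (p := s' 2) (N := s' 2) htm hpos hf (kn_yX c 2) (knx_yX c 2) hct (by norm_num) hφ0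
    (hct.r1 2 (Nat.zero_le _) (by norm_num)) le_rfl
    ((hct.att 2 (Nat.zero_le _) (by norm_num)).attG ht1.le le_rfl) (by linarith) k2.1
    (by linarith [k2.2]) (by push_cast; linarith) (by
      intro l hl
      push_cast
      rcases (by omega : l = 0 ∨ l = 1) with rfl | rfl
      · linarith
      · linarith)
  refine Few.trans hpos (exs_jet (j := 0) (N := s' 2) hrd (hct.att 2 (Nat.zero_le _) (by norm_num)))
    (Few0.few hpos (few0_jet htm hct.w0 ht1 ?_ _ _ _)) hjx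
  push_cast
  linarith

/-- **The far digits of `c 2` are full** given the record of `t` and the heights. -/
theorem ful_core (htm : TmC S C₀)
    (hpos : ∀ (τ : ℝ) (J : ℕ) (F : Fam m J) (A : F.Ω → Prop), S.St τ J F A → 0 < Pe F.p A)
    (hcw : Chn S c 0 3 w w u₁ s rd) (hct : Chn S c 0 3 t t u₂ s' rd') (hrd : 0 ≤ rd' 2)
    (hwt : w ≤ t) (hφ : 0 < φ) (hp : ∀ l ≤ 2, s l - φ ≤ p l) (hn : ∀ l ≤ 2, 0 ≤ n l ∧ n l ≤ 1)
    (t0 : ∀ l ≤ 2, n l - s l + 80 * φ ≤ 1 - w)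
    (t1 : ∀ i ≤ 2, ∀ l < i, n i - s i + 80 * φ ≤ 1 - s l) (hnt : s' 2 ≤ n 2) {ε : ℝ} (hε : 0 < ε) :
    ∃ e₀ : ℝ, 0 < e₀ ∧ ∀ D : ℕ, Bas S (fun J F A => ∀ H : LnT F → ℕ → MvPolynomial (Option (Fin m)) ℝ,
      LbV F A c 2 D w e₀ p H → ((n 2 - s' 2) * Real.log 2 - ε) * J ≤
        CH (Pool.Agent.H49.Ent.cond F.p A True) (hgC F c w H 2 (n 2))
          (fun ω => ((cR F A t ω, F.W ω), ((fun l : Fin 2 => hgC F c w H l (n l) ω),
            hgC F c w H 2 (s' 2) ω)))) := by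
  have hf : ∀ (J : ℕ) (F : Fam m J), ∃ χ : PtT F → PtT F, ∀ ω, ptr F J ω = χ (ptr F J ω) :=
    fun J F => ⟨fun x => x, fun _ => rfl⟩
  have hl2 : 0 < Real.log 2 := Real.log_pos one_lt_two
  have hw0 := hcw.w0
  have hw1 := hcw.u0
  have ht1 := hct.u0
  have k2 := hct.s0 2 (Nat.zero_le _) (by norm_num)
  -- heights from positions
  have hxj : ∀ i ≤ 2, ∀ N : ℝ, 0 ≤ N → N ≤ n i → Few S (fun (J : ℕ) (F : Fam m J) => ptr F J)
      (vg w) (yX c i) (qXd m (c i) N) (qJet m ((range i).image c) (c i) 0 w (p i) N) := by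
    intro i hi N hN0 hN
    refine few_xj (f := fun (J : ℕ) (F : Fam m J) => ptr F J) (y := yX c i)
      htm hpos hf (kn_yX c i) (knx_yX c i) hcw (by omega) hφ
      (hcw.r1 i (Nat.zero_le _) (by omega)) le_rfl
      ((hcw.att i (Nat.zero_le _) (by omega)).attG hw1.le le_rfl) (hp i hi) hN0
      (by linarith [(hn i hi).2]) (by push_cast; linarith [t0 i hi]) (by
        intro l hl
        push_cast
        linarith [t1 i hi l hl])
  have hjx := few_jx (f := fun (J : ℕ) (F : Fam m J) => ptr F J) (y := yX c 2) (i := 2)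
    (p := p 2) (N := n 2) htm hpos hf (kn_yX c 2) (knx_yX c 2) hcw (by norm_num) hφ
    (hcw.r1 2 (Nat.zero_le _) (by norm_num)) le_rfl
    ((hcw.att 2 (Nat.zero_le _) (by norm_num)).attG hw1.le le_rfl) (hp 2 le_rfl) (hn 2 le_rfl).1
    (by linarith [(hn 2 le_rfl).2]) (by push_cast; linarith [t0 2 le_rfl]) (by
      intro l hl
      push_cast
      linarith [t1 2 le_rfl l hl])
  obtain ⟨η, hη⟩ : ∃ η : ℝ, η = ε / 8 := ⟨_, rfl⟩
  have hη0 : 0 < η := by rw [hη]; linarith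
  obtain ⟨ea, hea, Ha⟩ := (hxj 0 (by norm_num) (n 0) (hn 0 (by norm_num)).1 le_rfl).mx hpos η hη0
  obtain ⟨eb, heb, Hb⟩ := (hxj 1 (by norm_num) (n 1) (hn 1 (by norm_num)).1 le_rfl).mx hpos η hη0
  obtain ⟨ec, hec, Hc⟩ := (hxj 2 le_rfl (s' 2) k2.1 hnt).mx hpos η hη0
  obtain ⟨ed, hed, Hd⟩ := hjx.mx hpos η hη0
  obtain ⟨ef, hef, Hf⟩ := (nat_few htm hpos hct hrd).mx hpos η hη0
  refine ⟨min (min ea eb) (min ec ed), lt_min (lt_min hea heb) (lt_min hec hed), fun D => ?_⟩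
  obtain ⟨Ma, Ja, hPa⟩ := lbv_P m D 0 (N := n 0) hw0 hw1.le
  obtain ⟨Mb, Jb, hPb⟩ := lbv_P m D 0 (N := n 1) hw0 hw1.le
  obtain ⟨Mc, Jc, hPc⟩ := lbv_P m D 0 (N := s' 2) hw0 hw1.le
  obtain ⟨Md, Jd, hPd⟩ := lbv_P m D 0 (N := n 2) hw0 hw1.le
  obtain ⟨ρ, hρ⟩ : ∃ ρ : ℝ, ρ = η / Real.log 2 := ⟨_, rfl⟩
  have hρ0 : 0 < ρ := by rw [hρ]; positivity
  have hρ1 : ρ * Real.log 2 = η := by rw [hρ]; exact div_mul_cancel₀ _ hl2.ne'
  obtain ⟨J₁, hJ₁⟩ := exists_nat_ge ((Real.log 2 + Real.log 7) / η)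
  refine Bas.mono (max (max Ja Jb) (max (max Jc Jd) J₁)) ((((Ha Ma).and (Hb Mb)).and
    ((Hc Mc).and (Hd Md))).and (((Hf 0).and (hct.ful ρ hρ0)).and (pos_bas hpos))) ?_
  rintro J hJ F A ⟨⟨⟨Ha, Hb⟩, Hc, Hd⟩, ⟨Hf, Hg⟩, hA⟩ H hH
  have hJa : Ja ≤ J := (le_max_left _ _).trans ((le_max_left _ _).trans hJ)
  have hJb : Jb ≤ J := (le_max_right _ _).trans ((le_max_left _ _).trans hJ)
  have hJ' := (le_max_right _ _).trans hJ
  have hJc : Jc ≤ J := (le_max_left _ _).trans ((le_max_left _ _).trans hJ')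
  have hJd : Jd ≤ J := (le_max_right _ _).trans ((le_max_left _ _).trans hJ')
  have hJ1 : (J₁ : ℝ) ≤ J := by exact_mod_cast (le_max_right _ _).trans hJ'
  have hJ0 : (0 : ℝ) ≤ J := Nat.cast_nonneg J
  have f1 : Real.log 2 + Real.log 7 ≤ η * J := by
    have := hJ₁.trans hJ1
    rw [div_le_iff₀ hη0] at this
    linarith
  obtain ⟨q, hq⟩ : ∃ q : F.Ω → ℝ, q = Pool.Agent.H49.Ent.cond F.p A True := ⟨_, rfl⟩
  have hql : IsLaw q := by
    rw [hq]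
    exact isLaw_cond F.isLaw hA
  have h0 := hql.nonneg
  have hmw := mx_cR (F := F) (A := A) hA w (half_pos hη0).le
  have hmt := mx_cR (F := F) (A := A) hA t (half_pos hη0).le
  have ee : min (min ea eb) (min ec ed) ≤ ea := (min_le_left _ _).trans (min_le_left _ _)
  have ee2 : min (min ea eb) (min ec ed) ≤ eb := (min_le_left _ _).trans (min_le_right _ _)
  have ee3 : min (min ea eb) (min ec ed) ≤ ec := (min_le_right _ _).trans (min_le_left _ _)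
  have ee4 : min (min ea eb) (min ec ed) ≤ ed := (min_le_right _ _).trans (min_le_right _ _)
  have a1 := Ha _ _ hmw (fun ω => F.X ⌊n 0 * J⌋₊ ω (c 0)) (hgC F c w H 0 (n 0)) (fun ω _ => rfl)
    ((qJet m _ _ _ _ _ _).mono le_rfl ee (hPa Ma le_rfl J hJa F A c 2 _ p H hH 0 (by norm_num)))
  have a2 := Hb _ _ hmw (fun ω => F.X ⌊n 1 * J⌋₊ ω (c 1)) (hgC F c w H 1 (n 1)) (fun ω _ => rfl)
    ((qJet m _ _ _ _ _ _).mono le_rfl ee2 (hPb Mb le_rfl J hJb F A c 2 _ p H hH 1 (by norm_num)))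
  have a3 := Hc _ _ hmw (fun ω => F.X ⌊s' 2 * J⌋₊ ω (c 2)) (hgC F c w H 2 (s' 2)) (fun ω _ => rfl)
    ((qJet m _ _ _ _ _ _).mono le_rfl ee3 (hPc Mc le_rfl J hJc F A c 2 _ p H hH 2 le_rfl))
  have a4 := Hd _ _ hmw (hgC F c w H 2 (n 2)) (fun ω => F.X ⌊n 2 * J⌋₊ ω (c 2))
    ((qJet m _ _ _ _ _ _).mono le_rfl ee4 (hPd Md le_rfl J hJd F A c 2 _ p H hH 2 le_rfl))
    (fun ω _ => rfl)
  have a5 := Hf _ _ hmt (fun _ => ()) (fun ω => F.X ⌊s' 2 * J⌋₊ ω (c 2)) (fun ω _ => rfl)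
    (fun ω _ => rfl)
  obtain ⟨⟨φ', hφ'⟩, ψ, hψ⟩ := hmt.1
  have a6 := Hg _ φ' ψ (fun ω hω => (hφ' ω hω).symm.trans (hψ ω hω)) 2 (Nat.zero_le _)
    (by norm_num)
  rw [← hq] at a1 a2 a3 a4 a5 a6 ⊢
  obtain ⟨Y, hY⟩ : ∃ Y : F.Ω → (Fin 2 → ℤ) × (_ × (ℕ × F.ζ)), Y = fun ω =>
    ((fun l : Fin 2 => F.X J ω (c l)), (cR F A t ω, F.W ω)) := ⟨_, rfl⟩
  obtain ⟨Xt, hXt⟩ : ∃ Xt : F.Ω → ℤ, Xt = fun ω => F.X ⌊s' 2 * J⌋₊ ω (c 2) := ⟨_, rfl⟩
  obtain ⟨Xn, hXn⟩ : ∃ Xn : F.Ω → ℤ, Xn = fun ω => F.X ⌊n 2 * J⌋₊ ω (c 2) := ⟨_, rfl⟩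
  obtain ⟨hh, hhh⟩ : ∃ hh : F.Ω → (Fin 2 → ℤ) × ℤ, hh = fun ω =>
    ((fun l : Fin 2 => hgC F c w H l (n l) ω), hgC F c w H 2 (s' 2) ω) := ⟨_, rfl⟩
  have eXt : ∀ ω, F.X ⌊s' 2 * J⌋₊ ω (c 2) = Xt ω := fun ω => by rw [hXt]
  simp only [eXt] at a3
  rw [← hXt] at a5
  rw [← hXn] at a4
  -- the relations
  have hYY : ∀ ω ω', Y ω = Y ω' → (∀ l : Fin 2, F.X J ω (c l) = F.X J ω' (c l)) ∧
      cR F A w ω = cR F A w ω' ∧ cR F A t ω = cR F A t ω' ∧ F.W ω = F.W ω' := by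
    intro ω ω' e
    rw [hY] at e
    simp only [Prod.mk.injEq] at e
    exact ⟨fun l => congrFun e.1 l, rec_mono hwt ht1.le e.2.1, e.2.1, e.2.2⟩
  have b1 : CH q (hgC F c w H 0 (n 0)) (fun ω => (Xt ω, Y ω)) ≤ η * J := by
    refine (CH_mono_cond h0 fun ω ω' _ _ e => ?_).trans a1
    obtain ⟨e1, e2, -, e4⟩ := hYY ω ω' (Prod.ext_iff.mp e).2
    exact Prod.ext (x_coarse (floor_le (hn 0 (by norm_num)).2 J) (e1 0)) (Prod.ext e2
      (Prod.ext (funext fun l => absurd l.2 (Nat.not_lt_zero _)) e4))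
  have b2 : CH q (hgC F c w H 1 (n 1)) (fun ω => (Xt ω, Y ω)) ≤ η * J := by
    refine (CH_mono_cond h0 fun ω ω' _ _ e => ?_).trans a2
    obtain ⟨e1, e2, -, e4⟩ := hYY ω ω' (Prod.ext_iff.mp e).2
    exact Prod.ext (x_coarse (floor_le (hn 1 (by norm_num)).2 J) (e1 1)) (Prod.ext e2
      (Prod.ext (funext fun l => e1 ⟨l, by omega⟩) e4))
  have b3 : CH q (hgC F c w H 2 (s' 2)) (fun ω => (Xt ω, Y ω)) ≤ η * J := by
    refine (CH_mono_cond h0 fun ω ω' _ _ e => ?_).trans a3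
    obtain ⟨e1, e2, -, e4⟩ := hYY ω ω' (Prod.ext_iff.mp e).2
    exact Prod.ext (Prod.ext_iff.mp e).1 (Prod.ext e2 (Prod.ext (funext fun l => e1 l) e4))
  have b4 : CH q Xn (fun ω => (hgC F c w H 2 (n 2) ω, (Xt ω, Y ω))) ≤ η * J := by
    refine (CH_mono_cond h0 fun ω ω' _ _ e => ?_).trans a4
    obtain ⟨e1, e2, -, e4⟩ := hYY ω ω' (Prod.ext_iff.mp (Prod.ext_iff.mp e).2).2
    exact Prod.ext (Prod.ext_iff.mp e).1 (Prod.ext e2 (Prod.ext (funext fun l => e1 l) e4))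
  have b5 : CH q Xt Y ≤ η * J := by
    refine (CH_mono_cond h0 fun ω ω' _ _ e => ?_).trans a5
    obtain ⟨e1, -, e3, e4⟩ := hYY ω ω' e
    exact Prod.ext rfl (Prod.ext e3 (Prod.ext (funext fun l => e1 l) e4))
  have b6 : ((1 - s' 2) - ρ) * Real.log 2 * J ≤ CH q (fun ω => F.X J ω (c 2)) Y := by
    refine a6.trans (le_of_eq (CH_congr h0 (fun _ _ _ _ h => (Prod.ext_iff.mp h).1)
      (fun _ _ _ _ h => (Prod.ext_iff.mp h).1) ?_ ?_))
    · intro ω ω' hω hω' e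
      rw [hY]
      simp only [Prod.mk.injEq] at e ⊢
      refine ⟨e.1, ?_, e.2.2⟩
      rw [hq] at hω hω'
      rw [hψ ω (of_cond_pos hω), hψ ω' (of_cond_pos hω')]
      exact e.2.1
    · intro ω ω' hω hω' e
      rw [hY] at e
      simp only [Prod.mk.injEq] at e ⊢
      refine ⟨e.1, ?_, e.2.2⟩
      have h3 := e.2.1
      rw [hq] at hω hω'
      rw [hψ ω (of_cond_pos hω), hψ ω' (of_cond_pos hω')] at h3
      exact h3
  have b7 : CH q hh (fun ω => (Xt ω, Y ω)) ≤ 3 * (η * J) := by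
    rw [hhh]
    refine (CH_subadd h0 _ _ _).trans ?_
    have c1 := CH_pis h0 (fun ω (l : Fin 2) => hgC F c w H l (n l) ω) (fun ω => (Xt ω, Y ω))
    rw [Fin.sum_univ_two] at c1
    have c2 : CH q (fun ω => hgC F c w H ((0 : Fin 2) : ℕ) (n ((0 : Fin 2) : ℕ)) ω)
      (fun ω => (Xt ω, Y ω)) ≤ η * J := b1
    have c3 : CH q (fun ω => hgC F c w H ((1 : Fin 2) : ℕ) (n ((1 : Fin 2) : ℕ)) ω)
      (fun ω => (Xt ω, Y ω)) ≤ η * J := b2
    linarith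
  have d1 := CH_le_add h0 (fun ω => F.X J ω (c 2)) Xt Y
  have d2 := x_fine hql (n := n 2) (hn 2 le_rfl).2 (c 2) (fun ω => (Xt ω, Y ω))
  rw [← hXn] at d2
  have d3 := CH_le_add h0 Xn (hgC F c w H 2 (n 2)) (fun ω => (Xt ω, Y ω))
  have d4 := CH_le_add h0 (hgC F c w H 2 (n 2)) hh (fun ω => (Xt ω, Y ω))
  have d5 : CH q (hgC F c w H 2 (n 2)) (fun ω => (hh ω, (Xt ω, Y ω))) ≤
      CH q (hgC F c w H 2 (n 2)) (fun ω => ((cR F A t ω, F.W ω),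
        ((fun l : Fin 2 => hgC F c w H l (n l) ω), hgC F c w H 2 (s' 2) ω))) := by
    refine CH_mono_cond h0 fun ω ω' _ _ e => ?_
    obtain ⟨-, -, e3, e4⟩ := hYY ω ω' (Prod.ext_iff.mp (Prod.ext_iff.mp e).2).2
    have e5 := (Prod.ext_iff.mp e).1
    rw [hhh] at e5
    exact Prod.ext (Prod.ext e3 e4) e5
  have f2 : ((1 - s' 2) - ρ) * Real.log 2 * J = (1 - s' 2) * Real.log 2 * J - η * J := by
    rw [← hρ1]
    ring
  have f3 : ε * J = 8 * (η * J) := by rw [hη]; ring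
  have f6 : 0 ≤ η * J := mul_nonneg hη0.le hJ0
  have f4 : ((1 - n 2) * J + 1) * Real.log 2 = (1 - n 2) * Real.log 2 * J + Real.log 2 := by ring
  have f5 : ((n 2 - s' 2) * Real.log 2 - ε) * J = (1 - s' 2) * Real.log 2 * J -
    (1 - n 2) * Real.log 2 * J - ε * J := by ring
  linarith

end core

section law

variable {J : ℕ} {F : Fam m J} {A : F.Ω → Prop} {c : ℕ → Fin m} {D : ℕ} {w t x' nt e : ℝ} {n : ℕ → ℝ}
  {H : LnT F → ℕ → MvPolynomial (Option (Fin m)) ℝ}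

/-- Fewer digits of a height. -/
theorem hg_coarse {q : F.Ω → ℝ} (hq : IsLaw q) {l : ℕ} {s s' : ℝ} (hs : s' ≤ s) {Γ : Type}
    (Y : F.Ω → Γ) (hY : ∀ ω ω', 0 < q ω → 0 < q ω' → Y ω = Y ω' →
      hgC F c w H l s ω = hgC F c w H l s ω') :
    CH q (hgC F c w H l s') Y ≤ Real.log 5 := by
  have hJ0 : (0 : ℝ) ≤ J := Nat.cast_nonneg J
  have s4 : Real.log (2 * ((1 + 1 : ℕ) : ℝ) + 1) = Real.log 5 := by norm_num
  rw [← s4]
  refine CH_pair (D := 1 + 1) hq _ _ fun ω ω' hω hω' e => ?_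
  obtain ⟨a, ha⟩ : ∃ a, a = ojet F (c l) 0 (H (slam F ⌊w * J⌋₊ ω) l) ω := ⟨_, rfl⟩
  obtain ⟨b, hb⟩ : ∃ b, b = ojet F (c l) 0 (H (slam F ⌊w * J⌋₊ ω') l) ω' := ⟨_, rfl⟩
  have h1 : ⌊(2 : ℝ) ^ (s * J) * a⌋ = ⌊(2 : ℝ) ^ (s * J) * b⌋ := by
    rw [ha, hb]
    exact hY ω ω' hω hω' e
  have h2 := fl_scale (s := 2 ^ (s' * J)) (t := 2 ^ (s * J)) (B := 1) (by positivity) (by
    rw [one_mul]
    exact Real.rpow_le_rpow_of_exponent_le (by norm_num) (mul_le_mul_of_nonneg_right hs hJ0))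
    (Real.rpow_pos_of_pos (by norm_num) _) h1
  unfold hgC
  rw [← ha, ← hb]
  exact floor_sub_le (by push_cast; exact h2)

/-- **(fu)** from (fr) and the fullness given the heights. -/
theorem fu_of (hA : 0 < Pe F.p A) (hwt : w ≤ t) (htx : t ≤ x') (hx1 : x' ≤ 1) (hnt : nt ≤ n 2)
    {Y : Type} {ud : F.Ω → Y}
    (h1 : CH (Pool.Agent.H49.Ent.cond F.p A True) ud (fun ω => (cR F A w ω, F.W ω)) ≤
      CH (Pool.Agent.H49.Ent.cond F.p A True) ud (rP F A c w x' n H) + e * J)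
    (h2 : CH (Pool.Agent.H49.Ent.cond F.p A True) (x0 F A c D w n nt H)
      (fun ω => ((cR F A w ω, F.W ω),
      ((fun l : Fin 2 => hgC F c w H l (n l) ω), (hgC F c w H 2 nt ω, ud ω)))) ≤ e * J)
    (h3 : ((n 2 - nt) * Real.log 2 - e) * J ≤
      CH (Pool.Agent.H49.Ent.cond F.p A True) (hgC F c w H 2 (n 2))
        (fun ω => ((cR F A t ω, F.W ω), ((fun l : Fin 2 => hgC F c w H l (n l) ω),
          hgC F c w H 2 nt ω)))) (hJ : Real.log 5 ≤ e * J) :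
    ((n 2 - nt) * Real.log 2 - 4 * e) * J ≤ CH (Pool.Agent.H49.Ent.cond F.p A True)
      (hgC F c w H 2 (n 2)) (fun ω => ((cR F A t ω, F.W ω), x0 F A c D w n nt H ω)) := by
  obtain ⟨q, hq⟩ : ∃ q : F.Ω → ℝ, q = Pool.Agent.H49.Ent.cond F.p A True := ⟨_, rfl⟩
  have hql : IsLaw q := by
    rw [hq]
    exact isLaw_cond F.isLaw hA
  have h0 := hql.nonneg
  rw [← hq] at h1 h2 h3 ⊢
  obtain ⟨S, hS⟩ : ∃ S : F.Ω → (_ × (ℕ × F.ζ)) × ((Fin 2 → ℤ) × ℤ), S = fun ω =>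
    ((cR F A t ω, F.W ω), ((fun l : Fin 2 => hgC F c w H l (n l) ω), hgC F c w H 2 nt ω)) :=
    ⟨_, rfl⟩
  rw [← hS] at h3
  have b1 := CH_bayes h0 (hgC F c w H 2 (n 2)) ud S
  have b2 : CH q ud S ≤ CH q ud (fun ω => (cR F A w ω, F.W ω)) := by
    refine CH_mono_cond h0 fun ω ω' _ _ e => ?_
    rw [hS] at e
    simp only [Prod.mk.injEq] at e ⊢
    exact ⟨rec_mono hwt (htx.trans hx1) e.1.1, e.1.2⟩
  have b3 : CH q (hgC F c w H 2 nt) (rP F A c w x' n H) ≤ e * J := by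
    refine (hg_coarse hql hnt _ fun ω ω' _ _ e => ?_).trans hJ
    unfold rP at e
    simp only [Prod.mk.injEq] at e
    exact e.2.2
  have b4 := CH_le_add h0 ud (hgC F c w H 2 nt) (rP F A c w x' n H)
  have b5 : CH q ud (rP F A c w x' n H) ≤ e * J + CH q ud (fun ω => (hgC F c w H 2 (n 2) ω, S ω)) := by
    have c1 : CH q ud (fun ω => (hgC F c w H 2 nt ω, rP F A c w x' n H ω)) ≤
        CH q ud (fun ω => (hgC F c w H 2 (n 2) ω, S ω)) := by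
      refine CH_mono_cond h0 fun ω ω' _ _ e => ?_
      unfold rP at e
      rw [hS]
      simp only [Prod.mk.injEq] at e ⊢
      exact ⟨e.2.2.2, ⟨rec_mono htx hx1 e.2.1.1, e.2.1.2⟩, e.2.2.1, e.1⟩
    linarith
  have b6 := CH_le_add h0 (hgC F c w H 2 (n 2)) (x0 F A c D w n nt H) (fun ω => (ud ω, S ω))
  have b7 : CH q (x0 F A c D w n nt H) (fun ω => (ud ω, S ω)) ≤ e * J := by
    refine (CH_mono_cond h0 fun ω ω' _ _ e => ?_).trans h2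
    rw [hS] at e
    simp only [Prod.mk.injEq] at e ⊢
    exact ⟨⟨rec_mono hwt (htx.trans hx1) e.2.1.1, e.2.1.2⟩, e.2.2.1, e.2.2.2, e.1⟩
  have b8 : CH q (hgC F c w H 2 (n 2)) (fun ω => (x0 F A c D w n nt H ω, (ud ω, S ω))) ≤
      CH q (hgC F c w H 2 (n 2)) (fun ω => ((cR F A t ω, F.W ω), x0 F A c D w n nt H ω)) := by
    refine CH_mono_cond h0 fun ω ω' _ _ e => ?_
    rw [hS] at e
    simp only [Prod.mk.injEq] at e ⊢
    exact ⟨⟨e.2.2.1.1, e.2.2.1.2⟩, e.1⟩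
  have b9 : CH q (fun ω => ud ω) S = CH q ud S := rfl
  have f1 : ((n 2 - nt) * Real.log 2 - 4 * e) * J =
    ((n 2 - nt) * Real.log 2 - e) * J - 3 * (e * J) := by ring
  linarith

end law

end Pool.NDC42
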