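import Pool.Agent.H42.NDC.Asm

/-!
# The path of the target without its constant: the numbers

`gle_num`: `g_cls` for windows `v = w - y₁ q` and digits `C i q` behind the natural ones.
-/

set_option autoImplicit false

namespace Pool.NDC42

open Finset Real MvPolynomial
open Pool.Agent.H49.Ent Pool.Agent.H32.Dense Pool.STK Pool.KA Pool.KSAT Pool.K2S Pool.PB Pool.GEN
open Pool.S6C Pool.RCD Pool.LA91 Pool.OWN68 Pool.CHT Pool.AJW
open Pool.V0F (cR mx_cR)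
open Pool.AJX (LbX JetX)

/-- The lengths of the natural digits of the places at `v`. -/
noncomputable def lN (K : ℕ) (a b C₃ : ℝ) (i : ℕ) : ℝ :=
  (b + K + 4) * (C₃ + 1) + (if i ≤ 1 then (a + 1) * (C₃ + 1) else 0) +
    (if i = 0 then 2 * (C₃ + 1) else 0)

/-- The digits of the chain which suffice. -/
noncomputable def cN (K : ℕ) (a b C₃ : ℝ) (i : ℕ) : ℝ := lN K a b C₃ i + 4 + (K + 2) * (C₃ + 1)

/-- The margin. -/
noncomputable def mN (K : ℕ) (a b C₃ : ℝ) : ℝ :=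
  lN K a b C₃ 0 + (K + 4 + a + b) * (C₃ + 1) + 8

variable {m : ℕ}

theorem gle_num (K : ℕ) {a b C₃ h ε' : ℝ} (ha : 1 ≤ a) (hb : 1 ≤ b) (hC₃ : 0 ≤ C₃) (hh : 0 < h)
    (hh1 : h ≤ 1) (hε' : 0 < ε') : ∃ δ₁ : ℝ, 0 < δ₁ ∧ ∀ {S : PCl m} {Ct : ℝ} (_ : TmC S Ct)
    (_ : ∀ (τ : ℝ) (J : ℕ) (F : Fam m J) (A : F.Ω → Prop), S.St τ J F A → 0 < Pe F.p A)
    {c : ℕ → Fin m} {v w q u₁ m₁ : ℝ} {s p E rd rw pw n C Sl : ℕ → ℝ}
    (_ : 0 < q) (_ : w = v + (C₃ + 1) * q) (_ : 0 ≤ v) (_ : mN K a b C₃ * q ≤ 1 - w)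
    (_ : Sl 0 = 1) (_ : Sl 1 = 1) (_ : Sl 2 = a) (_ : Sl 3 = b)
    (_ : ∀ i ≤ 3, |s i - p i - Sl i * ((C₃ + 1) * q)| ≤ q / 8) (_ : 0 ≤ p 3)
    (_ : ∀ i ≤ 3, 0 ≤ p i ∧ 0 ≤ E i ∧ p i + E i + m₁ ≤ 1 ∧ 0 ≤ rd i ∧ rd i + m₁ ≤ 1)
    (_ : mN K a b C₃ * q ≤ m₁) (_ : Chn S c 0 3 w w u₁ s rw)
    (_ : ∀ N : ℝ, Exs S (qJet m ((range 3).image c) (c 3) 0 w (s 3) N))
    (_ : ∀ q' : ℝ, 0 ≤ q' → q' ≤ s 3 - p 3 →
      RawN S ((range 3).image c) (c 3) (p 3) q' h (δ₁ * q))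
    (_ : ∀ e : ℝ, 0 < e → Bas S (fun J F A => ∃ (V : Type) (z : PtT F → V) (z' : LnT F → V)
      (g : V → ℕ → MvPolynomial (Option (Fin m)) ℝ), LbX F c 0 4 K e E v rd p A z z' g))
    (_ : ∀ i < 3, s i - q / 20 ≤ pw i) (_ : p 3 ≤ pw 3)
    (_ : ∀ i < 3, n i = s i + C i * q ∧ cN K a b C₃ i ≤ C i ∧ (C i + 3) * q ≤ 1 - w)
    (_ : ∀ i < 3, ∀ l < i, C i + 1 ≤ C l) {N : ℝ} (_ : N ≤ s 3 + C₃ * q) (D : ℕ) (_ : D ≤ K),
    BLb S c 3 D w pw (fun J F A H => CH (Pool.Agent.H49.Ent.cond F.p A True)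
      (pcC F c D w H 3 1 N)
      (fun ω => (F.T ω, (cR F A w ω, fun l : Fin 3 => pcC F c D w H l 0 (n l) ω))) ≤
        ε' * q * J) := by
  obtain ⟨y₁, hy₁⟩ : ∃ y₁ : ℝ, y₁ = C₃ + 1 := ⟨_, rfl⟩
  have hy1 : 1 ≤ y₁ := by linarith
  have hK0 : (0 : ℝ) ≤ K := Nat.cast_nonneg K
  have hby : 0 ≤ b * y₁ := mul_nonneg (by linarith) (by linarith)
  have hay : 0 ≤ a * y₁ := mul_nonneg (by linarith) (by linarith)
  have hay1 : y₁ ≤ a * y₁ := le_mul_of_one_le_left (by linarith) ha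
  have hKy : 0 ≤ (K : ℝ) * y₁ := mul_nonneg hK0 (by linarith)
  obtain ⟨δ, hδ, Hg⟩ := g_cls K 3 hh hh1 (ε := ε' / (b * y₁ + 1)) (by positivity)
  refine ⟨δ / 2, by positivity, ?_⟩
  intro S Ct htm hpos c v w q u₁ m₁ s p E rd rw pw n C Sl hq hwv hv0 h1w S0 S1 S2 S3 hsp hp3 hE hm₁
    hch hexs hraw hlab hpw hpw3 hn hC N hN D hD
  rw [← hy₁] at hwv hsp
  obtain ⟨ρ, hρ⟩ : ∃ ρ : ℝ, ρ = min (1 / 8) (δ / 16) * q := ⟨_, rfl⟩
  have hρ0 : 0 < ρ := by rw [hρ]; exact mul_pos (lt_min (by norm_num) (by positivity)) hq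
  have hρ1 : ρ ≤ q / 8 := by
    rw [hρ]
    have := mul_le_mul_of_nonneg_right (min_le_left (1 / 8) (δ / 16)) hq.le
    linarith
  have hρ2 : ρ ≤ δ * q / 16 := by
    rw [hρ]
    have := mul_le_mul_of_nonneg_right (min_le_right (1 / 8) (δ / 16)) hq.le
    linarith
  obtain ⟨Y, hY⟩ : ∃ Y : ℝ, Y = y₁ * q := ⟨_, rfl⟩
  have hYq : q ≤ Y := by rw [hY]; exact le_mul_of_one_le_left hq.le hy1
  have hYC : Y = C₃ * q + q := by rw [hY, hy₁]; ring
  have hKY : 0 ≤ (K : ℝ) * Y := mul_nonneg hK0 (by linarith)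
  have haY : Y ≤ a * Y := le_mul_of_one_le_left (by linarith) ha
  have hbY : Y ≤ b * Y := le_mul_of_one_le_left (by linarith) hb
  have d0 := abs_le.1 (hsp 0 (by norm_num))
  have d1 := abs_le.1 (hsp 1 (by norm_num))
  have d2 := abs_le.1 (hsp 2 (by norm_num))
  have d3 := abs_le.1 (hsp 3 le_rfl)
  rw [S0, ← hY, one_mul] at d0
  rw [S1, ← hY, one_mul] at d1
  rw [S2, ← hY] at d2
  rw [S3, ← hY] at d3
  have hwY : w - v = Y := by rw [hwv, hY]; ring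
  -- the numbers
  have e0 : lN K a b C₃ 0 * q = (b * Y + K * Y + 4 * Y) + (a * Y + Y) + 2 * Y := by
    unfold lN
    rw [← hy₁, if_pos (by norm_num), if_pos rfl, hY]
    ring
  have e1 : lN K a b C₃ 1 * q = (b * Y + K * Y + 4 * Y) + (a * Y + Y) := by
    unfold lN
    rw [← hy₁, if_pos le_rfl, if_neg one_ne_zero, hY]
    ring
  have e2 : lN K a b C₃ 2 * q = b * Y + K * Y + 4 * Y := by
    unfold lN
    rw [← hy₁, if_neg (by norm_num), if_neg two_ne_zero, hY]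
    ring
  have eM : mN K a b C₃ * q = (b * Y + K * Y + 4 * Y) + (a * Y + Y) + 2 * Y +
      (K * Y + 4 * Y + a * Y + b * Y) + 8 * q := by
    unfold mN
    rw [add_mul, add_mul, e0, ← hy₁, hY]
    ring
  rw [eM] at h1w hm₁
  obtain ⟨nv, hnv⟩ : ∃ nv : ℕ → ℝ, nv = fun i => s i + lN K a b C₃ i * q + q := ⟨_, rfl⟩
  have hEE : ∀ i ≤ 3, E i ≤ 1 := fun i hi => by
    obtain ⟨z1, z2, z3, z4, z5⟩ := hE i hi
    linarith
  obtain ⟨lv, hlv⟩ : ∃ lv : ℕ → ℝ, lv = fun i => lN K a b C₃ i * q := ⟨_, rfl⟩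
  have l0 : lv 0 = (b * Y + K * Y + 4 * Y) + (a * Y + Y) + 2 * Y := by rw [hlv]; exact e0
  have l1 : lv 1 = (b * Y + K * Y + 4 * Y) + (a * Y + Y) := by rw [hlv]; exact e1
  have l2 : lv 2 = b * Y + K * Y + 4 * Y := by rw [hlv]; exact e2
  have nve : ∀ i, nv i = s i + lv i + q := fun i => by rw [hnv, hlv]
  obtain ⟨qJ, hqJ⟩ : ∃ qJ : ℝ, qJ = s 3 - p 3 - ρ := ⟨_, rfl⟩
  have q1 : q / 2 ≤ qJ := by linarith
  have q2 : qJ ≤ b * Y + q / 8 := by linarith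
  have hq0 : 0 < qJ := by linarith
  -- the steps between the windows
  have st : ∀ i < 3, 0 < lv i ∧ lv i ≤ lv 0 ∧ lv 2 ≤ lv i ∧ s i ≤ p i + (a * Y + q / 8) ∧
      p i ≤ s i + q / 8 := by
    intro i hi
    rcases (by omega : i = 0 ∨ i = 1 ∨ i = 2) with rfl | rfl | rfl
    · refine ⟨by linarith, le_rfl, by linarith, by linarith, by linarith⟩
    · refine ⟨by linarith, by linarith, by linarith, by linarith, by linarith⟩
    · refine ⟨by linarith, by linarith, le_rfl, by linarith, by linarith⟩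
  have st2 : ∀ i < 3, ∀ l < i, s i + lv i + q / 4 ≤ p i + lv l + q / 2 ∧
      s i + lv i + 3 * q / 4 ≤ p i + lv l + q := by
    intro i hi l hl
    rcases (by omega : i = 1 ∧ l = 0 ∨ i = 2 ∧ l = 0 ∨ i = 2 ∧ l = 1) with
      ⟨rfl, rfl⟩ | ⟨rfl, rfl⟩ | ⟨rfl, rfl⟩
    · constructor <;> linarith
    · constructor <;> linarith
    · constructor <;> linarith
  have st3 : ∀ i < 3, ∀ l < i, s i + lv i + ρ ≤ p i + lv l := by
    intro i hi l hl
    rcases (by omega : i = 1 ∧ l = 0 ∨ i = 2 ∧ l = 0 ∨ i = 2 ∧ l = 1) with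
      ⟨rfl, rfl⟩ | ⟨rfl, rfl⟩ | ⟨rfl, rfl⟩
    · linarith
    · linarith
    · linarith
  have st4 : ∀ i < 3, ∀ l < i, lv i + q ≤ lv l := by
    intro i hi l hl
    rcases (by omega : i = 1 ∧ l = 0 ∨ i = 2 ∧ l = 0 ∨ i = 2 ∧ l = 1) with
      ⟨rfl, rfl⟩ | ⟨rfl, rfl⟩ | ⟨rfl, rfl⟩
    · linarith
    · linarith
    · linarith
  have HJ : JetX S c 0 3 v w (1 - v - q) qJ ρ (q / 8) E p s nv lv rd K := by
    refine ⟨Nat.zero_le _, hv0, by linarith, hρ0, by linarith, hq0, by linarith, hp3,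
      fun i _ hi => ⟨(hE i hi).2.1, hEE i hi⟩, ?_, ⟨u₁, rw, hch⟩, hexs,
      fun i _ hi => ⟨(hE i hi).2.2.2.1, ?_⟩, fun i _ hi => ?_, by linarith,
      fun i _ hi => (st i hi).1, fun i _ hi => ?_, fun i _ hi l _ hl => ?_, fun i _ hi => ?_,
      fun l _ hl => ?_, ?_⟩
    · obtain ⟨z1, z2, z3, z4, z5⟩ := hE 3 le_rfl
      linarith
    · obtain ⟨z1, z2, z3, z4, z5⟩ := hE i hi
      linarith
    · obtain ⟨z1, z2, z3, z4, z5⟩ := hE i hi.le
      obtain ⟨y1, y2, y3, y4, y5⟩ := st i hi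
      rw [nve]
      linarith
    · rw [nve]
      linarith
    · rcases le_total (p i) (s i) with h1 | h1
      · rw [min_eq_left h1]
        exact st3 i hi l hl
      · rw [min_eq_right h1]
        have := st4 i hi l hl
        linarith
    · obtain ⟨y1, y2, y3, y4, y5⟩ := st i hi
      rcases le_total (p i) (s i) with h1 | h1
      · rw [min_eq_left h1]
        linarith
      · rw [min_eq_right h1]
        linarith
    · obtain ⟨y1, y2, y3, y4, y5⟩ := st l hl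
      rw [hwY]
      have : ((K : ℝ) + 2) * Y = K * Y + 2 * Y := by ring
      linarith
    · rw [hwY]
      have : ((K : ℝ) + 2) * Y = K * Y + 2 * Y := by ring
      linarith
  have hKc : (((K + 2 : ℕ) : ℕ) : ℝ) * (w - v) = K * Y + 2 * Y := by
    rw [hwY]
    push_cast
    ring
  have hcN : ∀ i < 3, lv i + 4 * q + (K * Y + 2 * Y) ≤ C i * q := by
    intro i hi
    have h1 := mul_le_mul_of_nonneg_right (hn i hi).2.1 hq.le
    have h2 : cN K a b C₃ i * q = lv i + 4 * q + (K * Y + 2 * Y) := by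
      rw [hlv, hY]
      unfold cN
      rw [← hy₁]
      ring
    linarith
  have hδJ : δ * q / 2 ≤ δ * qJ := by
    have := mul_le_mul_of_nonneg_left q1 hδ.le
    linarith
  obtain ⟨e₀, he₀, HH⟩ := Hg htm hpos HJ (by
      push_cast
      linarith) (by linarith) (σ := q / 20) (pw := pw) (n := n) (by linarith) hpw hpw3
    (fun i hi => by
      have h1 := hcN i hi
      have h2 := (st i hi).1
      rw [(hn i hi).1]
      linarith)
    (fun i hi => by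
      have h1 := (hn i hi).2.2
      rw [(hn i hi).1]
      linarith)
    (fun i hi l hl => by
      have h1 := mul_le_mul_of_nonneg_right (hC i hi l hl) hq.le
      rw [(hn i hi).1, (hn l (by omega)).1]
      linarith)
    (fun i hi => by
      have h1 := hcN i hi
      rw [(hn i hi).1, nve, hKc]
      linarith)
    (fun i hi => by
      obtain ⟨y1, y2, y3, y4, y5⟩ := st i hi
      have h1 := hpw i hi
      rw [nve, hKc]
      rcases le_total (pw i) (p i) with h2 | h2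
      · rw [min_eq_left h2]
        linarith
      · rw [min_eq_right h2]
        linarith)
    (fun i hi l hl => by
      obtain ⟨y1, y2, y3, y4, y5⟩ := st i hi
      have h1 := hpw i hi
      have h2 := hcN l (by omega)
      have h3 := st4 i hi l hl
      have h4 := st3 i hi l hl
      rw [nve, hKc, (hn l (by omega)).1]
      rcases le_total (pw i) (p i) with h5 | h5
      · rw [min_eq_left h5]
        linarith
      · rw [min_eq_right h5]
        linarith)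
    (fun q' h1 h2 => (hraw q' h1 (by linarith)).mono (by linarith)) hlab (N := N) (by linarith)
  refine ⟨e₀, he₀, Bas.mono 0 (HH e₀ he₀ le_rfl D hD) ?_⟩
  intro J _ F A h1 H hH
  refine (h1 H hH).trans (mul_le_mul_of_nonneg_right ?_ (Nat.cast_nonneg J))
  have h2 : ε' / (b * y₁ + 1) * qJ ≤ ε' / (b * y₁ + 1) * ((b * y₁ + 1) * q) := by
    refine mul_le_mul_of_nonneg_left ?_ (by positivity)
    have : (b * y₁ + 1) * q = b * Y + q := by rw [hY]; ring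
    linarith
  refine h2.trans (le_of_eq ?_)
  field_simp

end Pool.NDC42
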