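import Pool.Agent.H42.NDC.Rla
import Pool.Agent.H42.D2.Nqb
import Pool.Agent.H3.V0F.Ag

/-!
# The class statement of the near-dead step at a record
-/

set_option autoImplicit false

namespace Pool.NDC42

open Finset Real MvPolynomial
open Pool.Agent.H49.Ent Pool.Agent.H32.Dense Pool.STK Pool.KA Pool.KSAT Pool.K2S Pool.PB Pool.S6C
open Pool.GEN Pool.RCD Pool.CHT Pool.CHX Pool.LA91 Pool.PKG Pool.OWN68
open Pool.V0F (cR mx_cR Lad FrI Nst LbE)

section

variable {m : ℕ} {S : PCl m} {al : ℝ} {g₀ : ℝ → ℝ} {P : List (Fin m) × Fin m → ℝ → ℝ → ℝ}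
  {θ : ℝ} {P₂ : ℕ → List (Fin m) × Fin m → ℝ → ℝ → ℝ} {θ₂ Eb e₂ : ℕ → ℝ}
  {c : ℕ → Fin m} {Pt : ℝ → ℝ → ℝ} {r : ℝ → ℝ} {h K₀ g : ℝ} {L T : ℕ → ℝ → ℝ → ℝ}
  {Sl : ℕ → ℝ} {κ : ℕ → Kg} {G : Set ℝ} {S₀ N : ℕ} {A V : ℕ → ℝ} {S₂ N' : ℕ} {V' : ℕ → ℝ}
  {K ε q t : ℝ}
  (R : RecG S al g₀ P θ P₂ θ₂ Eb e₂ c Pt r h K₀ g L T Sl κ G S₀ N A V S₂ N' V' K ε q t)
include R

/-- **The rows which are not full**, anywhere in the box. -/
theorem raw_at (hm : 2 ≤ m) (hε : 0 < ε) {p y δ : ℝ} (hp : 0 ≤ p) (hpy : p + y ≤ 1)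
    (h1 : |p - L (m - 1) t t| ≤ K * q) (h2 : |p + y - L (m - 1) t t| ≤ K * q)
    (hδ : 2 * (ε * q) ≤ δ) : RawN S ((range (m - 1)).image c) (c (m - 1)) p y h δ := by
  have hq := R.q0
  have hεq : 0 < ε * q := mul_pos hε hq
  have hI : (univ.erase (c (m - 1)) : Finset (Fin m)) = (range (m - 1)).image c := by
    have hinj := R.inj
    have h1 : (range (m - 1)).image c ⊆ univ.erase (c (m - 1)) := by
      intro j hj
      obtain ⟨l, hl, rfl⟩ := mem_image.1 hj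
      have hl' := mem_range.1 hl
      refine mem_erase.2 ⟨fun h2 => ?_, mem_univ _⟩
      have := hinj (show l ∈ Set.Iio m from Set.mem_Iio.2 (by omega))
        (show m - 1 ∈ Set.Iio m from Set.mem_Iio.2 (by omega)) h2
      omega
    refine (Finset.eq_of_subset_of_card_le h1 ?_).symm
    rw [card_erase_of_mem (mem_univ _), card_univ, Fintype.card_fin,
      card_image_of_injOn, card_range]
    intro a ha b hb hab
    have ha' := mem_range.1 (mem_coe.1 ha)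
    have hb' := mem_range.1 (mem_coe.1 hb)
    exact hinj (Set.mem_Iio.2 (by omega)) (Set.mem_Iio.2 (by omega)) hab
  rw [← hI]
  refine rawN_of R.tmc R.rate (δ := ε * q) hp hpy (fun z hz0 hzy => ?_) hεq.le (by linarith)
  have g1 := abs_le.1 h1
  have g2 := abs_le.1 h2
  have h3 := R.row (p + z) (p + y) (by
    rw [abs_le]
    constructor <;> linarith) h2 (by linarith)
  have e1 : p + y - (p + z) = y - z := by ring
  rw [e1] at h3
  exact h3

end

/-- **The class statement from numbers**: `u` the unit, all windows `w + s u`, `|s| ≤ B`, are in the box. -/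
theorem nd_abs {m : ℕ} (Kd : ℕ) {a b C₃ h : ℝ} (ha : 1 < a) (hb : 1 ≤ b) (hC₃ : 0 ≤ C₃) (hh : 0 < h)
    (hh1 : h ≤ 1) {C : ℕ → ℝ} {Rt ν : ℝ} (hC3 : C 3 = C₃) (hcN : ∀ i < 3, cN Kd a b C₃ i ≤ C i)
    (hC2 : a ≤ C 2) (hC1 : kN a (C 2) ≤ C 1) (hC12 : C 2 + 2 ≤ C 1) (hC0 : C 1 + 3 ≤ C 0)
    (hRt : 0 ≤ Rt) (haR : a * Rt + 1 ≤ C 2) (hν : C 0 + 80 ≤ ν) (hRν : Rt ≤ ν) {CF : ℕ}
    (hCF : 2 * ν + 40 ≤ CF) {ε' : ℝ} (hε' : 0 < ε') :
    ∃ δ₁ dd : ℝ, 0 < δ₁ ∧ 0 < dd ∧ ∀ {S : PCl m} {Ct : ℝ} (_ : TmC S Ct)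
    (_ : ∀ (τ : ℝ) (J : ℕ) (F : Fam m J) (A : F.Ω → Prop), S.St τ J F A → 0 < Pe F.p A)
    {c : ℕ → Fin m} (_ : Set.InjOn c (Set.Iio 3)) {L : ℕ → ℝ → ℝ → ℝ} {G : Set ℝ}
    (_ : ChG S c 3 (fun l w => L l w w) G) {w u m₁ x₀ κF : ℝ} {k₀ : ℕ} {Sl E rd pw n : ℕ → ℝ}
    (_ : 0 < u) (_ : 0 ≤ w - (CF + ν + C₃ + 90) * u) (_ : w + (CF + ν + C₃ + 90) * u < 1)
    (_ : Sl 0 = 1) (_ : Sl 1 = 1) (_ : Sl 2 = a) (_ : Sl 3 = b)
    (_ : ∀ i ≤ 3, ∀ x, |x - w| ≤ (CF + ν + C₃ + 90) * u →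
      |L i x x - L i w w - Sl i * (x - w)| ≤ u / 20 ∧ x ≤ L i x x ∧
        L i x x + (C 0 + ν + C₃ + 90) * u ≤ 1)
    (_ : mN Kd a b C₃ * u ≤ 1 - w) (_ : (C 0 + 10) * u ≤ 1 - w) (_ : w + Rt * u ∈ G)
    (_ : w + ν * u ∈ G)
    (_ : ∀ k : ℕ, (k : ℝ) ≤ 20 * (CF + 28 + ν) → w + ((k : ℝ) / 20 - (CF + 28)) * u ∈ G)
    (_ : w - (CF + 13 - ν) * u ≤ x₀) (_ : x₀ ≤ w - (CF / 2 + 28) * u)
    (_ : ∀ k ≥ k₀, FreeAt S (fun J F => ptr F J) (fun _ F => F.W) c 2 (fun l w => L l w w) G x₀ CF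
      1 κF k) (_ : 0 ≤ κF) (_ : 60 * κF ≤ ε') (_ : u < (1 / 2) ^ k₀)
    (_ : mN Kd a b C₃ * u ≤ m₁)
    (_ : ∀ i ≤ 3, 0 ≤ E i ∧ L i (w - (C₃ + 1) * u) (w - (C₃ + 1) * u) + E i + m₁ ≤ 1 ∧ 0 ≤ rd i ∧
      rd i + m₁ ≤ 1)
    (_ : ∀ e : ℝ, 0 < e → Bas S (fun J F A => ∃ (V : Type) (z : PtT F → V) (z' : LnT F → V)
      (g : V → ℕ → MvPolynomial (Option (Fin m)) ℝ),
      LbE F c 4 Kd E e (w - (C₃ + 1) * u) rd
        (fun l => L l (w - (C₃ + 1) * u) (w - (C₃ + 1) * u)) A z z' g))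
    (_ : ∀ N : ℝ, Exs S (qJet m ((range 3).image c) (c 3) 0 w (L 3 w w) N))
    (_ : ∀ q' : ℝ, 0 ≤ q' → q' ≤ L 3 w w - L 3 (w - (C₃ + 1) * u) (w - (C₃ + 1) * u) →
      RawN S ((range 3).image c) (c 3) (L 3 (w - (C₃ + 1) * u) (w - (C₃ + 1) * u)) q' h (δ₁ * u))
    (_ : ∀ l, n l = L l w w + C l * u) (_ : ∀ l ≤ 3, L l w w - u / 20 ≤ pw l)
    (_ : ∃ e : ℝ, 0 < e ∧ F1 S (fun J F => ptr F J) (vg w) (fun _ F => F.T)
      (qJets m c 0 2 1 (fun _ _ => w) (fun l _ => pw l)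
        (fun l j => L l w w + kN a (C 2) * u - (j : ℝ) * w))
      (qJet m ((range 2).image c) (c 2) 1 w (pw 2) (n 2 - ((1 : ℕ) : ℝ) * w)) e (dd * u)),
    ∀ D ≤ Kd, NdCls S c D pw w (w + Rt * u) (w + ν * u) n (L 2 (w + Rt * u) (w + Rt * u))
      (ε' * u) := by
  obtain ⟨δ₁, hδ₁, Hg⟩ := gle_num (m := m) Kd ha.le hb hC₃ hh hh1 (ε' := ε' / 12) (by positivity)
  have hC20 : 0 ≤ C 2 := by linarith
  choose dU hdU HU using fun D : ℕ => u_num (m := m) D (C₂ := C 2) (ε' := ε' / 12) hC20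
    (by positivity)
  obtain ⟨dd, hdd, hddD⟩ := fin_min (Kd + 1) 1 (V := fun D _ => dU D) (fun D _ _ _ => hdU D)
  refine ⟨δ₁, dd, hδ₁, hdd, ?_⟩
  intro S Ct htm hpos c hinj L G hW w u m₁ x₀ κF k₀ Sl E rd pw n hu h0w hw1 S0 S1 S2 S3 hL hmw hCw htG
    hxG hlG hx1 hx2 hfa hκ0 hκ hu1 hm₁ hE hlab hexs hraw hn hpw hF1 D hD
  have hCF0 : (0 : ℝ) ≤ CF := Nat.cast_nonneg CF
  have hC10 : 0 ≤ C 1 := by linarith
  have hC00 : 0 ≤ C 0 := by linarith
  have hν0 : 0 ≤ ν := by linarith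
  have c3u : 0 ≤ C₃ * u := mul_nonneg hC₃ hu.le
  have c0u : 0 ≤ C 0 * u := mul_nonneg hC00 hu.le
  have c1u : 0 ≤ C 1 * u := mul_nonneg hC10 hu.le
  have c2u : 0 ≤ C 2 * u := mul_nonneg hC20 hu.le
  have cfu : 0 ≤ CF * u := mul_nonneg hCF0 hu.le
  have cνu : 0 ≤ ν * u := mul_nonneg hν0 hu.le
  have rtu : 0 ≤ Rt * u := mul_nonneg hRt hu.le
  have rνu : Rt * u ≤ ν * u := mul_le_mul_of_nonneg_right hRν hu.le
  have c01 : C 1 * u + 3 * u ≤ C 0 * u := by
    have := mul_le_mul_of_nonneg_right hC0 hu.le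
    linarith
  have c12 : C 2 * u + 2 * u ≤ C 1 * u := by
    have := mul_le_mul_of_nonneg_right hC12 hu.le
    linarith
  have cν0 : C 0 * u + 80 * u ≤ ν * u := by
    have := mul_le_mul_of_nonneg_right hν hu.le
    linarith
  have cfν : 2 * (ν * u) + 40 * u ≤ CF * u := by
    have := mul_le_mul_of_nonneg_right hCF hu.le
    linarith
  have aru : a * (Rt * u) + u ≤ C 2 * u := by
    have := mul_le_mul_of_nonneg_right haR hu.le
    linarith
  have hBu : (CF + ν + C₃ + 90) * u = CF * u + ν * u + C₃ * u + 90 * u := by ring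
  rw [hBu] at h0w hw1
  have hbox : ∀ s : ℝ, -(CF + 28) ≤ s → s ≤ ν + 1 → |w + s * u - w| ≤
      (CF + ν + C₃ + 90) * u := by
    intro s h1 h2
    have g1 := mul_le_mul_of_nonneg_right h1 hu.le
    have g2 := mul_le_mul_of_nonneg_right h2 hu.le
    rw [hBu, abs_le]
    constructor <;> linarith
  -- the windows
  obtain ⟨b₀, hb₀⟩ : ∃ b₀ : ℝ, b₀ = w - (CF + 28) * u := ⟨_, rfl⟩
  obtain ⟨o, ho⟩ : ∃ o : ℝ, o = w + ν * u := ⟨_, rfl⟩
  obtain ⟨t, ht⟩ : ∃ t : ℝ, t = w + Rt * u := ⟨_, rfl⟩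
  obtain ⟨v, hv⟩ : ∃ v : ℝ, v = w - (C₃ + 1) * u := ⟨_, rfl⟩
  have hwG : w ∈ G := by
    have h1 := hlG (20 * (CF + 28)) (by
      push_cast
      linarith)
    have e1 : w + (((20 * (CF + 28) : ℕ) : ℝ) / 20 - (CF + 28)) * u = w := by
      push_cast
      ring
    rwa [e1] at h1
  have hbG : b₀ ∈ G := by
    have h1 := hlG 0 (by
      push_cast
      linarith)
    have e1 : w + (((0 : ℕ) : ℝ) / 20 - (CF + 28)) * u = b₀ := by
      rw [hb₀]
      push_cast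
      ring
    rwa [e1] at h1
  rw [← ho] at hxG
  rw [← ht] at htG
  rw [← hv] at hE hlab hraw
  obtain ⟨Gl, hGl⟩ : ∃ Gl : Set ℝ, Gl = {x | x ∈ G ∧ |x - w| ≤ (CF + ν + C₃ + 90) * u} := ⟨_, rfl⟩
  have hGlG : Gl ⊆ G := by
    rw [hGl]
    exact fun x hx => hx.1
  have hwl : w ∈ Gl := by
    rw [hGl]
    refine ⟨hwG, ?_⟩
    rw [sub_self, abs_zero, hBu]
    positivity
  have hbl : b₀ ∈ Gl := by
    rw [hGl]
    refine ⟨hbG, ?_⟩
    rw [hb₀, hBu, abs_le]
    constructor <;> linarith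
  have hol : o ∈ Gl := by
    rw [hGl]
    refine ⟨hxG, ?_⟩
    rw [ho, hBu, abs_le]
    constructor <;> linarith
  have hgap : ∀ x, b₀ ≤ x → x ≤ o → ∃ v ∈ Gl, v ≤ x ∧ x ≤ v + u / 20 := by
    intro x h1 h2
    obtain ⟨s, hs⟩ : ∃ s : ℝ, s = (x - w) / u := ⟨_, rfl⟩
    have hsu : x = w + s * u := by
      rw [hs, div_mul_cancel₀ _ hu.ne']
      ring
    rw [hb₀, hsu] at h1
    rw [ho, hsu] at h2
    have s1 : -(CF + 28) ≤ s := le_of_mul_le_mul_right (by linarith) hu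
    have s2 : s ≤ ν := le_of_mul_le_mul_right (by linarith) hu
    have s3 : 0 ≤ 20 * (s + CF + 28) := by linarith
    have f1 := Nat.floor_le s3
    have f2 := Nat.lt_floor_add_one (20 * (s + CF + 28))
    obtain ⟨k, hk⟩ : ∃ k : ℕ, k = ⌊20 * (s + CF + 28)⌋₊ := ⟨_, rfl⟩
    rw [← hk] at f1 f2
    have h3 := hlG k (by linarith)
    have k1 : (k : ℝ) / 20 - (CF + 28) ≤ s := by linarith
    have k2 : s - 1 / 20 ≤ (k : ℝ) / 20 - (CF + 28) := by linarith
    have k3 : -(CF + 28) ≤ (k : ℝ) / 20 - (CF + 28) := by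
      have : (0 : ℝ) ≤ k := Nat.cast_nonneg k
      linarith
    have g1 := mul_le_mul_of_nonneg_right k1 hu.le
    have g2 := mul_le_mul_of_nonneg_right k2 hu.le
    refine ⟨w + ((k : ℝ) / 20 - (CF + 28)) * u, ?_, ?_, ?_⟩
    · rw [hGl]
      exact ⟨h3, hbox _ k3 (by linarith)⟩
    · rw [hsu]
      linarith
    · rw [hsu]
      linarith
  -- the levels
  have hLa : ∀ i < 2, ∀ x, |x - w| ≤ (CF + ν + C₃ + 90) * u → |L i x x - L i w w - (x - w)| ≤ u / 20 := by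
    intro i hi x hx
    have h1 := (hL i (by omega) x hx).1
    have h2 : Sl i = 1 := by
      interval_cases i
      · exact S0
      · exact S1
    rwa [h2, one_mul] at h1
  have hwt : w ≤ t := by rw [ht]; linarith
  have hto : t ≤ o := by rw [ht, ho]; linarith
  have hw0 : 0 ≤ w := by linarith
  have ho1 : o + 36 * u < 1 := by rw [ho]; linarith
  have htB : |t - w| ≤ (CF + ν + C₃ + 90) * u := by
    rw [ht]
    exact hbox Rt (by linarith) (by linarith)
  have hvB : |v - w| ≤ (CF + ν + C₃ + 90) * u := by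
    rw [hv, hBu, abs_le]
    constructor <;> linarith
  have hoB : |o - w| ≤ (CF + ν + C₃ + 90) * u := by
    rw [ho]
    exact hbox ν (by linarith) (by linarith)
  have hbB : |b₀ - w| ≤ (CF + ν + C₃ + 90) * u := by
    rw [hGl] at hbl
    exact hbl.2
  have hwB : |w - w| ≤ (CF + ν + C₃ + 90) * u := by
    rw [hGl] at hwl
    exact hwl.2
  have hroom : ∀ i ≤ 3, w ≤ L i w w ∧ L i w w + (C 0 * u + ν * u + C₃ * u + 90 * u) ≤ 1 := by
    intro i hi
    obtain ⟨-, h1, h2⟩ := hL i hi w hwB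
    have e1 : (C 0 + ν + C₃ + 90) * u = C 0 * u + ν * u + C₃ * u + 90 * u := by ring
    rw [e1] at h2
    exact ⟨h1, h2⟩
  have hLt := (hL 2 (by norm_num) t htB).1
  rw [S2] at hLt
  have hnt : L 2 t t ≤ n 2 := by
    have h1 := abs_le.1 hLt
    have e1 : t - w = Rt * u := by rw [ht]; ring
    rw [e1] at h1
    rw [hn 2]
    linarith
  obtain ⟨u₁, rw₁, hrw, hcw⟩ := hW.ch w hwG
  obtain ⟨u₂, rt₁, hrt, hct⟩ := hW.ch t htG
  have he : 0 < ε' / 12 * u := by positivity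
  -- the ladder and the free velocities
  have hlad := lad2 htm hpos hinj hW hGlG hbl hol (by rw [hb₀]; linarith) (by rw [hb₀, ho]; linarith)
    (by linarith) hu (fun x h1 h2 => by
      obtain ⟨v, hv, h3, h4⟩ := hgap x h1 h2
      refine ⟨v, hv, ?_⟩
      rw [abs_le]
      constructor <;> linarith) (fun v hv i hi => by
      rw [hGl] at hv
      have h1 := abs_le.1 (hLa i hi v hv.2)
      have h2 := abs_le.1 (hLa i hi o hoB)
      rw [abs_le]
      constructor <;> linarith) (fun v hv v' hv' hvv => by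
      rw [hGl] at hv hv'
      have h1 := abs_le.1 (hL 2 (by norm_num) v hv.2).1
      have h2 := abs_le.1 (hL 2 (by norm_num) v' hv'.2).1
      rw [S2] at h1 h2
      have h3 : v' - v ≤ a * (v' - v) := le_mul_of_one_le_left (by linarith) ha.le
      linarith)
  have hx1u : w - CF * u - 13 * u + ν * u ≤ x₀ := by linarith
  have hx2u : x₀ ≤ w - CF * u / 2 - 28 * u := by linarith
  obtain ⟨hh₁, Pq, f1, f2, f3, f4, hfri⟩ := fri2 (b := b₀) (w := w) (x' := o) hfa hbG hu hu1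
    (by rw [hb₀]; linarith) (by rw [hb₀]; linarith) (by rw [ho]; linarith) (by rw [ho]; linarith) hκ0
    (by
      have : (3 : ℝ) ≤ CF := by linarith
      exact_mod_cast this)
  have hxB : |x₀ - w| ≤ (CF + ν + C₃ + 90) * u := by
    rw [hBu, abs_le]
    constructor <;> linarith
  have hCh : (CF : ℝ) * (u / 2) ≤ CF * hh₁ := mul_le_mul_of_nonneg_left f1 hCF0
  have hPq : ∀ i : Fin 2, n i - w ≤ Pq i := by
    have x0 := abs_le.1 (hLa 0 (by norm_num) x₀ hxB)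
    have x1 := abs_le.1 (hLa 1 (by norm_num) x₀ hxB)
    have n0 := hn 0
    have n1 := hn 1
    intro i
    fin_cases i
    · show n 0 - w ≤ Pq 0
      rw [n0]
      linarith
    · show n 1 - w ≤ Pq 1
      rw [n1]
      linarith
  have hCi : ∀ i < 3, C i * u ≤ C 0 * u := by
    intro i hi
    interval_cases i
    · exact le_rfl
    · linarith
    · linarith
  obtain ⟨e₃, he₃, hv0⟩ := Pool.NA36.v0_fr hlad (w := w) (x' := o) (κ := κF * u) (n := n) (p := pw)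
    hwl hol (by rw [hb₀]; linarith) le_rfl ⟨fun i hi => by
      show L i w w + 20 * (u / 10) ≤ n i
      rw [hn i]
      interval_cases i
      · linarith
      · linarith, fun i hi => by
      show n i + 20 * (u / 10) ≤ L i w w + (1 - w)
      have := hCi i (by omega)
      rw [hn i]
      linarith, fun i hi l hl => by
      show n i - L i w w + 20 * (u / 10) ≤ n l - L l w w
      obtain rfl : i = 1 := by omega
      obtain rfl : l = 0 := by omega
      rw [hn 1, hn 0]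
      linarith⟩ (fun i hi => by
      show n i - L i w w + 3 * (u / 10) ≤ w - b₀
      have := hCi i (by omega)
      rw [hn i, hb₀]
      linarith) (P := Pq) hPq (sp := fun i x => L i x x - (1 : ℝ) / 20 * hh₁) (fun i hi => by
      show L i b₀ b₀ - u / 10 ≤ L i b₀ b₀ - 1 / 20 * hh₁
      linarith) (fun i hi => by
      show L i b₀ b₀ - 1 / 20 * hh₁ ≤ L i b₀ b₀
      linarith) (fun i hi => by
      show L i w w - u / 10 ≤ pw i
      have := hpw i (by omega)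
      linarith) hfri (fun i hi => by
      obtain ⟨v₁, hv1, g1, g2⟩ := hgap (w + (C 0 + 38) * u) (by rw [hb₀]; linarith)
        (by rw [ho]; linarith)
      refine ⟨v₁, hv1, by linarith, by rw [ho]; linarith, ?_⟩
      show n i + 360 * (u / 10) ≤ L i v₁ v₁
      have h5 := hCi i (by omega)
      rw [hn i]
      rw [hGl] at hv1
      have h6 := abs_le.1 (hL i (by omega) v₁ hv1.2).1
      have h7 : v₁ - w ≤ Sl i * (v₁ - w) := by
        refine le_mul_of_one_le_left (by linarith) ?_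
        interval_cases i
        · exact S0.ge
        · exact S1.ge
        · rw [S2]
          exact ha.le
      linarith) (fun i hi => by
      show n i + 360 * (u / 10) ≤ L i w w + (o - w)
      have h5 := hCi i (by omega)
      rw [hn i, ho]
      linarith) (by linarith) D he (by
      have := mul_le_mul_of_nonneg_right hκ hu.le
      linarith)
  -- the orders `≥ 1` of `c 2`
  have hU := HU D htm (c := c) (w := w) (q := u) (s₂ := L 2 w w) (pw := pw) (n := n)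
    (nf := fun l => L l w w + kN a (C 2) * u) hw0 hu (by linarith) (hpw 2 (by norm_num)) (hn 2)
    (fun l hl => by
      show L l w w + kN a (C 2) * u ≤ n l
      have h1 := mul_le_mul_of_nonneg_right hC1 hu.le
      rw [hn l]
      interval_cases l
      · linarith
      · linarith) (by
      obtain ⟨e, he, h1⟩ := hF1
      refine ⟨e, he, h1.mono le_rfl ?_⟩
      exact mul_le_mul_of_nonneg_right (hddD D (by omega) 0 (by norm_num)) hu.le)
  -- the orders `≥ 1` of the target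
  have hG₁ := Hg htm hpos (c := c) (v := v) (w := w) (q := u) (u₁ := u₁) (m₁ := m₁)
    (s := fun i => L i w w) (p := fun i => L i v v) (E := E) (rd := rd) (rw := rw₁) (pw := pw)
    (n := n) (C := C) (Sl := Sl) hu (by rw [hv]; ring) (by rw [hv]; linarith) hmw S0 S1 S2 S3
    (fun i hi => by
      have h1 := abs_le.1 (hL i hi v hvB).1
      have e1 : Sl i * (v - w) = -(Sl i * ((C₃ + 1) * u)) := by rw [hv]; ring
      rw [e1] at h1
      show |L i w w - L i v v - Sl i * ((C₃ + 1) * u)| ≤ u / 8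
      rw [abs_le]
      constructor <;> linarith) (by
      have h1 := (hL 3 le_rfl v hvB).2.1
      have h2 : 0 ≤ v := by rw [hv]; linarith
      exact h2.trans h1) (fun i hi => by
      obtain ⟨h1, h2, h3, h4⟩ := hE i hi
      have h5 := (hL i hi v hvB).2.1
      have h6 : 0 ≤ v := by rw [hv]; linarith
      exact ⟨h6.trans h5, h1, h2, h3, h4⟩) hm₁ hcw hexs hraw
    (fun e he => by
      refine Bas.mono 0 (hlab e he) ?_
      rintro J - F A ⟨V, z, z', g, h1⟩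
      exact ⟨V, z, z', g, fun i _ hi => h1 i hi⟩) (fun i hi => hpw i (by omega)) (by
      show L 3 v v ≤ pw 3
      have h1 := abs_le.1 (hL 3 le_rfl v hvB).1
      rw [S3] at h1
      have h2 : b * (v - w) = -(b * ((C₃ + 1) * u)) := by rw [hv]; ring
      have h3 : (C₃ + 1) * u ≤ b * ((C₃ + 1) * u) := le_mul_of_one_le_left (by positivity) hb
      have h4 := hpw 3 le_rfl
      rw [h2] at h1
      linarith) (fun i hi => ⟨hn i, hcN i hi, by
      have := hCi i hi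
      linarith⟩) (fun i hi l hl => by
      interval_cases i
      · omega
      · obtain rfl : l = 0 := by omega
        linarith
      · interval_cases l
        · linarith
        · linarith) (N := n 3) (by
      show n 3 ≤ L 3 w w + C₃ * u
      rw [hn 3, hC3]) D hD
  -- the far digits
  have hF₁ := ful_num htm hpos (c := c) (w := w) (t := t) (q := u) (u₁ := u₁) (u₂ := u₂)
    (s := fun i => L i w w) (s' := fun i => L i t t) (rd := rw₁) (rd' := rt₁) (pw := pw) (n := n)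
    (C := C) hcw hct (hrt 2 (by norm_num)) hwt hu (fun l hl => hpw l (by omega)) (fun l hl =>
      ⟨hn l, by interval_cases l <;> assumption, by
        have := hCi l (by omega)
        linarith⟩) (fun i hi l hl => by
      have h1 := hCi i (by omega)
      have h2 := (hroom l (by omega)).2
      show (C i + 4) * u ≤ 1 - L l w w
      linarith) hnt he D
  rw [← ht, ← ho]
  have hfin := ndcls_of htm (c := c) (D := D) (w := w) (t := t) (x' := o) (nt := L 2 t t)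
    (e := ε' / 12 * u) (n := n) (s := pw) hw0 hwt hto (by linarith) hnt he
    ⟨e₃, he₃, Bas.mono 0 hv0 fun J _ F A h H hH => by
      obtain ⟨ud, h1⟩ := h
      obtain ⟨h2, h3, -⟩ := h1 H hH
      exact ⟨_, ud, h2, h3⟩⟩
    ⟨e₃, he₃, Bas.mono 0 hv0 fun J _ F A h H hH => by
      obtain ⟨ud, h1⟩ := h
      exact (h1 H hH).2.2⟩ hU hG₁ hF₁
  have e1 : 12 * (ε' / 12 * u) = ε' * u := by ring
  rwa [e1] at hfin

end Pool.NDC42
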