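import Pool.Agent.H42.NDC.Rec

/-!
# The class statement of the near-dead step at a record `RecG`
-/

set_option autoImplicit false

namespace Pool.NDC42

open Finset Real MvPolynomial
open Pool.Agent.H49.Ent Pool.Agent.H32.Dense Pool.STK Pool.KA Pool.KSAT Pool.K2S Pool.PB Pool.S6C
open Pool.GEN Pool.RCD Pool.CHT Pool.CHX Pool.LA91 Pool.PKG Pool.OWN68
open Pool.V0F (cR mx_cR Lad FrI Nst LbE)

/-- **The class statement `NdCls` at a record.** Unit `u = ρ q`; `w = t + y q`; the windows of `NdCls` are `w`,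
`w + Rt u`, `w + ν u`, the digits `L l w w + C l u`. -/
theorem nd_recC (Kd : ℕ) {a b C₃ h : ℝ} (ha : 1 < a) (hb : 1 ≤ b) (hC₃ : 0 ≤ C₃) (hh : 0 < h)
    (hh1 : h ≤ 1) : ∃ Cm : ℝ, 1 ≤ Cm ∧ ∀ (C : ℕ → ℝ) (Rt ν : ℝ), C 3 = C₃ → Cm ≤ C 2 →
    kN a (C 2) + Cm ≤ C 1 → C 1 + 3 ≤ C 0 → 0 ≤ Rt → a * Rt + 1 ≤ C 2 → C 0 + 80 ≤ ν → Rt ≤ ν →
    ∀ ε' : ℝ, 0 < ε' → ∃ (CF : ℕ) (κF : ℚ) (Kb ε₁ dd : ℝ), 2 * ν + 40 ≤ CF ∧ 0 < κF ∧ 0 < Kb ∧
    0 < ε₁ ∧ 0 < dd ∧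
    ∀ (ρ y : ℝ), 0 < ρ → ρ ≤ 1 → ∀ {S : PCl 4} {al : ℝ} {g₀ : ℝ → ℝ}
    {P₀ : List (Fin 4) × Fin 4 → ℝ → ℝ → ℝ} {θ : ℝ}
    {P₂ : ℕ → List (Fin 4) × Fin 4 → ℝ → ℝ → ℝ} {θ₂ Eb e₂ : ℕ → ℝ}
    {c : ℕ → Fin 4} {Pt : ℝ → ℝ → ℝ} {r : ℝ → ℝ} {K₀ g : ℝ} {L T : ℕ → ℝ → ℝ → ℝ}
    {Sl : ℕ → ℝ} {κ : ℕ → Kg} {G : Set ℝ} {S₀ N₀ : ℕ} {A V : ℕ → ℝ} {S₂ N' : ℕ} {V' : ℕ → ℝ}
    {K ε q t : ℝ}, RecG S al g₀ P₀ θ P₂ θ₂ Eb e₂ c Pt r h K₀ g L T Sl κ G S₀ N₀ A V S₂ N' V' K ε q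
      t → κ 0 = .one → κ 1 = .one → Sl 2 = a → Sl 3 = b → 0 < ε → ε ≤ ε₁ * ρ →
    b * |y| + Kb * ρ ≤ K →
    (∃ j < N', V' j = y + Rt * ρ) → (∃ j < N', V' j = y + ν * ρ) →
    (∃ j < N', V' j = y - (C₃ + 1) * ρ) →
    (∀ k : ℕ, (k : ℝ) ≤ 20 * (CF + 28 + ν) → ∃ j < N', V' j = y + ((k : ℝ) / 20 - (CF + 28)) * ρ) →
    ∀ {x₀ : ℝ} {k₀ : ℕ}, t + (y - (CF + 13 - ν) * ρ) * q ≤ x₀ →
    x₀ ≤ t + (y - (CF / 2 + 28) * ρ) * q → FaQ (2, CF, 1, κF) k₀ S P₀ θ c Pt r L T κ G x₀ →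
    ρ * q < (1 / 2) ^ k₀ →
    -- labels at all windows of the chain
    ∀ {m₁ : ℝ}, Kb * (ρ * q) ≤ m₁ →
    (∀ k < N', ∃ (E rd : ℕ → ℝ),
      (∀ l ≤ 3, 0 ≤ E l ∧ L l (t + V' k * q) (t + V' k * q) + E l + m₁ ≤ 1 ∧
        0 ≤ rd l ∧ rd l + m₁ ≤ 1) ∧ ∀ e : ℝ, 0 < e →
      Bas S (fun J F A => ∃ (V : Type) (z : PtT F → V) (z' : LnT F → V)
        (g : V → ℕ → MvPolynomial (Option (Fin 4)) ℝ),
        LbE F c 4 Kd E e (t + V' k * q) rd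
          (fun l => L l (t + V' k * q) (t + V' k * q)) A z z' g)) →
    ∀ (w : ℝ) (pw n : ℕ → ℝ), w = t + y * q → (∀ l, n l = L l w w + C l * (ρ * q)) →
    (∀ l ≤ 3, L l w w - ρ * q / 20 ≤ pw l) →
    -- the first jet of `c 2` (rate zero)
    (∃ e : ℝ, 0 < e ∧ F1 S (fun J F => ptr F J) (vg w) (fun _ F => F.T)
      (qJets 4 c 0 2 1 (fun _ _ => w) (fun l _ => pw l)
        (fun l j => L l w w + kN a (C 2) * (ρ * q) - (j : ℝ) * w))
      (qJet 4 ((range 2).image c) (c 2) 1 w (pw 2) (n 2 - ((1 : ℕ) : ℝ) * w)) e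
        (dd * (ρ * q))) →
    ∀ D ≤ Kd, NdCls S c D pw w (w + Rt * (ρ * q)) (w + ν * (ρ * q)) n
      (L 2 (w + Rt * (ρ * q)) (w + Rt * (ρ * q))) (ε' * (ρ * q)) := by
  have hc0 : ∀ i, 0 ≤ lN Kd a b C₃ i := fun i => by
    unfold lN
    have h1 : (0 : ℝ) ≤ Kd := Nat.cast_nonneg Kd
    have h2 : 0 ≤ (b + Kd + 4) * (C₃ + 1) := mul_nonneg (by linarith) (by linarith)
    have h3 : 0 ≤ (if i ≤ 1 then (a + 1) * (C₃ + 1) else 0) := by
      split_ifs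
      · exact mul_nonneg (by linarith) (by linarith)
      · exact le_rfl
    have h4 : 0 ≤ (if i = 0 then 2 * (C₃ + 1) else 0) := by
      split_ifs
      · linarith
      · exact le_rfl
    linarith
  have hcN0 : ∀ i, 0 ≤ cN Kd a b C₃ i := fun i => by
    unfold cN
    have h1 : (0 : ℝ) ≤ Kd := Nat.cast_nonneg Kd
    have h2 : 0 ≤ ((Kd : ℝ) + 2) * (C₃ + 1) := mul_nonneg (by linarith) (by linarith)
    have := hc0 i
    linarith
  have hmN0 : 0 ≤ mN Kd a b C₃ := by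
    unfold mN
    have h1 : (0 : ℝ) ≤ Kd := Nat.cast_nonneg Kd
    have h2 : 0 ≤ ((Kd : ℝ) + 4 + a + b) * (C₃ + 1) := mul_nonneg (by linarith) (by linarith)
    have := hc0 0
    linarith
  obtain ⟨Cm, hCm⟩ : ∃ Cm : ℝ, Cm = 2 + a + cN Kd a b C₃ 0 + cN Kd a b C₃ 1 + cN Kd a b C₃ 2 :=
    ⟨_, rfl⟩
  have q0 := hcN0 0
  have q1 := hcN0 1
  have q2 := hcN0 2
  refine ⟨Cm, by linarith, ?_⟩
  intro C Rt ν hC3 hC2 hC1 hC0 hRt haR hν hRν ε' hε'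
  have hk0 : C 2 ≤ kN a (C 2) := by
    unfold kN
    have h1 : 0 < a - 1 := by linarith
    have h2 : (a + 11) * (C 2 / (a - 1)) = C 2 * ((a + 11) / (a - 1)) := by ring
    rw [h2]
    refine le_mul_of_one_le_right (by linarith) ?_
    rw [le_div_iff₀ h1]
    linarith
  obtain ⟨CF, hCF⟩ := exists_nat_ge (2 * ν + 40)
  obtain ⟨δ₁, dd, hδ₁, hdd, H⟩ := nd_abs (m := 4) Kd ha hb hC₃ hh hh1 hC3 (fun i hi => by
    interval_cases i
    · linarith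
    · linarith
    · linarith) (by linarith) (by linarith) (by linarith) hC0 hRt haR hν hRν hCF hε'
  have hCF0 : (0 : ℝ) ≤ CF := Nat.cast_nonneg CF
  obtain ⟨κF, hκF0, hκF1⟩ := exists_rat_btwn (show (0 : ℝ) < ε' / 60 by positivity)
  obtain ⟨B, hB⟩ : ∃ B : ℝ, B = CF + ν + C₃ + 90 := ⟨_, rfl⟩
  obtain ⟨Kb, hKb⟩ : ∃ Kb : ℝ, Kb = mN Kd a b C₃ + b * (B + C 0 + 10) := ⟨_, rfl⟩
  have hBC : B + C 0 + 10 ≤ b * (B + C 0 + 10) := le_mul_of_one_le_left (by linarith) hb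
  obtain ⟨ε₁, hε₁⟩ : ∃ ε₁ : ℝ, ε₁ = min (1 / 40) (δ₁ / 4) := ⟨_, rfl⟩
  have hε10 : 0 < ε₁ := hε₁ ▸ lt_min (by norm_num) (by positivity)
  have hε1a : ε₁ ≤ 1 / 40 := hε₁ ▸ min_le_left _ _
  have hε1b : ε₁ ≤ δ₁ / 4 := hε₁ ▸ min_le_right _ _
  refine ⟨CF, κF, Kb, ε₁, dd, hCF, by exact_mod_cast hκF0, by linarith, hε10, hdd, ?_⟩
  intro ρ y hρ hρ1 S al g₀ P₀ θ P₂ θ₂ Eb e₂ c Pt r K₀ g L T Sl κ G S₀ N₀ A V S₂ N' V' K ε q t R hκ0
    hκ1 hS2 hS3 hε hεε hyK hwT hwX hwV hwL x₀ k₀ hx1 hx2 hfa hq1 m₁ hm₁ hlab w pw n hw hn hpw hF1 D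
    hD
  have hq := R.q0
  obtain ⟨u, hu⟩ : ∃ u : ℝ, u = ρ * q := ⟨_, rfl⟩
  have hu0 : 0 < u := hu ▸ mul_pos hρ hq
  rw [← hu] at hq1 hm₁ hn hpw hF1 ⊢
  have hKbu : b * |y| * q + Kb * u ≤ K * q := by
    have h1 := mul_le_mul_of_nonneg_right hyK hq.le
    have h2 : (b * |y| + Kb * ρ) * q = b * |y| * q + Kb * u := by rw [hu]; ring
    linarith
  have hy0 : 0 ≤ |y| * q := mul_nonneg (abs_nonneg y) hq.le
  have hby : |y| * q ≤ b * |y| * q := by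
    have := le_mul_of_one_le_left hy0 hb
    linarith
  have hyq1 : y * q ≤ |y| * q := mul_le_mul_of_nonneg_right (le_abs_self y) hq.le
  have hyq2 : -(|y| * q) ≤ y * q := by
    have := mul_le_mul_of_nonneg_right (neg_abs_le y) hq.le
    linarith
  have hKbB : mN Kd a b C₃ * u + b * ((B + C 0 + 10) * u) = Kb * u := by rw [hKb]; ring
  have hmu : 0 ≤ mN Kd a b C₃ * u := mul_nonneg hmN0 hu0.le
  have hC0u : 0 ≤ C 0 * u := mul_nonneg (by linarith) hu0.le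
  have hBu0 : 0 ≤ B * u := mul_nonneg (by linarith) hu0.le
  have hbBu : B * u + C 0 * u + 10 * u ≤ b * ((B + C 0 + 10) * u) := by
    have h1 : 0 ≤ (B + C 0 + 10) * u := mul_nonneg (by linarith) hu0.le
    have := le_mul_of_one_le_left h1 hb
    linarith
  have ht0 := R.t0
  have ht1 := R.t1
  have hεq : 0 < ε * q := mul_pos hε hq
  have hεu : ε * q ≤ ε₁ * u := by
    have h1 := mul_le_mul_of_nonneg_right hεε hq.le
    have h2 : ε₁ * ρ * q = ε₁ * u := by rw [hu]; ring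
    linarith
  have hεu1 : ε * q ≤ u / 40 := by
    have := mul_le_mul_of_nonneg_right hε1a hu0.le
    linarith
  have hεu2 : 2 * (ε * q) ≤ δ₁ * u := by
    have := mul_le_mul_of_nonneg_right hε1b hu0.le
    have h2 : 0 < δ₁ * u := mul_pos hδ₁ hu0
    linarith
  have hbox : ∀ x, |x - w| ≤ B * u → |x - t| ≤ K * q := by
    intro x hx
    have h1 := abs_le.1 hx
    rw [hw] at h1
    rw [abs_le]
    constructor <;> linarith
  have hwt : |w - t| ≤ K * q := hbox w (by rw [sub_self, abs_zero]; exact hBu0)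
  have hwin : ∀ s : ℝ, (∃ j < N', V' j = y + s * ρ) → w + s * u ∈ G := by
    rintro s ⟨j, hj, hjV⟩
    have h1 := R.memG.2 j hj
    rw [hjV] at h1
    have e1 : t + (y + s * ρ) * q = w + s * u := by rw [hw, hu]; ring
    rwa [e1] at h1
  obtain ⟨jv, hjv, hVv⟩ := hwV
  obtain ⟨jw, hjw, hVw⟩ := hwL (20 * (CF + 28)) (by
    push_cast
    linarith)
  have evv : t + V' jv * q = w - (C₃ + 1) * u := by
    rw [hVv, hw, hu]
    ring
  have eww : t + V' jw * q = w := by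
    rw [hVw, hw]
    push_cast
    ring
  obtain ⟨E, rd, hE, hlv⟩ := hlab jv hjv
  obtain ⟨E', rd', hE', hlw⟩ := hlab jw hjw
  rw [evv] at hE hlv
  rw [eww] at hE' hlw
  have S1 : Sl 1 = 1 := by
    have h1 := R.kd 1 (by norm_num)
    rw [hκ1] at h1
    exact h1
  have RT := R.tg 3 (by norm_num) (by norm_num)
  have hEb := RT.Eb0
  have hL : ∀ i ≤ 3, ∀ x, |x - w| ≤ B * u → |L i x x - L i w w - Sl i * (x - w)| ≤ u / 20 ∧
      x ≤ L i x x ∧ L i x x + (C 0 + ν + C₃ + 90) * u ≤ 1 := by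
    intro i hi x hx
    have hxt := hbox x hx
    have hxt' := abs_le.1 hxt
    have h1 := abs_le.1 (R.dL i (by omega) x hxt)
    have h2 := abs_le.1 (R.dL i (by omega) w hwt)
    refine ⟨?_, R.low_at (by omega) (by linarith) le_rfl (by linarith), ?_⟩
    · have e1 : Sl i * (x - w) = Sl i * (x - t) - Sl i * (w - t) := by ring
      rw [e1, abs_le]
      constructor <;> linarith
    · have h3 := RT.room i hi x hxt
      have h4 : (C 0 + ν + C₃ + 90) * u = B * u + C 0 * u - CF * u := by rw [hB]; ring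
      have h5 : 0 ≤ CF * u := mul_nonneg hCF0 hu0.le
      rw [h4]
      linarith
  have hvB : |w - (C₃ + 1) * u - w| ≤ B * u := by
    have h5 : 0 ≤ CF * u := mul_nonneg hCF0 hu0.le
    have h6 : 0 ≤ ν * u := mul_nonneg (by linarith) hu0.le
    have h7 : 0 ≤ C₃ * u := mul_nonneg hC₃ hu0.le
    rw [hB, abs_le]
    constructor <;> linarith
  have hx1' : w - (CF + 13 - ν) * u ≤ x₀ := by
    have e1 : t + (y - (CF + 13 - ν) * ρ) * q = w - (CF + 13 - ν) * u := by rw [hw, hu]; ring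
    rwa [e1] at hx1
  have hx2' : x₀ ≤ w - (CF / 2 + 28) * u := by
    have e1 : t + (y - (CF / 2 + 28) * ρ) * q = w - (CF / 2 + 28) * u := by rw [hw, hu]; ring
    rwa [e1] at hx2
  have hwt' := abs_le.1 hwt
  refine H R.tmc R.pos (R.inj.mono fun x hx => by
      rw [Set.mem_Iio] at hx ⊢
      omega) (L := L) (G := G) (hfa.ch 3 (by norm_num)) (w := w) (u := u) (m₁ := m₁) (x₀ := x₀)
    (κF := κF) (k₀ := k₀) (Sl := Sl) (E := E) (rd := rd) (pw := pw) (n := n) hu0 ?_ ?_ R.s0 S1 hS2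
    hS3 ?_ ?_ ?_ (hwin Rt hwT) (hwin ν hwX) (fun k hk => hwin _ (hwL k hk)) hx1' hx2'
    (hfa.free (by norm_num) (fun l hl => by
      have hl' : l < 2 := hl
      interval_cases l
      · exact hκ0
      · exact hκ1) (by norm_num) le_rfl (by
      show (0 : ℚ) < κF
      exact_mod_cast hκF0)) hκF0.le (by linarith) hq1 ?_ hE hlv ?_ ?_ hn hpw hF1 D hD
  · rw [← hB]
    linarith
  · rw [← hB]
    linarith
  · rw [← hB]
    exact hL
  · linarith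
  · linarith
  · linarith
  · intro N
    obtain ⟨h1, -, h2, -⟩ := hE' 3 le_rfl
    refine Pool.V0F.exs_jetE h2 h1 fun e he => ⟨Kd, Bas.mono 0 (hlw e he) ?_⟩
    rintro J - F A ⟨V, z, z', g, h3⟩
    exact ⟨V, z, z', _, h3 3 (by norm_num)⟩
  · intro q' h0 h1
    have h2 := abs_le.1 (R.dL 3 (by norm_num) (w - (C₃ + 1) * u) (hbox _ hvB))
    have h3 := abs_le.1 (R.dL 3 (by norm_num) w hwt)
    rw [hS3] at h2 h3
    have e2 : w - t = y * q := by rw [hw]; ring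
    have e1 : b * (w - (C₃ + 1) * u - t) = b * (y * q) - b * ((C₃ + 1) * u) := by rw [hw]; ring
    rw [e1] at h2
    rw [e2] at h3
    have h4 : b * (y * q) ≤ b * |y| * q := by
      have := mul_le_mul_of_nonneg_left hyq1 (show 0 ≤ b by linarith)
      linarith
    have h5 : -(b * |y| * q) ≤ b * (y * q) := by
      have := mul_le_mul_of_nonneg_left hyq2 (show 0 ≤ b by linarith)
      linarith
    have h6 : b * ((C₃ + 1) * u) + 9 * u ≤ b * ((B + C 0 + 10) * u) := by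
      have h7 : (C₃ + 1) * u + 9 * u ≤ (B + C 0 + 10) * u := by
        have h8 : C₃ + 1 + 9 ≤ B + C 0 + 10 := by
          rw [hB]
          linarith
        have := mul_le_mul_of_nonneg_right h8 hu0.le
        linarith
      have h8 := mul_le_mul_of_nonneg_left h7 (show 0 ≤ b by linarith)
      have h9 : 9 * u ≤ b * (9 * u) := le_mul_of_one_le_left (by linarith) hb
      linarith
    have h9 : 0 ≤ b * ((C₃ + 1) * u) := by positivity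
    obtain ⟨h10, h11, h12⟩ := hL 3 le_rfl _ hvB
    obtain ⟨h13, h14, h15⟩ := hL 3 le_rfl w (by rw [sub_self, abs_zero]; exact hBu0)
    have hv0 := (abs_le.1 (hbox _ hvB)).1
    have h16 : 0 ≤ (C 0 + ν + C₃ + 90) * u := mul_nonneg (by linarith) hu0.le
    exact raw_at R (by norm_num) hε (p := L 3 (w - (C₃ + 1) * u) (w - (C₃ + 1) * u)) (y := q')
      (by linarith) (by linarith) (by
        show |L 3 (w - (C₃ + 1) * u) (w - (C₃ + 1) * u) - L 3 t t| ≤ K * q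
        rw [abs_le]
        constructor <;> linarith) (by
        show |L 3 (w - (C₃ + 1) * u) (w - (C₃ + 1) * u) + q' - L 3 t t| ≤ K * q
        rw [abs_le]
        constructor <;> linarith) hεu2

end Pool.NDC42
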