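import Pool.Agent.H42.NDC.Asm
import Pool.Agent.H28.RV.Rcs

/-!
# The orders `≥ 1` of `c 2` and its far digits: the numbers

`u_num`: `u_le` for digits `C i q` behind the natural ones. `ful_num`: the same for `ful_core`.
`f1_rtu`: the first jet from the rate zero.
-/

set_option autoImplicit false

namespace Pool.NDC42

open Finset Real MvPolynomial
open Pool.Agent.H49.Ent Pool.Agent.H32.Dense Pool.STK Pool.KA Pool.KSAT Pool.K2S Pool.PB Pool.GEN
open Pool.S6C Pool.RCD Pool.LA91 Pool.OWN68 Pool.CHT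
open Pool.V0F (cR mx_cR)

variable {m : ℕ}

/-- **The orders `≥ 1` of a near-dead `c 2`.** -/
theorem u_num (D : ℕ) {C₂ ε' : ℝ} (hC₂ : 0 ≤ C₂) (hε' : 0 < ε') : ∃ dd : ℝ, 0 < dd ∧
    ∀ {S : PCl m} {Ct : ℝ} (_ : TmC S Ct) {c : ℕ → Fin m} {w q s₂ : ℝ} {pw n nf : ℕ → ℝ}
    (_ : 0 ≤ w) (_ : 0 < q) (_ : (C₂ + 1) * q ≤ 1 - w) (_ : s₂ - q / 20 ≤ pw 2)
    (_ : n 2 = s₂ + C₂ * q) (_ : ∀ l < 2, nf l ≤ n l)
    (_ : ∃ e : ℝ, 0 < e ∧ F1 S (fun J F => ptr F J) (vg w) (fun _ F => F.T)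
      (qJets m c 0 2 1 (fun _ _ => w) (fun l _ => pw l) (fun l j => nf l - (j : ℝ) * w))
      (qJet m ((range 2).image c) (c 2) 1 w (pw 2) (n 2 - ((1 : ℕ) : ℝ) * w)) e (dd * q)),
    BLb S c 2 D w pw (fun J F A H => CH (Pool.Agent.H49.Ent.cond F.p A True)
      (pcC F c D w H 2 1 (n 2))
      (fun ω => ((cR F A w ω, F.W ω), fun l : Fin 2 => pcC F c D w H l 0 (n l) ω)) ≤
        ε' * q * J) := by
  obtain ⟨δ, hδ, H⟩ := u_le D 2 (ε := ε' / (C₂ + 1)) (by positivity)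
  refine ⟨δ * (C₂ + 1), by positivity, ?_⟩
  rintro S Ct htm c w q s₂ pw n nf hw0 hq h1w hp hn hnf ⟨e, he, hF⟩
  have hCq : 0 ≤ C₂ * q := mul_nonneg hC₂ hq.le
  have hμ : (C₂ + 1) * q = C₂ * q + q := by ring
  have h1 := H htm (c := c) (w := w) (μ := (C₂ + 1) * q) (σ₀ := q / 2) (e := min e (q / 8)) (p := pw)
    (n := n) (nf := nf) hw0 (by linarith) (by linarith) (by linarith)
    (lt_min he (by linarith)) (by
      have := min_le_right e (q / 8)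
      linarith) (by
      rw [hn, hμ]
      linarith) hnf (hF.mono (min_le_left _ _) (by linarith))
  refine ⟨min e (q / 8), lt_min he (by linarith), Bas.mono 0 h1 ?_⟩
  intro J _ F A h2 Hl hH
  refine (h2 Hl hH).trans (le_of_eq ?_)
  have : ε' / (C₂ + 1) * ((C₂ + 1) * q) = ε' * q := by field_simp
  rw [this]

/-- **The far digits of `c 2`.** -/
theorem ful_num {S : PCl m} {Ct : ℝ} (htm : TmC S Ct)
    (hpos : ∀ (τ : ℝ) (J : ℕ) (F : Fam m J) (A : F.Ω → Prop), S.St τ J F A → 0 < Pe F.p A)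
    {c : ℕ → Fin m} {w t q u₁ u₂ : ℝ} {s s' rd rd' pw n C : ℕ → ℝ}
    (hcw : Chn S c 0 3 w w u₁ s rd) (hct : Chn S c 0 3 t t u₂ s' rd') (hrd : 0 ≤ rd' 2)
    (hwt : w ≤ t) (hq : 0 < q) (hp : ∀ l ≤ 2, s l - q / 20 ≤ pw l)
    (hC : ∀ l ≤ 2, n l = s l + C l * q ∧ 0 ≤ C l ∧ (C l + 4) * q ≤ 1 - w)
    (hroom : ∀ i ≤ 2, ∀ l ≤ i, (C i + 4) * q ≤ 1 - s l)
    (hnt : s' 2 ≤ n 2) {ε : ℝ} (hε : 0 < ε) (D : ℕ) :
    BLb S c 2 D w pw (fun J F A H => ((n 2 - s' 2) * Real.log 2 - ε) * J ≤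
        CH (Pool.Agent.H49.Ent.cond F.p A True) (hgC F c w H 2 (n 2))
          (fun ω => ((cR F A t ω, F.W ω), ((fun l : Fin 2 => hgC F c w H l (n l) ω),
            hgC F c w H 2 (s' 2) ω)))) := by
  obtain ⟨e₀, he₀, H⟩ := ful_core htm hpos hcw hct hrd hwt (φ := q / 20) (p := pw) (n := n)
    (by linarith) hp (fun l hl => by
      obtain ⟨h1, h2, h3⟩ := hC l hl
      have h4 := hroom l hl l le_rfl
      have h5 := hcw.s0 l (Nat.zero_le _) (by omega)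
      have h6 : 0 ≤ C l * q := mul_nonneg h2 hq.le
      have h7 : (C l + 4) * q = C l * q + 4 * q := by ring
      rw [h1]
      constructor <;> linarith [h5.1]) (fun l hl => by
      obtain ⟨h1, h2, h3⟩ := hC l hl
      have h7 : (C l + 4) * q = C l * q + 4 * q := by ring
      rw [h1]
      linarith) (fun i hi l hl => by
      obtain ⟨h1, h2, h3⟩ := hC i hi
      have h4 := hroom i hi l hl.le
      have h7 : (C i + 4) * q = C i * q + 4 * q := by ring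
      rw [h1]
      linarith) hnt hε
  exact ⟨e₀, he₀, H D⟩

/-- The digits of the near path for the first jet of `c 2`. -/
noncomputable def kN (a C₂ : ℝ) : ℝ := (a + 11) * (C₂ / (a - 1))

/-- **The first jet of a near-dead `c 2`**: the rate is zero. -/
theorem f1_rtu {S : PCl m} {Ct : ℝ} (htm : TmC S Ct)
    (hpos : ∀ (τ : ℝ) (J : ℕ) (F : Fam m J) (A : F.Ω → Prop), S.St τ J F A → 0 < Pe F.p A)
    {c : ℕ → Fin m} {L : ℕ → ℝ → ℝ → ℝ} {G : Set ℝ} {g a C₂ dd K₀ : ℝ}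
    (hU : Pool.RV28.RtU S (fun (_ : ℕ) (F : Fam m _) => F.T) c 2 (fun _ : Fin 1 => c 2)
      (fun l w => L l w w) (fun _ w => L 2 w w) G g 0) (hW : ChG S c 3 (fun l w => L l w w) G)
    (g1 : g < 1) (hd : HasDerivAt (fun w => L 2 w w) a g) (ha : 1 < a) (hC : a ≤ C₂)
    (hdd : 0 < dd) (hK : 0 ≤ K₀) : ∃ q₁ : ℝ, 0 < q₁ ∧ ∀ q w : ℝ, 0 < q → q < q₁ → w ∈ G →
      |w - g| ≤ K₀ * q → ∀ S' : PCl m,
      (∀ (τ : ℝ) (J : ℕ) (F : Fam m J) (A : F.Ω → Prop), S'.St τ J F A → S.St τ J F A) →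
      (∃ η, RNum S' (fun J F => ptr F J) (vg w) η) → ∀ {pw nf n : ℕ → ℝ},
      (∀ l ≤ 2, L l w w - q / 20 ≤ pw l) → (∀ l < 2, nf l = L l w w + kN a C₂ * q) →
      n 2 = L 2 w w + C₂ * q → ∃ e : ℝ, 0 < e ∧
        F1 S' (fun J F => ptr F J) (vg w) (fun _ F => F.T)
          (qJets m c 0 2 1 (fun _ _ => w) (fun l _ => pw l) (fun l j => nf l - (j : ℝ) * w))
          (qJet m ((range 2).image c) (c 2) 1 w (pw 2) (n 2 - ((1 : ℕ) : ℝ) * w)) e (dd * q) := by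
  have ha0 : 0 < a - 1 := by linarith
  have hC0 : 0 < C₂ := by linarith
  obtain ⟨sc, hsc⟩ : ∃ sc : ℝ, sc = C₂ / (a - 1) := ⟨_, rfl⟩
  have hsc1 : 1 ≤ sc := by
    rw [hsc, le_div_iff₀ ha0]
    linarith
  have hsc0 : 0 < sc := by linarith
  have hsa : (a - 1) * sc = C₂ := by
    rw [hsc]
    exact mul_div_cancel₀ _ ha0.ne'
  obtain ⟨q₁, hq₁, H⟩ := Pool.RV28.RtU.f1s (r := 2) (k := c 2) (T := fun w => L 2 w w) (φ := 0) htm hpos hU
    (by
      refine ⟨fun w hw => ?_⟩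
      obtain ⟨u₁, rd, h1, h2⟩ := hW.ch w hw
      exact ⟨u₁, rd, fun i hi => h1 i (by omega), h2.take (Nat.zero_le _) (by norm_num)⟩)
    (fun b hb => by
      obtain ⟨u₁, rd, h1, h2⟩ := hW.ch b hb
      exact ⟨rd 2, h1 2 (by norm_num), h2.att 2 (Nat.zero_le _) (by norm_num)⟩)
    g1 (show 0 ≤ a by linarith) hd (dd := dd / sc) (K₀ := K₀ / sc) (kf := a + 11) (ph := 1 / 20)
    (by positivity) (by positivity) (by push_cast; linarith) (by norm_num) (by norm_num)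
  refine ⟨q₁ / sc, by positivity, fun q w hq hqq hw hwg S' hs hη pw nf n hpw hnf hn => ?_⟩
  rw [lt_div_iff₀ hsc0] at hqq
  have hqs : q ≤ sc * q := le_mul_of_one_le_left hq.le hsc1
  obtain ⟨e, he, hF⟩ := H (sc * q) w (by positivity) (by linarith) hw (by
      refine hwg.trans (le_of_eq ?_)
      field_simp) S' hs hη pw (pw 2) (fun l j => nf l - (j : ℝ) * w) (fun l hl => by
      have := hpw l (by omega)
      linarith) (by
      have := hpw 2 le_rfl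
      show L 2 w w - 1 / 20 * (sc * q) ≤ pw 2
      linarith) (fun l hl j hj => by
      rw [hnf l hl]
      unfold kN
      rw [← hsc]
      ring)
  refine ⟨e, he, ?_⟩
  have e1 : (fun w => L 2 w w) w + (a - 1) * (sc * q) - w = n 2 - ((1 : ℕ) : ℝ) * w := by
    rw [hn, ← mul_assoc, hsa]
    push_cast
    ring
  have e2 : dd / sc * (sc * q) = dd * q := by field_simp
  rw [e1, e2] at hF
  exact hF

end Pool.NDC42
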