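import Pool.Agent.H42.NDC.Gnm
import Pool.Agent.H42.NDC.Unm
import Pool.Agent.H36.NA.V0l
import Pool.Agent.H73.D2.Clre

/-!
# The ladder with the target `c 2` and the free velocities of `c 0, c 1` at a record
-/

set_option autoImplicit false

namespace Pool.NDC42

open Finset Real MvPolynomial
open Pool.Agent.H49.Ent Pool.Agent.H32.Dense Pool.STK Pool.KA Pool.KSAT Pool.K2S Pool.PB Pool.S6C
open Pool.GEN Pool.RCD Pool.CHT Pool.CHX Pool.LA91 Pool.PKG Pool.OWN68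
open Pool.V0F (cR mx_cR Lad FrI Nst)
open Pool.STA37 (u_sc)

variable {m : ℕ}

/-- **The ladder** with the target `c 2`. -/
theorem lad2 {S : PCl m} {Ct : ℝ} (htm : TmC S Ct)
    (hpos : ∀ (τ : ℝ) (J : ℕ) (F : Fam m J) (A : F.Ω → Prop), S.St τ J F A → 0 < Pe F.p A)
    {c : ℕ → Fin m} (hinj : Set.InjOn c (Set.Iio 3)) {L : ℕ → ℝ → ℝ → ℝ} {G : Set ℝ}
    (hW : ChG S c 3 (fun l w => L l w w) G) {Gl : Set ℝ} (hG : Gl ⊆ G) {b o u : ℝ} (hb : b ∈ Gl)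
    (ho : o ∈ Gl) (b0 : 0 ≤ b) (bo : b ≤ o) (o1 : o < 1) (hu : 0 < u)
    (gap : ∀ x, b ≤ x → x ≤ o → ∃ v ∈ Gl, |v - x| ≤ u / 10)
    (lv : ∀ v ∈ Gl, ∀ i < 2, |(L i v v - v) - (L i o o - o)| ≤ u / 10)
    (st : ∀ v ∈ Gl, ∀ v' ∈ Gl, v ≤ v' → L 2 v v + (v' - v) ≤ L 2 v' v' + u / 10) :
    Lad S c 2 (fun l w => L l w w) Gl b o (u / 10) := by
  refine ⟨⟨Ct, htm⟩, hpos, hinj, ⟨fun w hw => ?_⟩, fun w hw => ?_, hb, ho, b0, bo, o1, by linarith,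
    gap, fun i hi v hv _ _ => lv v hv i hi, fun v hv v' hv' _ h _ => st v hv v' hv' h⟩
  · obtain ⟨u₁, rd, h1, h2⟩ := hW.ch w (hG hw)
    exact ⟨u₁, rd, fun i hi => h1 i (by omega), h2.take (Nat.zero_le _) (by norm_num)⟩
  · obtain ⟨u₁, rd, h1, h2⟩ := hW.ch w (hG hw)
    have h3 := h2.s0 2 (Nat.zero_le _) (by norm_num)
    exact ⟨rd 2, 0, h1 2 (by norm_num), h2.r1 2 (Nat.zero_le _) (by norm_num), le_rfl,
      by linarith [h3.2], (h2.att 2 (Nat.zero_le _) (by norm_num)).attG h2.u0.le le_rfl⟩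

/-- **The free velocities** of `c 0, c 1` between the windows `w` and `x'`. -/
theorem fri2 {S : PCl m} {c : ℕ → Fin m} {L : ℕ → ℝ → ℝ → ℝ} {G : Set ℝ} {CF k₀ : ℕ}
    {w x' b u x₀ : ℝ} {κF : ℝ} (hfa : ∀ k ≥ k₀, FreeAt S (fun J F => ptr F J) (fun _ F => F.W) c 2
      (fun l w => L l w w) G x₀ CF 1 κF k) (hbG : b ∈ G) (hu : 0 < u) (hu1 : u < (1 / 2) ^ k₀)
    (hb : x₀ - CF / 2 * u ≤ b) (hbw : b + (CF + 27) * u ≤ w) (hwx : w ≤ x')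
    (hx : x' ≤ x₀ + (CF + 13) * u) (hκ : 0 ≤ κF) (hCF : 3 ≤ CF) :
    ∃ (h : ℝ) (P : Fin 2 → ℝ), u / 2 ≤ h ∧ h ≤ u ∧ L 0 x₀ x₀ - x₀ + (CF - 1 / 4) * h ≤ P 0 ∧
      L 1 x₀ x₀ - x₀ + (CF - 3) * h ≤ P 1 ∧
      FrI S c 2 (fun i x => L i x x - (1 : ℝ) / 20 * h) b P w x' (κF * u) := by
  obtain ⟨k, hk, hF1, hF2⟩ := u_sc hu hu1
  obtain ⟨H, hH⟩ : ∃ H : ℝ, H = (1 / 2) ^ k := ⟨_, rfl⟩
  have hH0 : 0 < H := by
    rw [hH]
    positivity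
  rw [← hH] at hF1 hF2
  have hCF0 : (3 : ℝ) ≤ CF := by exact_mod_cast hCF
  obtain ⟨p0, hp0, hp0'⟩ := exists_rat_btwn (show L 0 x₀ x₀ - x₀ + (CF - 1 / 4) * H <
    L 0 x₀ x₀ - x₀ + CF * H by linarith)
  obtain ⟨p1, hp1, hp1'⟩ := exists_rat_btwn (show L 1 x₀ x₀ - x₀ + (CF - 3) * H <
    L 1 x₀ x₀ - x₀ + (CF - 5 / 2) * H by linarith)
  have hCH : CF * H ≤ CF * u := mul_le_mul_of_nonneg_left hF2 (by linarith)
  have hCH' : (CF : ℝ) * (u / 2) ≤ CF * H := mul_le_mul_of_nonneg_left hF1 (by linarith)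
  obtain ⟨k₂, hk₂, e₀, he₀, hbas⟩ := hfa k hk ![p0, p1] b w x'
    ⟨by
      intro i
      fin_cases i
      · show L 0 x₀ x₀ - x₀ ≤ p0
        nlinarith
      · show L 1 x₀ x₀ - x₀ ≤ p1
        nlinarith, by
      intro i
      rw [← hH]
      fin_cases i
      · show (p0 : ℝ) ≤ L 0 x₀ x₀ - x₀ + CF * H
        linarith
      · show (p1 : ℝ) ≤ L 1 x₀ x₀ - x₀ + CF * H
        linarith, by
      intro l i hli
      rw [← hH]
      fin_cases l <;> fin_cases i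
      · exact absurd hli (lt_irrefl _)
      · show (p1 : ℝ) - (L 1 x₀ x₀ - x₀) + 2 * ((1 : ℚ) : ℝ) * H ≤ p0 - (L 0 x₀ x₀ - x₀)
        push_cast
        linarith
      · exact absurd hli (by decide)
      · exact absurd hli (lt_irrefl _)⟩ hbG
    (by
      rw [← hH]
      linarith)
    (by
      show b + (CF + 7 * ((2 : ℕ) : ℝ) + 13) * (1 / 2) ^ k ≤ w
      rw [← hH]
      push_cast
      linarith)
    hwx
    (by
      show x' ≤ x₀ + (2 * CF + 7 * ((2 : ℕ) : ℝ) + 12) * (1 / 2) ^ k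
      rw [← hH]
      push_cast
      linarith)
  refine ⟨H, fun i => ((![p0, p1] i : ℚ) : ℝ), hF1, hF2, hp0.le, hp1.le, k₂, hk₂, e₀, he₀,
    fun Kf => ?_⟩
  have h1 := hbas Kf
  rw [← hH] at h1
  have e1 : (fun (i : ℕ) (x : ℝ) => (fun l w => L l w w) i x - ((1 : ℚ) : ℝ) / 20 * H) =
      fun i x => L i x x - (1 : ℝ) / 20 * H := by
    funext i x
    push_cast
    rfl
  rw [e1] at h1
  refine Bas.mono 0 h1 ?_
  intro J _ F A h2 V z V' z' hz hz' v hv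
  refine (h2 V z V' z' hz hz' v hv).trans (add_le_add le_rfl ?_)
  exact mul_le_mul_of_nonneg_right (mul_le_mul_of_nonneg_left hF2 hκ) (Nat.cast_nonneg J)

end Pool.NDC42
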