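import Pool.Agent.H71.V0F.Vuj
import Pool.Agent.H71.V0F.Nup
import Pool.Agent.H42.V0B.Ljd
import Pool.Agent.H91.FR.SlG

/-!
# The letters of the base coordinates

In a ladder: `hdn_all`: the heights over the labels of an earlier window from those over the labels of
the window `w`; `v0_jts`: all jets over the labels of `w` from the heights over the labels of `w` and
the velocities over the labels of the base window.
-/

set_option autoImplicit false

namespace Pool.NDC42

open Finset Real MvPolynomial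
open Pool.Agent.H49.Ent Pool.Agent.H32.Dense Pool.STK Pool.KA Pool.KSAT Pool.K2S Pool.PB Pool.GEN
open Pool.S6C Pool.RCD Pool.LA91 Pool.AVG96
open Pool.OWN68 (F1 F0 few0_room few0_iff few_iff F1.mono)
open Pool.V0F

variable {m : ℕ} {S : PCl m} {c : ℕ → Fin m} {r : ℕ} {sn : ℕ → ℝ → ℝ} {G : Set ℝ} {b o φ : ℝ}

variable {α γ : ∀ J : ℕ, Fam m J → Type}
  {f : ∀ (J : ℕ) (F : Fam m J), F.Ω → α J F} {y : ∀ (J : ℕ) (F : Fam m J), F.Ω → γ J F}

/-- **One step** to an earlier window, for the heights. -/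
theorem hdn_one (L : Lad S c r sn G b o φ)
    (hf : ∀ (J : ℕ) (F : Fam m J), ∃ χ : α J F → PtT F, ∀ ω, ptr F J ω = χ (f J F ω))
    (hy : Kn ((range 0).image c) 1 1 y) {w : ℝ} {n : ℕ → ℝ} (hw : w ∈ G) (hwo : w ≤ o)
    (hn : Nst r sn w φ n) {v v' : ℝ} (hv : v ∈ G) (hv' : v' ∈ G) (hbv : b ≤ v) (hvv : v ≤ v')
    (hv3 : v' ≤ v + 3 * φ) (hvw : v' ≤ w) {i : ℕ} (hi : i < r) {pi : ℝ} (hpi : sn i v - φ ≤ pi) :
    Few S f (vg v') y (qJets m c 0 r 0 (fun _ _ => v') (fun l _ => sn l v') (fun l _ => n l))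
      (qJet m ((range i).image c) (c i) 0 v pi (n i)) := by
  obtain ⟨C₀, htm⟩ := L.tm
  obtain ⟨u₁, rd, hrd, hch⟩ := L.ch.ch v' hv'
  have hφ := L.φ0
  have hv1 : v' < 1 := hch.u0
  have hv0 : 0 ≤ v' := hch.w0
  have hmin : min (1 : ℝ) (1 - v') = 1 - v' := min_eq_right (by linarith)
  -- the levels
  have d1 : ∀ i < r, sn i w - (w - v) - 2 * φ ≤ sn i v := fun i hi => by
    have := L.dif hi hv hw (by linarith) (by linarith) (by linarith) hwo
    linarith
  have d1' : ∀ i < r, sn i v ≤ sn i v' + 2 * φ := fun i hi => by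
    have := L.dif hi hv' hv (by linarith) (by linarith) (by linarith) (by linarith)
    linarith
  have d3 : ∀ i < r, w - v' - 2 * φ ≤ sn i w - sn i v' := fun i hi => by
    have := L.dif hi hw hv' (by linarith) hwo (by linarith) (by linarith)
    linarith
  have d4 : ∀ i < r, sn i v' - 5 * φ ≤ sn i v := fun i hi => by
    have := L.dif hi hv hv' (by linarith) (by linarith) (by linarith) (by linarith)
    linarith
  obtain ⟨lv, hlv⟩ : ∃ lv : ℕ → ℝ, lv = fun l => n l - sn l v' - φ := ⟨_, rfl⟩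
  have e1 := hn.hi i hi
  have e2 := d1 i hi
  have e3 := d3 i hi
  have key := few_jetN (f := f) (y := y) htm (hch.take (Nat.zero_le i) hi.le) (k := c i)
    (j := 0) (wv := fun _ _ => v') (pv := fun l _ => sn l v')
    (Nv := fun l _ => n l)
    (lv := lv) (w₁ := v') (w₂ := v) (p₁ := sn i v') (p₂ := pi)
    (N₁ := n i) (N₂ := n i) (p₀ := 1) (lam := 1) (σ₀ := φ)
    (fun _ _ _ _ _ => le_rfl) le_rfl hvv hv1 le_rfl one_pos hφ (by
      intro l _ hl
      have k1 := hn.lo l (by omega)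
      have k2 := d3 l (by omega)
      rw [hlv]
      show 0 < n l - sn l v' - φ
      linarith) (by
      intro l _ hl j'' hj''
      obtain rfl : j'' = 0 := by omega
      rw [hlv, Nat.cast_zero]
      show sn l v' + (n l - sn l v' - φ) + φ ≤ n l + 0 * v'
      linarith) (by
      intro l _ hl j'' hj''
      have k1 := hn.hi l (by omega)
      have k2 := d3 l (by omega)
      have k5 := d1 l (by omega)
      have k8 := L.dif (show l < r by omega) hv' hw (by linarith) (by linarith) (by linarith) hwo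
      rw [hlv, hmin, min_self]
      show sn l v' + (n l - sn l v' - φ) + φ ≤ sn l v' + (1 - v')
      linarith) (by
      intro l _ hl j'' hj'' l' _ hl'
      have k1 := hn.ne l (by omega) l' hl'
      have k2 := d3 l (by omega)
      have k3 := d3 l' (by omega)
      have k4 := d1 l (by omega)
      have k6 := d4 l (by omega)
      have k7 := d1 l' (by omega)
      have k8 := L.dif (show l < r by omega) hv' hw (by linarith) (by linarith) (by linarith) hwo
      rw [hlv, min_self]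
      show sn l v' + (n l - sn l v' - φ) + φ ≤ sn l v' + (n l' - sn l' v' - φ)
      linarith) le_rfl (by
      rw [hmin, Nat.cast_zero]
      have k4 : sn i v - 2 * φ ≤ min (sn i v') pi := le_min (by linarith [d1' i hi])
        (by linarith)
      linarith) (by
      intro l _ hl
      have k1 := hn.ne i hi l hl
      have k3 := d3 l (by omega)
      have k4 : sn i v - 2 * φ ≤ min (sn i v') pi := le_min (by linarith [d1' i hi])
        (by linarith)
      rw [hlv, Nat.cast_zero]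
      show n i + 0 * v' + φ ≤ min (sn i v') pi + (n l - sn l v' - φ)
      linarith) hf hy
  refine Few.pre L.pos (fun u : ℕ → ℕ → ℤ => ((fun l j'' => if 0 ≤ l ∧ l < i ∧ j'' ≤ 0 then
    u l j'' else 0), u i 0)) ?_ key
  intro K e J F A u hu
  exact ⟨qJets_take hi.le le_rfl hu, hu.1 i (Nat.zero_le _) hi 0 le_rfl⟩

/-- **The heights over the labels of an earlier window.** -/
theorem hdn_all (L : Lad S c r sn G b o φ)
    (hf : ∀ (J : ℕ) (F : Fam m J), ∃ χ : α J F → PtT F, ∀ ω, ptr F J ω = χ (f J F ω))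
    (hy : Kn ((range 0).image c) 1 1 y) {w : ℝ} {n : ℕ → ℝ} (hw : w ∈ G)
    (hwo : w ≤ o) (hn : Nst r sn w φ n) (k : ℕ) :
    ∀ v ∈ G, b ≤ v → v ≤ w → w - v ≤ k * φ →
    Few S f (vg w) y (qJets m c 0 r 0 (fun _ _ => w) (fun l _ => sn l w) (fun l _ => n l))
      (qJets m c 0 r 0 (fun _ _ => v) (fun l _ => sn l v) (fun l _ => n l)) := by
  have hφ := L.φ0
  have hxs : ∀ x ∈ G, Exs S (qJets m c 0 r 0 (fun _ _ => x) (fun l _ => sn l x)
      (fun l _ => n l)) := fun x hx => by
    obtain ⟨u₁, rd, hrd, hch⟩ := L.ch.ch x hx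
    exact exs_qjets fun l l0 l1 j' _ => exs_jet (hrd l l1) (hch.att l l0 l1)
  have hstep : ∀ x ∈ G, ∀ v ∈ G, b ≤ v → v ≤ x → x ≤ v + 3 * φ → x ≤ w →
      Few S f (vg x) y (qJets m c 0 r 0 (fun _ _ => x) (fun l _ => sn l x) (fun l _ => n l))
        (qJets m c 0 r 0 (fun _ _ => v) (fun l _ => sn l v) (fun l _ => n l)) := by
    intro x hx v hv hbv hvx hx3 hxw
    refine few_qjets L.pos fun i _ hi j hj => ?_
    obtain rfl : j = 0 := by omega
    exact hdn_one L hf hy hw hwo hn hv hx hbv hvx hx3 hxw hi (by linarith)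
  induction k with
  | zero =>
    intro v hv hbv hvw h1
    rw [Nat.cast_zero, zero_mul] at h1
    exact hstep w hw v hv hbv hvw (by linarith) le_rfl
  | succ k ih =>
    intro v hv hbv hvw h1
    rcases le_or_gt (w - v) (3 * φ) with h2 | h2
    · exact hstep w hw v hv hbv hvw (by linarith) le_rfl
    obtain ⟨x, hx, h3⟩ := L.gap (v + 2 * φ) (by linarith) (by linarith)
    have h4 := abs_le.1 h3
    push_cast at h1
    have h5 := ih x hx (by linarith [h4.1]) (by linarith [h4.2]) (by linarith [h4.1])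
    obtain ⟨u₂, rd₂, hrd₂, hch₂⟩ := L.ch.ch w hw
    have hup : ∀ (J : ℕ) (F : Fam m J), ∃ χ : LnT F → LnT F, ∀ ω,
        vg x J F ω = χ (vg w J F ω) := fun J F => vg_mono (by linarith [h4.2]) hch₂.u0.le J F
    exact Few.trans L.pos (hxs x hx) h5
      (Few.up (f' := f) (y' := y) L.pos (fun J F => ⟨fun x => x, fun _ => rfl⟩) hup
        (fun J F => ⟨fun x => x, fun _ => rfl⟩)
        (hstep x hx v hv hbv (by linarith [h4.1]) (by linarith [h4.2]) (by linarith [h4.2])))

/-- **Few bits through an intermediate quantity.** -/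
theorem few_cut {C₀ : ℝ} (htm : TmC S C₀) {U U₁ U' : Type} {g : ∀ (J : ℕ) (F : Fam m J), F.Ω → LnT F}
    {Q : Qt m U} {Q₁ : Qt m U₁} {Q' : Qt m U'} (x : Exs S Q₁) (h0 : Few S f g y Q Q₁)
    (hf : Few S f g y (Q.prod Q₁) Q') : Few S f g y Q Q' := by
  intro h hh
  obtain ⟨e₁, he₁, h1⟩ := few_iff.1 h0 (h / 2) (half_pos hh)
  obtain ⟨e₂, he₂, h2⟩ := few_iff.1 hf (h / 2) (half_pos hh)
  have he : 0 < min e₁ e₂ := lt_min he₁ he₂
  have h3 := Pool.OWN68.F1.cut htm x he (h1.mono (min_le_left _ _) le_rfl)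
    (h2.mono (min_le_right _ _) le_rfl)
  rw [add_halves] at h3
  exact ⟨_, he, h3⟩

/-- **All jets over the labels of** `w` from the heights over the labels of `w` and the velocities over
the labels of the base window. -/
theorem v0_jts (L : Lad S c r sn G b o φ)
    (hf : ∀ (J : ℕ) (F : Fam m J), ∃ χ : α J F → PtT F, ∀ ω, ptr F J ω = χ (f J F ω))
    (hy : Kn ((range 0).image c) 1 1 y) {w : ℝ} {n : ℕ → ℝ} (hw : w ∈ G) (hbw : b ≤ w)
    (hwo : w ≤ o) (hn : Nst r sn w φ n) (hnat : ∀ i < r, n i - sn i w + 3 * φ ≤ w - b)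
    {P : Fin r → ℝ} (hP : ∀ i : Fin r, n i - w ≤ P i) {sp : ℕ → ℝ → ℝ}
    (hsp : ∀ i < r, sn i b - φ ≤ sp i b) (hsp' : ∀ i < r, sp i b ≤ sn i b) (Jm : ℕ) :
    Few S f (vg w) y ((qJets m c 0 r 0 (fun _ _ => w) (fun l _ => sn l w) (fun l _ => n l)).prod
      (qG m c r sp b P)) (qJets m c 0 r Jm (fun _ _ => w) (fun l _ => sn l w)
        (fun l j => n l - (j : ℝ) * w)) := by
  obtain ⟨C₀, htm⟩ := L.tm
  have hφ := L.φ0
  obtain ⟨k, hk⟩ := exists_nat_ge ((w - b) / φ)
  rw [div_le_iff₀ hφ] at hk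
  obtain ⟨Nf, hNf⟩ : ∃ Nf : ℕ → ℕ → ℝ, Nf = fun l j => if j = 0 then n l else
    if h : l < r then P ⟨l, h⟩ else 0 := ⟨_, rfl⟩
  obtain ⟨u₁, rd, hrd, hch⟩ := L.ch.ch b L.bG
  have hxs : Exs S (qJets m c 0 r 0 (fun _ _ => b) (fun l _ => sn l b) (fun l _ => n l)) :=
    exs_qjets fun l l0 l1 j' _ => exs_jet (hrd l l1) (hch.att l l0 l1)
  obtain ⟨u₂, rd₂, hrd₂, hch₂⟩ := L.ch.ch w hw
  have hup : ∀ (J : ℕ) (F : Fam m J), ∃ χ : LnT F → LnT F, ∀ ω,
      vg b J F ω = χ (vg w J F ω) := fun J F => vg_mono hbw hch₂.u0.le J F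
  have hbp : Few S f (vg w) y (qJets m c 0 r 0 (fun _ _ => b) (fun l _ => sn l b) (fun l _ => n l))
      (qJets m c 0 r 0 (fun _ _ => b) (fun l _ => sp l b) (fun l _ => n l)) :=
    Few.up (f' := f) (y' := y) L.pos (fun J F => ⟨fun x => x, fun _ => rfl⟩) hup
      (fun J F => ⟨fun x => x, fun _ => rfl⟩) (few_qjets L.pos fun i _ hi j hj => by
        obtain rfl : j = 0 := by omega
        exact hdn_one L hf hy hw hwo hn L.bG L.bG le_rfl le_rfl (by linarith) hbw hi (hsp i hi))
  refine few_cut htm (Q₁ := qJets m c 0 r 0 (fun _ _ => b) (fun l _ => sp l b) (fun l _ => n l)) ?_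
    ?_ ?_
  · refine exs_qjets fun l l0 l1 j' _ => exs_jet (hrd l l1)
      ((hch.att l l0 l1).le hch.u0.le (hsp' l l1))
  · exact Few.pre L.pos (fun u => u.1) (fun K e J F A u hu => hu.1)
      (Few.trans L.pos hxs (hdn_all L hf hy hw hwo hn k b L.bG le_rfl hbw hk) hbp)
  · refine Few.pre L.pos (fun u : ((ℕ → ℕ → ℤ) × (Fin r → ℤ)) × (ℕ → ℕ → ℤ) => fun l j =>
      if j = 0 then u.2 l 0 else if h : l < r ∧ j = 1 then u.1.2 ⟨l, h.1⟩ else 0) ?_
      (vuj_all L hf hy hw hbw hwo hn (p := fun l => sp l b) hsp hnat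
        (Nf := Nf) (fun i hi j hj => ?_) Jm k w hw hbw le_rfl hk)
    · intro K e J F A u hu
      refine ⟨fun i _ hi j hj => ?_, fun ω hω i j h => ?_⟩
      · rcases Nat.eq_zero_or_pos j with rfl | hj0
        · have h1 := hu.2.1 i (Nat.zero_le _) hi 0 le_rfl
          simp only [if_true]
          rw [hNf]
          exact h1
        · obtain rfl : j = 1 := by omega
          have h1 := hu.1.2 ⟨i, hi⟩
          have e1 : Nf i 1 = P ⟨i, hi⟩ := by
            rw [hNf]
            show (if (1 : ℕ) = 0 then n i else if h : i < r then P ⟨i, h⟩ else 0) = _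
            rw [if_neg one_ne_zero, dif_pos hi]
          rw [e1]
          simp only [one_ne_zero, if_false, and_true, hi, dif_pos]
          exact h1
      · show (if j = 0 then (u ω).2 i 0 else if h : i < r ∧ j = 1 then (u ω).1.2 ⟨i, h.1⟩ else 0) = 0
        split_ifs with h1 h2
        · subst h1
          exact hu.2.2 ω hω i 0 fun h3 => h ⟨h3.1, h3.2.1, Nat.zero_le _⟩
        · exact absurd ⟨Nat.zero_le _, h2.1, by omega⟩ h
        · rfl
    · rw [hNf]
      rcases Nat.eq_zero_or_pos j with rfl | hj0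
      · simp
      · obtain rfl : j = 1 := by omega
        show n i - ((1 : ℕ) : ℝ) * w ≤
          if (1 : ℕ) = 0 then n i else if h : i < r then P ⟨i, h⟩ else 0
        rw [if_neg one_ne_zero, dif_pos hi, Nat.cast_one, one_mul]
        exact hP ⟨i, hi⟩

end Pool.NDC42
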